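import Pool.Agent.TH309.Tor.Fin

/-! Solutions with waves of small amplitude. -/

set_option autoImplicit false

open Set Filter Topology MeasureTheory
open scoped ContDiff

namespace Pool.Agent.TH309.Tor

/-- The result of the crossing analysis, with waves of small amplitude. -/
theorem crossing_small (η : ℝ) (hη : 0 < η) : ∃ (m : ℝ × ℝ → ℝ) (L R : ℝ → ℝ),
    (∀ p, |m p| ≤ η) ∧ ContDiff ℝ ∞ m ∧ ContDiff ℝ ∞ L ∧
    ContDiff ℝ ∞ R ∧ (∀ p : ℝ × ℝ, Good (m p, m p.swap)) ∧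
    (∀ p : ℝ × ℝ, fderiv ℝ (fun p : ℝ × ℝ => Q1 (m p) (m p.swap)) p (1, m p) = 0) ∧
    (∀ p : ℝ × ℝ, p.1 ≤ -1 / 2 ∨ 3 / 2 ≤ p.1 → m p = 0) ∧
    (∀ p : ℝ × ℝ, p.1 ≤ -1 / 2 → m p.swap = L p.2) ∧
    (∀ p : ℝ × ℝ, 3 / 2 ≤ p.1 → m p.swap = R p.2) ∧ L (1 / 2) ≠ 0 := by
  obtain ⟨δ, hδ, γ, hγC, hγ0, hγs, hγM, hγG⟩ := exists_state
  -- the bump
  let f : ContDiffBump (1 / 2 : ℝ) := ⟨1 / 8, 1 / 4, by norm_num, by norm_num⟩
  have hfC : ContDiff ℝ ∞ (f : ℝ → ℝ) := f.contDiff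
  have hf0 : ∀ t : ℝ, t < 1 / 5 ∨ 4 / 5 < t → f t = 0 := by
    intro t ht
    refine f.zero_of_le_dist ?_
    show (1 / 4 : ℝ) ≤ dist t (1 / 2)
    rw [Real.dist_eq]
    rcases ht with ht | ht
    · rw [abs_of_neg (by linarith)]; linarith
    · rw [abs_of_pos (by linarith)]; linarith
  have hfd0 : ∀ t : ℝ, t ≤ 0 ∨ 1 ≤ t → deriv f t = 0 := by
    intro t ht
    have : (f : ℝ → ℝ) =ᶠ[𝓝 t] fun _ => 0 := by
      rcases ht with ht | ht
      · filter_upwards [Iio_mem_nhds (show t < 1 / 5 by linarith)] with x hx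
        exact hf0 x (Or.inl hx)
      · filter_upwards [Ioi_mem_nhds (show 4 / 5 < t by linarith)] with x hx
        exact hf0 x (Or.inr hx)
    rw [this.deriv_eq]
    simp
  have hf1 : ∀ t : ℝ, |f t| ≤ 1 := by
    intro t
    rw [abs_of_nonneg f.nonneg]
    exact f.le_one
  have hfhalf : f (1 / 2) = 1 := f.one_of_mem_closedBall (by
    simp only [Metric.mem_closedBall, dist_self]
    show (0 : ℝ) ≤ 1 / 8
    norm_num)
  obtain ⟨K0, hK0⟩ : ∃ K, ∀ t, ‖deriv f t‖ ≤ K :=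
    (hfC.continuous_deriv (by simp)).bounded_above_of_compact_support f.hasCompactSupport.deriv
  set K := max K0 1 with hK
  have hKp : 0 < K := by positivity
  have hKb : ∀ t, |deriv f t| ≤ K := fun t => (hK0 t).trans (le_max_left _ _)
  -- first component of the state map
  set γ1 : ℝ × ℝ → ℝ := fun p => (γ p).1 with hγ1
  have hγ1C : ContDiffOn ℝ ∞ γ1 (Metric.ball 0 δ) := contDiff_fst.comp_contDiffOn hγC
  have hγ1A : ∀ p ∈ Metric.ball (0 : ℝ × ℝ) δ, ContDiffAt ℝ ∞ γ1 p := fun p hp =>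
    hγ1C.contDiffAt (Metric.isOpen_ball.mem_nhds hp)
  have h0b : (0 : ℝ × ℝ) ∈ Metric.ball (0 : ℝ × ℝ) δ := Metric.mem_ball_self hδ
  have hfdc : ContinuousAt (fun p => ‖fderiv ℝ γ1 p‖) 0 :=
    (((hγ1A 0 h0b).fderiv_right (m := 0) (by norm_num)).continuousAt).norm
  set B := ‖fderiv ℝ γ1 0‖ + 1 with hB
  have hBp : 0 < B := by positivity
  have hev : ∀ᶠ p in 𝓝 (0 : ℝ × ℝ), ‖fderiv ℝ γ1 p‖ < B :=
    hfdc.eventually_lt continuousAt_const (by simp [hB])
  rw [Metric.eventually_nhds_iff_ball] at hev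
  obtain ⟨δ1, hδ1, hδ1b⟩ := hev
  have hγ10 : γ1 0 = 0 := by
    have h := hγ0 0 (by simpa using hδ)
    simp only [hγ1]
    rw [show (0 : ℝ × ℝ) = (0, 0) from rfl, h]
  have hγ1c : ContinuousAt (fun p => |γ1 p|) 0 := ((hγ1A 0 h0b).continuousAt).abs
  have hev2 : ∀ᶠ p in 𝓝 (0 : ℝ × ℝ), |γ1 p| < η :=
    hγ1c.eventually_lt continuousAt_const (by simp [hγ10, hη])
  rw [Metric.eventually_nhds_iff_ball] at hev2
  obtain ⟨δ2, hδ2, hδ2b⟩ := hev2
  set ε := min (min (min (δ / 2) (δ1 / 2)) (δ2 / 2)) (1 / (200 * B * K)) with hε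
  have hεp : 0 < ε := by positivity
  have hε1 : ε < δ := by
    have : ε ≤ δ / 2 := ((min_le_left _ _).trans (min_le_left _ _)).trans (min_le_left _ _)
    linarith
  have hε2 : ε < δ1 := by
    have : ε ≤ δ1 / 2 := ((min_le_left _ _).trans (min_le_left _ _)).trans (min_le_right _ _)
    linarith
  have hε2' : ε < δ2 := by
    have : ε ≤ δ2 / 2 := (min_le_left _ _).trans (min_le_right _ _)
    linarith
  have hε3 : ε * (B * K) ≤ 1 / 200 := by
    have : ε ≤ 1 / (200 * B * K) := min_le_right _ _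
    calc ε * (B * K) ≤ 1 / (200 * B * K) * (B * K) :=
          mul_le_mul_of_nonneg_right this (by positivity)
      _ = 1 / 200 := by field_simp
  set ρ : ℝ → ℝ := fun t => ε * f t with hρ
  have hρC : ContDiff ℝ ∞ ρ := contDiff_const.mul hfC
  have hρb : ∀ t, |ρ t| ≤ ε := by
    intro t
    simp only [hρ]
    rw [abs_mul, abs_of_pos hεp]
    calc ε * |f t| ≤ ε * 1 := mul_le_mul_of_nonneg_left (hf1 t) hεp.le
      _ = ε := mul_one _
  have hρδ : ∀ t, |ρ t| < δ := fun t => (hρb t).trans_lt hε1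
  have hρd : ∀ t, HasDerivAt ρ (ε * deriv f t) t := fun t =>
    ((hfC.differentiable (by simp) t).hasDerivAt).const_mul ε
  have hρ0 : ∀ t, t ≤ 0 ∨ 1 ≤ t → ρ t = 0 := by
    intro t ht
    simp only [hρ]
    rw [hf0 t (by rcases ht with h | h; exact Or.inl (by linarith); exact Or.inr (by linarith)),
      mul_zero]
  set ι : ℝ × ℝ → ℝ × ℝ := fun p => (ρ p.1, ρ p.2) with hι
  have hιC : ContDiff ℝ ∞ ι := (hρC.comp contDiff_fst).prodMk (hρC.comp contDiff_snd)
  have hball : ∀ (r : ℝ) (p : ℝ × ℝ), ε < r → ι p ∈ Metric.ball (0 : ℝ × ℝ) r := by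
    intro r p hr
    rw [Metric.mem_ball, Prod.dist_eq, Real.dist_eq, Real.dist_eq]
    simp only [Prod.fst_zero, Prod.snd_zero, sub_zero, hι]
    exact max_lt ((hρb _).trans_lt hr) ((hρb _).trans_lt hr)
  set mu : ℝ × ℝ → ℝ := fun p => γ1 (ι p) with hmu
  have hmuC : ContDiff ℝ ∞ mu := by
    rw [contDiff_iff_contDiffAt]
    intro p
    exact ContDiffAt.comp (g := γ1) (f := ι) p (hγ1A _ (hball δ p hε1)) hιC.contDiffAt
  have hγ0' : ∀ b, |b| < δ → γ (0, b) = (0, b) := by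
    intro b hb
    rw [hγs b 0 hb (by simpa using hδ), hγ0 b hb]
    rfl
  have hder : ∀ s t, HasDerivAt (fun t => mu (s, t))
      (fderiv ℝ γ1 (ι (s, t)) (0, ε * deriv f t)) t := by
    intro s t
    have h1 : HasFDerivAt γ1 (fderiv ℝ γ1 (ι (s, t))) (ι (s, t)) :=
      ((hγ1A _ (hball δ (s, t) hε1)).differentiableAt (by simp)).hasFDerivAt
    have h2 : HasDerivAt (fun t => ι (s, t)) ((0 : ℝ), ε * deriv f t) t :=
      (hasDerivAt_const t (ρ s)).prodMk (hρd t)
    exact HasFDerivAt.comp_hasDerivAt (l := γ1) (f := fun t => ι (s, t)) t h1 h2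
  set mud : ℝ × ℝ → ℝ := fun p => fderiv ℝ mu p (0, 1) with hmud
  have hmudC : ContDiff ℝ ∞ mud :=
    (hmuC.fderiv_right (m := ∞) (by norm_num)).clm_apply contDiff_const
  have hmudd : ∀ s t, HasDerivAt (fun t => mu (s, t)) (mud (s, t)) t := by
    intro s t
    have h3 : HasFDerivAt mu (fderiv ℝ mu (s, t)) (s, t) :=
      (hmuC.differentiable (by simp) (s, t)).hasFDerivAt
    have h4 : HasDerivAt (fun t : ℝ => (s, t)) ((0 : ℝ), (1 : ℝ)) t :=
      (hasDerivAt_const t s).prodMk (hasDerivAt_id t)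
    exact HasFDerivAt.comp_hasDerivAt (l := mu) (f := fun t : ℝ => (s, t)) t h3 h4
  have hmudeq : ∀ s t, mud (s, t) = fderiv ℝ γ1 (ι (s, t)) (0, ε * deriv f t) := fun s t =>
    (hmudd s t).unique (hder s t)
  have hgood : ∀ p : ℝ × ℝ, Good (γ (ι p)) := fun p => hγG _ _ (hρδ _) (hρδ _)
  let C : Cross :=
    { mu := mu
      mud := mud
      hmu := hmuC
      hmud := hmudC
      hd := hmudd
      hb := fun p => (hgood p).1.le
      h0 := by
        intro s t h
        show (γ (ρ s, ρ t)).1 = 0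
        rw [hρ0 s h, hγ0' (ρ t) (hρδ t)]
      hbt := by
        intro p
        have e := hmudeq p.1 p.2
        rw [show ((p.1, p.2) : ℝ × ℝ) = p from rfl] at e
        rw [e]
        have h1 := (fderiv ℝ γ1 (ι p)).le_opNorm (0, ε * deriv f p.2)
        have h2 := (hδ1b _ (hball δ1 p hε2)).le
        have h3 : ‖((0 : ℝ), ε * deriv f p.2)‖ ≤ ε * K := by
          rw [Prod.norm_def]
          refine max_le ?_ ?_
          · simp only [norm_zero]; positivity
          · simp only [Real.norm_eq_abs]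
            rw [abs_mul, abs_of_pos hεp]
            exact mul_le_mul_of_nonneg_left (hKb _) hεp.le
        rw [Real.norm_eq_abs] at h1
        refine h1.trans ((mul_le_mul h2 h3 (norm_nonneg _) hBp.le).trans ?_)
        calc B * (ε * K) = ε * (B * K) := by ring
          _ ≤ 1 / 200 := hε3
      h1 := by
        intro s t h
        rw [hmudeq, hfd0 t h, mul_zero]
        exact map_zero _ }
  have hCmu : ∀ s t, C.mu (s, t) = (γ (ρ s, ρ t)).1 := fun s t => rfl
  have hCmus : ∀ s t, C.mu (t, s) = (γ (ρ s, ρ t)).2 := by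
    intro s t
    rw [hCmu, hγs _ _ (hρδ s) (hρδ t)]
    rfl
  have hpair : ∀ p : ℝ × ℝ, (C.m p, C.m p.swap) = γ (ι (C.hom.symm p)) := by
    intro p
    unfold Cross.m
    rw [C.symm_swap]
    have h1 := hCmu (C.hom.symm p).1 (C.hom.symm p).2
    have h2 := hCmus (C.hom.symm p).1 (C.hom.symm p).2
    ext
    · exact h1
    · exact h2
  have hgood' : ∀ p : ℝ × ℝ, Good (C.m p, C.m p.swap) := by
    intro p; rw [hpair p]; exact hgood _
  have hsw : ∀ p, C.m (Prod.swap p) = C.mu (C.hom.symm p).swap := by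
    intro p; unfold Cross.m; rw [C.symm_swap]
  have hsmall : ∀ p, |C.m p| ≤ η := fun p => (hδ2b _ (hball δ2 _ hε2')).le
  refine ⟨C.m, ρ, fun y => C.m (y, 2), hsmall, C.contDiff_m, hρC, ?_, hgood', ?_, C.m_zero, ?_, ?_,
    ?_⟩
  · exact C.contDiff_m.comp (contDiff_id.prodMk contDiff_const)
  · intro p
    set h : ℝ × ℝ → ℝ := fun p => Q1 (C.m p) (C.m p.swap) with hh
    have hdiff : DifferentiableAt ℝ h p := by
      have e1 : ContDiffAt ℝ ∞ (fun q : ℝ × ℝ => Q1 q.1 q.2) (C.m p, C.m p.swap) :=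
        contDiffAt_Q1 (hgood' p).one_sub.ne' (hgood' p).2.2.2.2
      have e2 : ContDiff ℝ ∞ (fun p : ℝ × ℝ => (C.m p, C.m p.swap)) :=
        C.contDiff_m.prodMk (C.contDiff_m.comp Cross.contDiff_swap)
      have e3 : ContDiffAt ℝ ∞ h p :=
        ContDiffAt.comp (g := fun q : ℝ × ℝ => Q1 q.1 q.2)
          (f := fun p : ℝ × ℝ => (C.m p, C.m p.swap)) p e1 e2.contDiffAt
      exact e3.differentiableAt (by simp)
    have hhP : ∀ q : ℝ × ℝ, h (C.Phi q) = qq (ρ q.2) := by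
      intro q
      have e1 := hpair (C.Phi q)
      have e2 : C.hom.symm (C.Phi q) = q := by
        rw [← C.hom_apply, Homeomorph.symm_apply_apply]
      rw [e2] at e1
      have e3 := hγM (ρ q.1) (ρ q.2) (hρδ _) (hρδ _)
      have e4 : mM (C.m (C.Phi q), C.m (C.Phi q).swap) = (qq (ρ q.2), qq (ρ q.1)) := by
        rw [e1]; exact e3
      exact congrArg Prod.fst e4
    set q := C.hom.symm p with hq
    have hqp : C.Phi q = p := C.Phi_symm p
    have h1 : HasDerivAt (fun s => C.Phi (s, q.2)) (C.dPhi q (1, 0)) q.1 := by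
      have e1 : HasFDerivAt C.Phi (C.dPhi q) (q.1, q.2) := C.Phi_hasFDerivAt q
      have e2 : HasDerivAt (fun s : ℝ => (s, q.2)) ((1 : ℝ), (0 : ℝ)) q.1 :=
        (hasDerivAt_id q.1).prodMk (hasDerivAt_const q.1 q.2)
      exact HasFDerivAt.comp_hasDerivAt (l := C.Phi) (f := fun s : ℝ => (s, q.2)) q.1 e1 e2
    have h2 : HasDerivAt (fun s => h (C.Phi (s, q.2))) (fderiv ℝ h p (C.dPhi q (1, 0))) q.1 := by
      have e1 : HasFDerivAt h (fderiv ℝ h p) (C.Phi (q.1, q.2)) := by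
        rw [show ((q.1, q.2) : ℝ × ℝ) = q from rfl, hqp]
        exact hdiff.hasFDerivAt
      exact HasFDerivAt.comp_hasDerivAt (l := h) (f := fun s : ℝ => C.Phi (s, q.2)) q.1 e1 h1
    have h3 : HasDerivAt (fun s => h (C.Phi (s, q.2))) 0 q.1 := by
      have e1 : (fun s => h (C.Phi (s, q.2))) = fun _ => qq (ρ q.2) := by
        funext s; exact hhP (s, q.2)
      rw [e1]
      exact hasDerivAt_const _ _
    have h4 := h2.unique h3
    have h5 : C.dPhi q (1, 0) = C.X q • ((1 : ℝ), C.m p) := by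
      rw [C.dPhi_apply]
      have e1 : C.m p = C.mu q := rfl
      rw [e1]
      unfold Cross.w
      rw [Prod.swap_swap]
      ext
      · simp
      · simp [mul_comm]
    rw [h5, map_smul, smul_eq_mul] at h4
    exact (mul_eq_zero.1 h4).resolve_left (C.X_pos q).ne'
  · intro p hp
    have h1 := C.fst_left p hp
    have h2 := C.snd_left p hp
    rw [hsw p]
    have h3 : C.mu (C.hom.symm p).swap = (γ (ρ (C.hom.symm p).1, ρ (C.hom.symm p).2)).2 :=
      hCmus _ _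
    rw [h3, hρ0 _ (Or.inl h1), hγ0' _ (hρδ _), h2]
  · intro p hp
    have h1 := C.fst_right p hp
    obtain ⟨s2, hs2, h2⟩ := C.right_line p hp
    rw [hsw p]
    have h3 : C.mu (C.hom.symm p).swap = (γ (ρ (C.hom.symm p).1, ρ (C.hom.symm p).2)).2 :=
      hCmus _ _
    have h4 : C.m (p.2, 2) = C.mu (C.hom.symm (2, p.2)).swap := hsw (2, p.2)
    show _ = C.m (p.2, 2)
    rw [h4, h2, h3, hρ0 _ (Or.inr h1), hγ0' _ (hρδ _)]
    have h5 : C.mu ((s2, (C.hom.symm p).2) : ℝ × ℝ).swap =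
        (γ (ρ s2, ρ (C.hom.symm p).2)).2 := hCmus _ _
    rw [h5, hρ0 _ (Or.inr hs2), hγ0' _ (hρδ _)]
  · show ε * f (1 / 2) ≠ 0
    rw [hfhalf, mul_one]
    exact hεp.ne'

/-- the state as a function of the two amplitudes -/
noncomputable def st (p : ℝ × ℝ) : E3 := ((27 / 4 * g3 p.1 p.2) ^ (1 / 3 : ℝ) - 1, sA p.1 p.2,
  sB p.1 p.2)

theorem st_zero : st (0, 0) = 0 := by
  unfold st
  simp only
  have e := g3_zero_left 0
  have e2 : ss 0 = 1 := by unfold ss; norm_num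
  rw [e, e2, sA_zero_left, sB_zero_left, ff_zero]
  norm_num

theorem continuousAt_st : ContinuousAt st (0, 0) := by
  have h0 : (1 : ℝ) - ((0 : ℝ), (0 : ℝ)).1 * ((0 : ℝ), (0 : ℝ)).2 ≠ 0 := by norm_num
  have hA := (contDiffAt_sA h0).continuousAt
  have hB := (contDiffAt_sB h0).continuousAt
  have hg := (contDiffAt_g3 h0).continuousAt
  have hpos : 0 < g3 ((0 : ℝ), (0 : ℝ)).1 ((0 : ℝ), (0 : ℝ)).2 := g3_pos (by
    rw [f3_zero]; norm_num)
  have h3 : ContinuousAt (fun p : ℝ × ℝ => (27 / 4 * g3 p.1 p.2) ^ (1 / 3 : ℝ)) (0, 0) := by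
    refine (continuousAt_const.mul hg).rpow_const (Or.inl ?_)
    have : (0 : ℝ) < 27 / 4 * g3 ((0 : ℝ), (0 : ℝ)).1 ((0 : ℝ), (0 : ℝ)).2 := by positivity
    exact this.ne'
  exact (h3.sub continuousAt_const).prodMk (hA.prodMk hB)

theorem exists_pack_small (c : ℝ) (hc : 0 < c) : ∃ P : Pack, ∀ u, ‖P.K u‖ ≤ c := by
  obtain ⟨η, hη, hst⟩ : ∃ η : ℝ, 0 < η ∧ ∀ p : ℝ × ℝ, |p.1| ≤ η → |p.2| ≤ η → ‖st p‖ ≤ c := by
    have h1 := continuousAt_st
    rw [Metric.continuousAt_iff] at h1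
    obtain ⟨η, hη, h2⟩ := h1 c hc
    refine ⟨η / 2, by positivity, fun p hp1 hp2 => ?_⟩
    have h3 := h2 (x := p) (by
      rw [Prod.dist_eq, Real.dist_eq, Real.dist_eq]
      simp only [sub_zero]
      exact max_lt (by linarith) (by linarith))
    rw [st_zero, dist_zero_right] at h3
    exact h3.le
  obtain ⟨m, L, R, hsm, hm, hL, hR, hG, hH, hz, h1, h2, hnz⟩ := crossing_small η hη
  have bL : ∀ y, |L y| < 1 / 10 := by
    intro y
    have := h1 (-1, y) (by norm_num)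
    have g := (hG (-1, y)).2.1
    rw [this] at g
    exact g
  have bR : ∀ y, |R y| < 1 / 10 := by
    intro y
    have := h2 (2, y) (by norm_num)
    have g := (hG (2, y)).2.1
    rw [this] at g
    exact g
  have zL : ∀ y, y ≤ -1 / 2 ∨ 3 / 2 ≤ y → L y = 0 := by
    intro y hy
    have := h1 (-1, y) (by norm_num)
    rw [← this]
    exact hz (y, -1) hy
  have zR : ∀ y, y ≤ -1 / 2 ∨ 3 / 2 ≤ y → R y = 0 := by
    intro y hy
    have := h2 (2, y) (by norm_num)
    rw [← this]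
    exact hz (y, 2) hy
  set κ : ℝ × ℝ := (19 / 2, 19 / 2) with hκ
  set K0 : ℝ × ℝ → E3 := fun p => (fS m p - 1, fA m p, fB m p) with hK0
  have hsol : ∀ u, Sol K0 u := by
    intro u
    refine ⟨?_, ?_, ?_⟩
    · exact (((contDiff_fS hm hG).sub contDiff_const).prodMk
        ((contDiff_fA hm hG).prodMk (contDiff_fB hm hG))).contDiffAt
    · have e : (fun p => 1 + (K0 p).1) = fS m := by funext p; simp [hK0]
      have k := pde_cross hm hG hH u
      rw [e]
      exact k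
    · have := fS_pos hm hG u
      simp only [hK0]
      linarith
  -- values in the simple wave regions
  have v1 : ∀ (p : ℝ × ℝ) (x : ℝ), m p = 0 → m p.swap = x → |x| < 1 / 10 → K0 p = e1 (ff x) := by
    intro p x hp hx hb
    simp only [hK0, fS, fA, fB]
    rw [hp, hx, g3_zero_left, cube_root (ss_pos hb), sA_zero_left, sB_zero_left, ss_eq]
    unfold e1
    simp
  have v2 : ∀ (p : ℝ × ℝ) (x : ℝ), m p.swap = 0 → m p = x → |x| < 1 / 10 → K0 p = e2 (ff x) := by
    intro p x hp hx hb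
    simp only [hK0, fS, fA, fB]
    rw [hp, hx, g3_swap, g3_zero_left, cube_root (ss_pos hb), sA_zero_right, sB_zero_right, ss_eq]
    unfold e2
    simp
  refine ⟨{
    K := fun u => K0 (u - κ)
    tL := fun y => ff (L (y - 19 / 2))
    tR := fun y => ff (R (y - 19 / 2))
    hL := contDiff_ff.comp (hL.comp (contDiff_id.sub contDiff_const))
    hR := contDiff_ff.comp (hR.comp (contDiff_id.sub contDiff_const))
    pL := fun y => one_add_ff_pos (bL _)
    pR := fun y => one_add_ff_pos (bR _)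
    zL := ?_
    zR := ?_
    sol := fun u => (hsol _).shift
    k1 := ?_
    k2 := ?_
    k3 := ?_
    k4 := ?_
    nz := ?_ }, fun u => hst (m (u - κ), m (u - κ).swap) (hsm _) (hsm _)⟩
  · intro y hy
    rw [zL _ (by rcases hy with h | h; exact Or.inl (by linarith); exact Or.inr (by linarith)),
      ff_zero]
  · intro y hy
    rw [zR _ (by rcases hy with h | h; exact Or.inl (by linarith); exact Or.inr (by linarith)),
      ff_zero]
  · intro u hu
    have hp : (u - κ).1 ≤ -1 / 2 := by simp only [hκ, Prod.fst_sub]; linarith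
    exact v1 (u - κ) _ (hz _ (Or.inl hp)) (h1 _ hp) (bL _)
  · intro u hu
    have hp : 3 / 2 ≤ (u - κ).1 := by simp only [hκ, Prod.fst_sub]; linarith
    exact v1 (u - κ) _ (hz _ (Or.inr hp)) (h2 _ hp) (bR _)
  · intro u hu
    have hp : (u - κ).swap.1 ≤ -1 / 2 := by
      simp only [hκ, Prod.fst_swap, Prod.snd_sub]; linarith
    have e := h1 _ hp
    rw [Prod.swap_swap] at e
    exact v2 (u - κ) _ (hz _ (Or.inl hp)) e (bL _)
  · intro u hu
    have hp : 3 / 2 ≤ (u - κ).swap.1 := by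
      simp only [hκ, Prod.fst_swap, Prod.snd_sub]; linarith
    have e := h2 _ hp
    rw [Prod.swap_swap] at e
    exact v2 (u - κ) _ (hz _ (Or.inr hp)) e (bR _)
  · have e : (10 : ℝ) - 19 / 2 = 1 / 2 := by norm_num
    rw [e]
    exact ff_ne (bL _) hnz

namespace Pack

variable (P : Pack)

theorem norm_e1 (t : ℝ) : ‖e1 t‖ = |t| := by
  unfold e1
  simp [Prod.norm_def]

theorem norm_e2 (t : ℝ) : ‖e2 t‖ = |t| := by
  unfold e2
  simp [Prod.norm_def]

theorem norm_e3 (t : ℝ) : ‖e3 t‖ = |t| := by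
  unfold e3
  simp [Prod.norm_def]

theorem norm_rho (w : E3) : ‖rho w‖ ≤ 2 * ‖w‖ := by
  have h1 : ‖w.1‖ ≤ ‖w‖ := norm_fst_le w
  have h2 : ‖w.2.1‖ ≤ ‖w‖ := (norm_fst_le w.2).trans (norm_snd_le w)
  have h3 : ‖w.2.2‖ ≤ ‖w‖ := (norm_snd_le w.2).trans (norm_snd_le w)
  have h4 : ‖-w.2.1 - w.2.2‖ ≤ ‖w.2.1‖ + ‖w.2.2‖ := by
    have := norm_sub_le (-w.2.1) w.2.2
    rwa [norm_neg] at this
  have h5 := norm_nonneg w
  unfold rho
  rw [Prod.norm_def, Prod.norm_def]
  refine max_le (by linarith) (max_le (by linarith) (by linarith))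

theorem Psi_small {c : ℝ} (hK : ∀ u, ‖P.K u‖ ≤ c) (u : ℝ × ℝ) : ‖P.Psi u‖ ≤ 24 * c := by
  have hc : 0 ≤ c := (norm_nonneg _).trans (hK 0)
  have hL : ∀ y, |P.tL y| ≤ c := by
    intro y
    have := hK (9, y)
    rw [P.k1 (9, y) le_rfl, norm_e1] at this
    exact this
  have hR : ∀ y, |P.tR y| ≤ c := by
    intro y
    have := hK (11, y)
    rw [P.k2 (11, y) le_rfl, norm_e1] at this
    exact this
  have hts : ∀ x y z, |P.ts x y z| ≤ c := by
    intro x y z
    unfold ts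
    split_ifs
    · exact hL _
    · exact hR _
  have hTh : ∀ x y, ‖P.Th x y‖ ≤ 3 * c := by
    intro x y
    have h1 : ‖e1 (if y < 10 then P.tL x else P.tR x)‖ ≤ c := by
      rw [norm_e1]
      split_ifs
      · exact hL _
      · exact hR _
    have h2 : ‖e2 (if x < 10 then P.tL y else P.tR y)‖ ≤ c := by
      rw [norm_e2]
      split_ifs
      · exact hL _
      · exact hR _
    unfold Th
    have h3 := norm_sub_le (P.K (y, x) - e1 (if y < 10 then P.tL x else P.tR x))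
      (e2 (if x < 10 then P.tL y else P.tR y))
    have h4 := norm_sub_le (P.K (y, x)) (e1 (if y < 10 then P.tL x else P.tR x))
    have h5 := hK (y, x)
    linarith
  unfold Psi Psi3
  set a := cc u.2
  set b := cc u.1
  set d := cc (-u.1 - u.2)
  have n1 : ‖e1 (P.ts a b d)‖ ≤ c := by rw [norm_e1]; exact hts _ _ _
  have n2 : ‖e2 (P.ts b d a)‖ ≤ c := by rw [norm_e2]; exact hts _ _ _
  have n3 : ‖e3 (P.ts d a b)‖ ≤ c := by rw [norm_e3]; exact hts _ _ _
  have n4 := hTh a b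
  have n5 : ‖rho (P.Th b d)‖ ≤ 6 * c := by
    have h1 := norm_rho (P.Th b d)
    have h2 := hTh b d
    linarith
  have n6 : ‖rho (rho (P.Th d a))‖ ≤ 12 * c := by
    have h1 := norm_rho (rho (P.Th d a))
    have h2 := norm_rho (P.Th d a)
    have h3 := hTh d a
    linarith
  have k1 := norm_add_le (e1 (P.ts a b d)) (e2 (P.ts b d a))
  have k2 := norm_add_le (e1 (P.ts a b d) + e2 (P.ts b d a)) (e3 (P.ts d a b))
  have k3 := norm_add_le (e1 (P.ts a b d) + e2 (P.ts b d a) + e3 (P.ts d a b)) (P.Th a b)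
  have k4 := norm_add_le (e1 (P.ts a b d) + e2 (P.ts b d a) + e3 (P.ts d a b) + P.Th a b)
    (rho (P.Th b d))
  have k5 := norm_add_le (e1 (P.ts a b d) + e2 (P.ts b d a) + e3 (P.ts d a b) + P.Th a b +
    rho (P.Th b d)) (rho (rho (P.Th d a)))
  linarith

end Pack

/-- solutions with small waves -/
theorem exists_small (c : ℝ) (hc : 0 < c) : ∃ P : Pack, ∀ u,
    |P.S u - 1| ≤ c ∧ |P.A u| ≤ c ∧ |P.B u| ≤ c := by
  obtain ⟨P, hP⟩ := exists_pack_small (c / 24) (by positivity)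
  refine ⟨P, fun u => ?_⟩
  have h := P.Psi_small hP u
  rw [mul_div_cancel₀ _ (by norm_num : (24 : ℝ) ≠ 0)] at h
  have h1 : ‖(P.Psi u).1‖ ≤ ‖P.Psi u‖ := norm_fst_le _
  have h2 : ‖(P.Psi u).2.1‖ ≤ ‖P.Psi u‖ := (norm_fst_le _).trans (norm_snd_le _)
  have h3 : ‖(P.Psi u).2.2‖ ≤ ‖P.Psi u‖ := (norm_snd_le _).trans (norm_snd_le _)
  refine ⟨?_, h2.trans h, h3.trans h⟩
  unfold Pack.S
  rw [add_sub_cancel_left]
  exact h1.trans h

end Pool.Agent.TH309.Tor
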