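import Pool.Agent.TH309.Tor.Glue2

/-! Conformal Killing fields on the torus are constant. -/

set_option autoImplicit false

open Set Filter Topology
open scoped ContDiff

namespace Pool.Agent.TH309.Tor

theorem bounded_of_periodic {f : ℝ × ℝ → ℝ} (hf : Continuous f)
    (h1 : ∀ u : ℝ × ℝ, f (u.1 + 1, u.2) = f u) (h2 : ∀ u : ℝ × ℝ, f (u.1, u.2 + 1) = f u) :
    ∃ C : ℝ, ∀ u, |f u| ≤ C := by
  obtain ⟨C, hC⟩ := ((isCompact_Icc (a := (0 : ℝ)) (b := 1)).prod
    (isCompact_Icc (a := (0 : ℝ)) (b := 1))).exists_bound_of_continuousOn hf.continuousOn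
  refine ⟨C, fun u => ?_⟩
  have p1 : ∀ y, Function.Periodic (fun x => f (x, y)) 1 := fun y x => h1 (x, y)
  have p2 : ∀ x, Function.Periodic (fun y => f (x, y)) 1 := fun x y => h2 (x, y)
  have e1 : f (Int.fract u.1, u.2) = f u := by
    have := (p1 u.2).int_mul (-⌊u.1⌋) u.1
    simp only [mul_one] at this
    have e : u.1 + ((-⌊u.1⌋ : ℤ) : ℝ) = Int.fract u.1 := by
      unfold Int.fract; push_cast; ring
    rw [e] at this
    exact this
  have e2 : f (Int.fract u.1, Int.fract u.2) = f (Int.fract u.1, u.2) := by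
    have := (p2 (Int.fract u.1)).int_mul (-⌊u.2⌋) u.2
    simp only [mul_one] at this
    have e : u.2 + ((-⌊u.2⌋ : ℤ) : ℝ) = Int.fract u.2 := by
      unfold Int.fract; push_cast; ring
    rw [e] at this
    exact this
  rw [← e1, ← e2]
  exact hC _ ⟨⟨Int.fract_nonneg _, (Int.fract_lt_one _).le⟩,
    ⟨Int.fract_nonneg _, (Int.fract_lt_one _).le⟩⟩

/-- the complex structure -/
noncomputable def lam : ℂ := ⟨1 / 2, Real.sqrt 3 / 2⟩

noncomputable def inv : ℂ →L[ℝ] ℝ × ℝ :=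
  (Complex.reCLM - (1 / Real.sqrt 3) • Complex.imCLM).prod ((2 / Real.sqrt 3) • Complex.imCLM)

theorem inv_fst (z : ℂ) : (inv z).1 = z.re - z.im / Real.sqrt 3 := by
  simp [inv]; ring

theorem inv_snd (z : ℂ) : (inv z).2 = 2 * z.im / Real.sqrt 3 := by
  simp [inv]; ring

theorem sqrt3_pos : 0 < Real.sqrt 3 := Real.sqrt_pos.2 (by norm_num)

theorem sqrt3_sq : Real.sqrt 3 * Real.sqrt 3 = 3 := Real.mul_self_sqrt (by norm_num)

theorem inv_surj (u : ℝ × ℝ) : ∃ z, inv z = u := by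
  have h := sqrt3_pos
  refine ⟨⟨u.1 + u.2 / 2, Real.sqrt 3 / 2 * u.2⟩, ?_⟩
  ext
  · rw [inv_fst]; simp only; field_simp; ring
  · rw [inv_snd]; simp only; field_simp

theorem const_of_cr {X Y : ℝ × ℝ → ℝ} (hX : Differentiable ℝ X) (hY : Differentiable ℝ Y)
    (X1 : ∀ u : ℝ × ℝ, X (u.1 + 1, u.2) = X u) (X2 : ∀ u : ℝ × ℝ, X (u.1, u.2 + 1) = X u)
    (Y1 : ∀ u : ℝ × ℝ, Y (u.1 + 1, u.2) = Y u) (Y2 : ∀ u : ℝ × ℝ, Y (u.1, u.2 + 1) = Y u)
    (h1 : ∀ u, fderiv ℝ Y u (1, 0) = -fderiv ℝ X u (0, 1))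
    (h2 : ∀ u, fderiv ℝ Y u (0, 1) = fderiv ℝ X u (1, 0) - fderiv ℝ X u (0, 1)) :
    ∀ u v, X u = X v ∧ Y u = Y v := by
  obtain ⟨CX, hCX⟩ := bounded_of_periodic hX.continuous X1 X2
  obtain ⟨CY, hCY⟩ := bounded_of_periodic hY.continuous Y1 Y2
  set g : ℂ → ℂ := fun z => (X (inv z) : ℂ) + lam * (Y (inv z) : ℂ) with hg
  have hs := sqrt3_pos
  have hss := sqrt3_sq
  have hd : Differentiable ℂ g := by
    intro z
    have d1 : HasFDerivAt (fun z => (X (inv z) : ℂ))
        (Complex.ofRealCLM.comp ((fderiv ℝ X (inv z)).comp inv)) z :=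
      Complex.ofRealCLM.hasFDerivAt.comp z ((hX (inv z)).hasFDerivAt.comp z inv.hasFDerivAt)
    have d2 : HasFDerivAt (fun z => (Y (inv z) : ℂ))
        (Complex.ofRealCLM.comp ((fderiv ℝ Y (inv z)).comp inv)) z :=
      Complex.ofRealCLM.hasFDerivAt.comp z ((hY (inv z)).hasFDerivAt.comp z inv.hasFDerivAt)
    have d3 := d1.add (d2.const_mul lam)
    set a := fderiv ℝ X (inv z) (1, 0) with ha
    set b := fderiv ℝ X (inv z) (0, 1) with hb
    have d4 : HasFDerivAt (𝕜 := ℂ) g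
        (((a : ℂ) - lam * (b : ℂ)) • ContinuousLinearMap.id ℂ ℂ) z := by
      refine hasFDerivAt_of_restrictScalars ℝ d3 ?_
      ext v
      have w1 := fderiv_dir X (inv z) (inv v)
      have w2 := fderiv_dir Y (inv z) (inv v)
      rw [h1, h2, ← ha, ← hb] at w2
      rw [← ha, ← hb] at w1
      simp only [ContinuousLinearMap.coe_restrictScalars', smul_apply,
        ContinuousLinearMap.id_apply, add_apply,
        ContinuousLinearMap.comp_apply, smul_eq_mul, Complex.ofRealCLM_apply]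
      rw [w1, w2, inv_fst, inv_snd]
      apply Complex.ext
      · simp [lam]
        field_simp
        ring_nf
        rw [show Real.sqrt 3 ^ 2 = 3 by rw [sq]; exact hss]
        try ring
      · simp [lam]
        field_simp
        ring
    exact d4.differentiableAt
  have hb : Bornology.IsBounded (range g) := by
    rw [isBounded_iff_forall_norm_le]
    refine ⟨CX + ‖lam‖ * CY, ?_⟩
    rintro _ ⟨z, rfl⟩
    simp only [hg]
    refine (norm_add_le _ _).trans ?_
    rw [norm_mul, Complex.norm_real, Complex.norm_real]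
    exact add_le_add (hCX _) (mul_le_mul_of_nonneg_left (hCY _) (norm_nonneg _))
  intro u v
  obtain ⟨z, rfl⟩ := inv_surj u
  obtain ⟨w, rfl⟩ := inv_surj v
  have h := hd.apply_eq_apply_of_bounded hb z w
  simp only [hg] at h
  have him := congrArg Complex.im h
  have hre := congrArg Complex.re h
  simp [lam] at him hre
  have hY' : Y (inv z) = Y (inv w) := him
  refine ⟨?_, hY'⟩
  rw [hY'] at hre
  linarith

end Pool.Agent.TH309.Tor
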