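import Pool.Agent.TH309.Tor.Mk
import Pool.Agent.TH309.Tor.Liou

/-! Non-existence of Killing fields and scaling to period one. -/

set_option autoImplicit false

open Set Filter Topology
open scoped ContDiff

namespace Pool.Agent.TH309.Tor

namespace Pack

variable (P : Pack)

noncomputable def S (u : ℝ × ℝ) : ℝ := 1 + (P.Psi u).1
noncomputable def A (u : ℝ × ℝ) : ℝ := (P.Psi u).2.1
noncomputable def B (u : ℝ × ℝ) : ℝ := (P.Psi u).2.2

theorem contDiff_Psi : ContDiff ℝ ∞ P.Psi :=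
  contDiff_iff_contDiffAt.2 fun u => (P.sol_Psi u).1

theorem contDiff_S : ContDiff ℝ ∞ P.S :=
  contDiff_const.add (contDiff_fst.comp P.contDiff_Psi)

theorem contDiff_A : ContDiff ℝ ∞ P.A :=
  contDiff_fst.comp (contDiff_snd.comp P.contDiff_Psi)

theorem contDiff_B : ContDiff ℝ ∞ P.B :=
  contDiff_snd.comp (contDiff_snd.comp P.contDiff_Psi)

theorem S_pos (u : ℝ × ℝ) : 0 < P.S u := (P.sol_Psi u).2.2

theorem pde (u : ℝ × ℝ) : PdeAt P.S P.A P.B u := (P.sol_Psi u).2.1

theorem val1 (u : ℝ × ℝ) (h1 : |u.1| < 5) (h2 : 8 < u.2) (h3 : u.2 < 12) :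
    P.Psi u = e1 (P.tL u.2) := by
  have h := abs_lt.1 h1
  unfold Psi
  have c1 : cc u.1 = u.1 := cc_of_mem (by linarith) (by linarith)
  have c2 : cc u.2 = u.2 := cc_of_mem (by linarith) (by linarith)
  have c3 : cc (-u.1 - u.2) = -u.1 - u.2 := cc_of_mem (by linarith) (by linarith)
  rw [c1, c2, c3, P.pw1 (by intro hh; linarith [hh.1]) (by intro hh; linarith [hh.1])]
  unfold ts
  rw [if_pos ⟨by linarith, by linarith⟩]

theorem val2 (u : ℝ × ℝ) (h1 : |u.2| < 5) (h2 : 8 < u.1) (h3 : u.1 < 12) :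
    P.Psi u = e2 (P.tL u.1) := by
  have h := abs_lt.1 h1
  unfold Psi
  have c1 : cc u.1 = u.1 := cc_of_mem (by linarith) (by linarith)
  have c2 : cc u.2 = u.2 := cc_of_mem (by linarith) (by linarith)
  have c3 : cc (-u.1 - u.2) = -u.1 - u.2 := cc_of_mem (by linarith) (by linarith)
  rw [c1, c2, c3, P.cyc, P.pw1 (by intro hh; linarith [hh.1]) (by intro hh; linarith [hh.1]),
    rho_e1]
  unfold ts
  rw [if_pos ⟨by linarith, by linarith⟩]

theorem tL_slope {c : ℝ} (h : ∀ y, 8 < y → y < 12 → c * deriv P.tL y = 0) : c = 0 := by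
  by_contra hc
  have hd : Differentiable ℝ P.tL := P.hL.differentiable (by simp)
  obtain ⟨z, hz, hz2⟩ := exists_deriv_eq_slope P.tL (a := 17 / 2) (b := 10) (by norm_num)
    hd.continuous.continuousOn hd.differentiableOn
  have h1 := (mul_eq_zero.1 (h z (by linarith [hz.1]) (by linarith [hz.2]))).resolve_left hc
  rw [h1, P.zL (17 / 2) (Or.inl (by norm_num)), sub_zero, eq_comm, div_eq_zero_iff] at hz2
  rcases hz2 with h2 | h2
  · exact P.nz h2
  · norm_num at h2

theorem no_killing {x y : ℝ} (h : ∀ u, fderiv ℝ P.S u (x, y) = 0) : x = 0 ∧ y = 0 := by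
  have hd : Differentiable ℝ P.S := P.contDiff_S.differentiable (by simp)
  have ht : Differentiable ℝ P.tL := P.hL.differentiable (by simp)
  constructor
  · refine P.tL_slope fun z h1 h2 => ?_
    have k1 := hasDerivAt_line (hd (z, 0)) (x, y)
    rw [h] at k1
    have k2 : (fun τ : ℝ => P.S ((z, 0) + τ • (x, y))) =ᶠ[𝓝 0] fun τ => 1 + P.tL (z + τ * x) := by
      have c1 : Continuous fun τ : ℝ => z + τ * x := by fun_prop
      have c2 : Continuous fun τ : ℝ => |τ * y| := by fun_prop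
      have n1 : ∀ᶠ τ : ℝ in 𝓝 0, 8 < z + τ * x :=
        continuousAt_const.eventually_lt c1.continuousAt (by simpa using h1)
      have n2 : ∀ᶠ τ : ℝ in 𝓝 0, z + τ * x < 12 :=
        c1.continuousAt.eventually_lt continuousAt_const (by simpa using h2)
      have n3 : ∀ᶠ τ : ℝ in 𝓝 0, |τ * y| < 5 :=
        c2.continuousAt.eventually_lt continuousAt_const (by simp)
      filter_upwards [n1, n2, n3] with τ m1 m2 m3
      unfold S
      rw [P.val2 _ (by simpa using m3) (by simpa using m1) (by simpa using m2)]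
      unfold e2
      simp
    have k3 : HasDerivAt (fun τ : ℝ => 1 + P.tL (z + τ * x)) (deriv P.tL z * x) 0 := by
      have e0 : z + (0 : ℝ) * x = z := by ring
      have m1 : HasDerivAt P.tL (deriv P.tL z) (z + (0 : ℝ) * x) := by
        rw [e0]; exact (ht z).hasDerivAt
      have m2 : HasDerivAt (fun τ : ℝ => z + τ * x) x 0 := by
        simpa using ((hasDerivAt_id (0 : ℝ)).mul_const x).const_add z
      exact (m1.comp (0 : ℝ) m2).const_add 1
    have k4 := (k3.congr_of_eventuallyEq k2).unique k1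
    linarith
  · refine P.tL_slope fun z h1 h2 => ?_
    have k1 := hasDerivAt_line (hd (0, z)) (x, y)
    rw [h] at k1
    have k2 : (fun τ : ℝ => P.S ((0, z) + τ • (x, y))) =ᶠ[𝓝 0] fun τ => 1 + P.tL (z + τ * y) := by
      have c1 : Continuous fun τ : ℝ => z + τ * y := by fun_prop
      have c2 : Continuous fun τ : ℝ => |τ * x| := by fun_prop
      have n1 : ∀ᶠ τ : ℝ in 𝓝 0, 8 < z + τ * y :=
        continuousAt_const.eventually_lt c1.continuousAt (by simpa using h1)
      have n2 : ∀ᶠ τ : ℝ in 𝓝 0, z + τ * y < 12 :=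
        c1.continuousAt.eventually_lt continuousAt_const (by simpa using h2)
      have n3 : ∀ᶠ τ : ℝ in 𝓝 0, |τ * x| < 5 :=
        c2.continuousAt.eventually_lt continuousAt_const (by simp)
      filter_upwards [n1, n2, n3] with τ m1 m2 m3
      unfold S
      rw [P.val1 _ (by simpa using m3) (by simpa using m1) (by simpa using m2)]
      unfold e1
      simp
    have k3 : HasDerivAt (fun τ : ℝ => 1 + P.tL (z + τ * y)) (deriv P.tL z * y) 0 := by
      have e0 : z + (0 : ℝ) * y = z := by ring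
      have m1 : HasDerivAt P.tL (deriv P.tL z) (z + (0 : ℝ) * y) := by
        rw [e0]; exact (ht z).hasDerivAt
      have m2 : HasDerivAt (fun τ : ℝ => z + τ * y) y 0 := by
        simpa using ((hasDerivAt_id (0 : ℝ)).mul_const y).const_add z
      exact (m1.comp (0 : ℝ) m2).const_add 1
    have k4 := (k3.congr_of_eventuallyEq k2).unique k1
    linarith

theorem Psi_zero : P.Psi (0, 0) = 0 := by
  unfold Psi
  have c0 : cc 0 = 0 := cc_of_mem (by norm_num) (by norm_num)
  simp only [neg_zero, sub_zero, c0]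
  exact P.pw0 (by norm_num) (by norm_num) (by norm_num)

end Pack

/-- scaling -/
def sc (f : ℝ × ℝ → ℝ) (x y : ℝ) : ℝ := f (60 * x, 60 * y)

theorem sc_per1 {P : Pack} {f : E3 → ℝ} (x y : ℝ) :
    sc (fun u => f (P.Psi u)) (x + 1) y = sc (fun u => f (P.Psi u)) x y := by
  unfold sc
  have h := P.Psi_periodic (60 * x, 60 * y) 1 0
  simp only [Int.cast_one, mul_one, Int.cast_zero, mul_zero, add_zero] at h
  rw [mul_add, mul_one]
  show f (P.Psi _) = f (P.Psi _)
  rw [h]

theorem sc_per2 {P : Pack} {f : E3 → ℝ} (x y : ℝ) :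
    sc (fun u => f (P.Psi u)) x (y + 1) = sc (fun u => f (P.Psi u)) x y := by
  unfold sc
  have h := P.Psi_periodic (60 * x, 60 * y) 0 1
  simp only [Int.cast_one, mul_one, Int.cast_zero, mul_zero, add_zero] at h
  rw [mul_add, mul_one]
  show f (P.Psi _) = f (P.Psi _)
  rw [h]

theorem sc_contDiff {f : ℝ × ℝ → ℝ} (hf : ContDiff ℝ ∞ f) :
    ContDiff ℝ ∞ (Function.uncurry (sc f)) := by
  have e : Function.uncurry (sc f) = fun p : ℝ × ℝ => f (60 * p.1, 60 * p.2) := by
    funext p; rfl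
  rw [e]
  exact hf.comp (by fun_prop)

theorem sc_d1 {f : ℝ × ℝ → ℝ} (hf : Differentiable ℝ f) (x y : ℝ) :
    HasDerivAt (fun t => sc f t y) (60 * fderiv ℝ f (60 * x, 60 * y) (1, 0)) x := by
  have h1 : HasDerivAt (fun t : ℝ => ((60 * t, 60 * y) : ℝ × ℝ)) (60, 0) x := by
    simpa using ((hasDerivAt_id x).const_mul (60 : ℝ)).prodMk (hasDerivAt_const x (60 * y))
  have h2 := HasFDerivAt.comp_hasDerivAt (l := f)
    (f := fun t : ℝ => ((60 * t, 60 * y) : ℝ × ℝ)) x (hf (60 * x, 60 * y)).hasFDerivAt h1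
  refine h2.congr_deriv ?_
  rw [fderiv_dir]
  simp

theorem sc_d2 {f : ℝ × ℝ → ℝ} (hf : Differentiable ℝ f) (x y : ℝ) :
    HasDerivAt (fun t => sc f x t) (60 * fderiv ℝ f (60 * x, 60 * y) (0, 1)) y := by
  have h1 : HasDerivAt (fun t : ℝ => ((60 * x, 60 * t) : ℝ × ℝ)) (0, 60) y := by
    simpa using (hasDerivAt_const y (60 * x)).prodMk ((hasDerivAt_id y).const_mul (60 : ℝ))
  have h2 := HasFDerivAt.comp_hasDerivAt (l := f)
    (f := fun t : ℝ => ((60 * x, 60 * t) : ℝ × ℝ)) y (hf (60 * x, 60 * y)).hasFDerivAt h1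
  refine h2.congr_deriv ?_
  rw [fderiv_dir]
  simp

end Pool.Agent.TH309.Tor
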