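import Pool.Agent.TH309.Tor.Fin

/-! The example in vector notation. -/

set_option autoImplicit false

open Set Filter Topology
open scoped ContDiff

namespace Pool.Agent.TH309.Tor

def V2 (f : ℝ × ℝ → ℝ) (x : Fin 2 → ℝ) : ℝ := f (60 * x 0, 60 * x 1)

theorem V2_contDiff {f : ℝ × ℝ → ℝ} (hf : ContDiff ℝ ∞ f) : ContDiff ℝ ∞ (V2 f) := by
  unfold V2
  exact hf.comp (by fun_prop)

theorem V2_deriv {f : ℝ × ℝ → ℝ} (hf : Differentiable ℝ f) (x : Fin 2 → ℝ) :
    HasFDerivAt (V2 f)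
      ((60 * fderiv ℝ f (60 * x 0, 60 * x 1) (1, 0)) • ContinuousLinearMap.proj (R := ℝ)
        (φ := fun _ : Fin 2 => ℝ) 0 +
      (60 * fderiv ℝ f (60 * x 0, 60 * x 1) (0, 1)) • ContinuousLinearMap.proj (R := ℝ)
        (φ := fun _ : Fin 2 => ℝ) 1) x := by
  have h0 : HasFDerivAt (fun y : Fin 2 → ℝ => y 0) (ContinuousLinearMap.proj (R := ℝ)
        (φ := fun _ : Fin 2 => ℝ) 0) x := hasFDerivAt_apply 0 x
  have h1 : HasFDerivAt (fun y : Fin 2 → ℝ => y 1) (ContinuousLinearMap.proj (R := ℝ)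
        (φ := fun _ : Fin 2 => ℝ) 1) x := hasFDerivAt_apply 1 x
  have h2 := (h0.const_mul 60).prodMk (h1.const_mul 60)
  have h3 := HasFDerivAt.comp (g := f) (f := fun y : Fin 2 → ℝ => ((60 * y 0, 60 * y 1) : ℝ × ℝ))
    x (hf (60 * x 0, 60 * x 1)).hasFDerivAt h2
  refine h3.congr_fderiv ?_
  ext v
  rw [ContinuousLinearMap.comp_apply, fderiv_dir]
  simp
  ring

theorem V2_per {P : Pack} {f : E3 → ℝ} (x : Fin 2 → ℝ) (v : Fin 2 → ℤ) :
    V2 (fun u => f (P.Psi u)) (x + fun k => (v k : ℝ)) = V2 (fun u => f (P.Psi u)) x := by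
  unfold V2
  have h := P.Psi_periodic (60 * x 0, 60 * x 1) (v 0) (v 1)
  simp only [Pi.add_apply, mul_add]
  show f (P.Psi _) = f (P.Psi _)
  rw [h]

theorem quad_pos {s p q : ℝ} (hs : 0 < s) (h : p ≠ 0 ∨ q ≠ 0) :
    0 < (2 * p ^ 2 + 2 * p * q + 2 * q ^ 2) / s := by
  have h1 : 0 < 2 * p ^ 2 + 2 * p * q + 2 * q ^ 2 := by
    rcases h with h | h
    · have := sq_pos_of_ne_zero h
      nlinarith [sq_nonneg (q + p / 2)]
    · have := sq_pos_of_ne_zero h
      nlinarith [sq_nonneg (p + q / 2)]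
  positivity

theorem posDef_g {s : ℝ} (hs : 0 < s) :
    (Matrix.of (fun i j : Fin 2 => (if i = j then (2 : ℝ) else 1) / s)).PosDef := by
  rw [Matrix.posDef_iff_dotProduct_mulVec]
  refine ⟨?_, ?_⟩
  · ext i j
    fin_cases i <;> fin_cases j <;> simp
  · intro x hx
    have h : x 0 ≠ 0 ∨ x 1 ≠ 0 := by
      by_contra hc
      push Not at hc
      apply hx
      ext i
      fin_cases i
      · exact hc.1
      · exact hc.2
    have h2 := quad_pos hs h
    simp [Matrix.mulVec, dotProduct, Fin.sum_univ_two]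
    have e : x 0 * (2 / s * x 0 + s⁻¹ * x 1) + x 1 * (s⁻¹ * x 0 + 2 / s * x 1) =
        (2 * x 0 ^ 2 + 2 * x 0 * x 1 + 2 * x 1 ^ 2) / s := by
      field_simp
      ring
    rw [e]
    exact h2

theorem inv_g {s : ℝ} (hs : 0 < s) :
    (Matrix.of (fun i j : Fin 2 => (if i = j then (2 : ℝ) else 1) / s))⁻¹ =
      Matrix.of (fun i j : Fin 2 => (if i = j then (2 : ℝ) else -1) * s / 3) := by
  apply Matrix.inv_eq_right_inv
  ext i j
  fin_cases i <;> fin_cases j <;> simp [Matrix.mul_apply, Fin.sum_univ_two] <;> field_simp <;>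
    norm_num

end Pool.Agent.TH309.Tor
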