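import Pool.Agent.TH309.Tor.St2

/-! The crossing map: characteristic coordinates to the plane. -/

set_option autoImplicit false

open Set Filter Topology MeasureTheory
open scoped ContDiff

namespace Pool.Agent.TH309.Tor

/-- Data of a crossing in characteristic coordinates: the slope `mu` of the first family. -/
structure Cross where
  mu : ℝ × ℝ → ℝ
  mud : ℝ × ℝ → ℝ
  hmu : ContDiff ℝ ∞ mu
  hmud : ContDiff ℝ ∞ mud
  hd : ∀ s t, HasDerivAt (fun t => mu (s, t)) (mud (s, t)) t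
  hb : ∀ p, |mu p| ≤ 1 / 10
  h0 : ∀ s t, s ≤ 0 ∨ 1 ≤ s → mu (s, t) = 0
  hbt : ∀ p, |mud p| ≤ 1 / 200
  h1 : ∀ s t, t ≤ 0 ∨ 1 ≤ t → mud (s, t) = 0

namespace Cross

variable (C : Cross)

noncomputable def D (p : ℝ × ℝ) : ℝ := 1 - C.mu p * C.mu p.swap

theorem D_ge (p : ℝ × ℝ) : 99 / 100 ≤ C.D p := by
  have h : |C.mu p * C.mu p.swap| ≤ 1 / 10 * (1 / 10) := by
    rw [abs_mul]; exact mul_le_mul (C.hb p) (C.hb _) (abs_nonneg _) (by norm_num)
  have := (abs_le.1 h).2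
  unfold D
  linarith

theorem D_pos (p : ℝ × ℝ) : 0 < C.D p := by have := C.D_ge p; linarith

theorem D_swap (p : ℝ × ℝ) : C.D p.swap = C.D p := by
  unfold D; rw [Prod.swap_swap]; ring

theorem contDiff_swap : ContDiff ℝ ∞ (Prod.swap : ℝ × ℝ → ℝ × ℝ) :=
  contDiff_snd.prodMk contDiff_fst

theorem contDiff_D : ContDiff ℝ ∞ C.D := by
  unfold D
  exact contDiff_const.sub (C.hmu.mul (C.hmu.comp contDiff_swap))

noncomputable def al (p : ℝ × ℝ) : ℝ := C.mu p.swap * C.mud p / C.D p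
noncomputable def be (p : ℝ × ℝ) : ℝ := C.mud p.swap / C.D p

theorem contDiff_al : ContDiff ℝ ∞ C.al := by
  unfold al
  exact ((C.hmu.comp contDiff_swap).mul C.hmud).div C.contDiff_D fun p => (C.D_pos p).ne'

theorem contDiff_be : ContDiff ℝ ∞ C.be := by
  unfold be
  exact (C.hmud.comp contDiff_swap).div C.contDiff_D fun p => (C.D_pos p).ne'

theorem mud_zero (s t : ℝ) (h : s ≤ 0 ∨ 1 ≤ s) : C.mud (s, t) = 0 := by
  have h1 := C.hd s t
  have h2 : HasDerivAt (fun t => C.mu (s, t)) 0 t := by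
    have e : (fun t => C.mu (s, t)) = fun _ => 0 := by funext t; exact C.h0 s t h
    rw [e]; exact hasDerivAt_const t 0
  exact h1.unique h2

theorem al_zero (s t : ℝ) (h : t ≤ 0 ∨ 1 ≤ t) : C.al (s, t) = 0 := by
  unfold al; rw [C.h1 s t h]; simp

theorem al_zero' (s t : ℝ) (h : s ≤ 0 ∨ 1 ≤ s) : C.al (s, t) = 0 := by
  unfold al; rw [C.mud_zero s t h]; simp

theorem be_zero (s t : ℝ) (h : t ≤ 0 ∨ 1 ≤ t) : C.be (s, t) = 0 := by
  unfold be
  simp only [Prod.swap_prod_mk]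
  rw [C.mud_zero t s h]; simp

theorem be_zero' (s t : ℝ) (h : s ≤ 0 ∨ 1 ≤ s) : C.be (s, t) = 0 := by
  unfold be
  simp only [Prod.swap_prod_mk]
  rw [C.h1 t s h]; simp

theorem abs_al_le (p : ℝ × ℝ) : |C.al p| ≤ 1 / 1000 := by
  unfold al
  have h := C.D_ge p
  rw [abs_div, abs_of_pos (C.D_pos p), div_le_iff₀ (C.D_pos p), abs_mul]
  have h2 : |C.mu p.swap| * |C.mud p| ≤ 1 / 10 * (1 / 200) :=
    mul_le_mul (C.hb _) (C.hbt p) (abs_nonneg _) (by norm_num)
  linarith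

theorem abs_be_le (p : ℝ × ℝ) : |C.be p| ≤ 1 / 190 := by
  unfold be
  have h := C.D_ge p
  rw [abs_div, abs_of_pos (C.D_pos p), div_le_iff₀ (C.D_pos p)]
  have h2 := C.hbt p.swap
  linarith

theorem abs_prim_al (p : ℝ × ℝ) : |prim C.al p| ≤ 1 / 1000 := by
  have h := prim_cl C.contDiff_al.continuous p.1 p.2 (fun τ hτ => C.al_zero p.1 τ hτ)
  have h2 := abs_prim_cl_le (g := C.al) (C := 1 / 1000) (by norm_num) C.abs_al_le p.1 p.2
  rw [h] at h2
  exact h2

theorem exists_X : ∃ X : ℝ × ℝ → ℝ, ContDiff ℝ ∞ X ∧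
    (∀ s t, HasDerivAt (fun t => X (s, t)) (C.al (s, t) * X (s, t) + C.be (s, t) * X (t, s)) t) ∧
    (∀ s t, t ≤ 0 → X (s, t) = 1) ∧ (∀ p, |X p - 1| ≤ 1 / 10) := by
  set a : ℝ × ℝ → ℝ := prim C.al with ha
  have haC : ContDiff ℝ ∞ a := contDiff_prim C.contDiff_al
  have haB : ∀ p, |a p| ≤ 1 / 1000 := C.abs_prim_al
  have had : ∀ s t, HasDerivAt (fun t => a (s, t)) (C.al (s, t)) t := fun s t =>
    hasDerivAt_prim_snd C.contDiff_al.continuous s t
  have ha0 : ∀ s t, t ≤ 0 → a (s, t) = 0 := fun s t ht =>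
    prim_eq_zero s ht fun τ hτ => C.al_zero s τ (Or.inl hτ)
  set b : ℝ × ℝ → ℝ := fun p => C.be p * Real.exp (a p.swap - a p) with hb
  have hbC : ContDiff ℝ ∞ b :=
    C.contDiff_be.mul (((haC.comp contDiff_swap).sub haC).exp)
  have hexp : Real.exp (1 / 500) ≤ 501 / 500 + 1 / 1000 := by
    have h := Real.abs_exp_sub_one_sub_id_le (x := 1 / 500) (by rw [abs_of_pos] <;> norm_num)
    have := (abs_le.1 h).2
    norm_num at this ⊢
    linarith
  have hbB : ∀ p, |b p| ≤ 1 / 100 := by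
    intro p
    simp only [hb]
    rw [abs_mul, abs_of_pos (Real.exp_pos _)]
    have h1 := (abs_le.1 (haB p))
    have h2 := (abs_le.1 (haB p.swap))
    have h3 : Real.exp (a p.swap - a p) ≤ Real.exp (1 / 500) :=
      Real.exp_le_exp.2 (by linarith)
    have h4 : |C.be p| * Real.exp (a p.swap - a p) ≤ 1 / 190 * (501 / 500 + 1 / 1000) :=
      mul_le_mul (C.abs_be_le p) (h3.trans hexp) (Real.exp_pos _).le (by norm_num)
    linarith
  have hb0 : ∀ s t, t ≤ 0 ∨ 1 ≤ t → b (s, t) = 0 := by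
    intro s t h
    simp only [hb]
    rw [C.be_zero s t h, zero_mul]
  obtain ⟨X, hXC, hXd, hX0, hXB⟩ := exists_goursat b hbC (1 / 100) (by norm_num) hbB hb0
  refine ⟨fun p => Real.exp (a p) * X p, haC.exp.mul hXC, ?_, ?_, ?_⟩
  · intro s t
    have h1 := (had s t).exp.mul (hXd s t)
    refine h1.congr_deriv ?_
    simp only [hb, Prod.swap_prod_mk]
    rw [Real.exp_sub]
    have := Real.exp_pos (a (s, t))
    field_simp
  · intro s t ht
    simp only
    rw [ha0 s t ht, hX0 s t ht, Real.exp_zero, one_mul]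
  · intro p
    have h1 := abs_le.1 (haB p)
    have h2 := abs_le.1 (hXB p)
    have h3 := Real.abs_exp_sub_one_le (x := a p) ((haB p).trans (by norm_num))
    have h4 := abs_le.1 (h3.trans (mul_le_mul_of_nonneg_left (haB p) (by norm_num)))
    have h5 : Real.exp (a p) * X p - 1 = (Real.exp (a p) - 1) * X p + (X p - 1) := by ring
    rw [h5]
    refine (abs_add_le _ _).trans ?_
    rw [abs_mul]
    have h6 : |X p| ≤ 2 := by rw [abs_le]; constructor <;> linarith
    have h7 : |Real.exp (a p) - 1| * |X p| ≤ (2 * (1 / 1000)) * 2 := by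
      refine mul_le_mul ?_ h6 (abs_nonneg _) (by norm_num)
      rw [abs_le]; constructor <;> linarith
    have h8 := hXB p
    linarith

end Cross

end Pool.Agent.TH309.Tor
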