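import Pool.Agent.TH309.Tor.Cr

/-! The crossing map is a diffeomorphism of the plane. -/

set_option autoImplicit false

open Set Filter Topology MeasureTheory
open scoped ContDiff

namespace Pool.Agent.TH309.Tor

namespace Cross

variable (C : Cross)

noncomputable def X : ℝ × ℝ → ℝ := Classical.choose C.exists_X

theorem contDiff_X : ContDiff ℝ ∞ C.X := (Classical.choose_spec C.exists_X).1

theorem X_deriv (s t : ℝ) :
    HasDerivAt (fun t => C.X (s, t)) (C.al (s, t) * C.X (s, t) + C.be (s, t) * C.X (t, s)) t :=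
  (Classical.choose_spec C.exists_X).2.1 s t

theorem X_one (s t : ℝ) (h : t ≤ 0) : C.X (s, t) = 1 :=
  (Classical.choose_spec C.exists_X).2.2.1 s t h

theorem abs_X_sub (p : ℝ × ℝ) : |C.X p - 1| ≤ 1 / 10 :=
  (Classical.choose_spec C.exists_X).2.2.2 p

theorem X_pos (p : ℝ × ℝ) : 0 < C.X p := by
  have := abs_le.1 (C.abs_X_sub p); linarith

/-- `w = ν Y` -/
noncomputable def w (p : ℝ × ℝ) : ℝ := C.mu p.swap * C.X p.swap

theorem contDiff_w : ContDiff ℝ ∞ C.w :=
  (C.hmu.comp contDiff_swap).mul (C.contDiff_X.comp contDiff_swap)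

theorem abs_w_le (p : ℝ × ℝ) : |C.w p| ≤ 11 / 100 := by
  unfold w
  rw [abs_mul]
  have h1 := C.hb p.swap
  have h2 := abs_le.1 (C.abs_X_sub p.swap)
  have h3 : |C.X p.swap| ≤ 11 / 10 := by rw [abs_le]; constructor <;> linarith
  calc |C.mu p.swap| * |C.X p.swap| ≤ 1 / 10 * (11 / 10) :=
        mul_le_mul h1 h3 (abs_nonneg _) (by norm_num)
    _ = 11 / 100 := by norm_num

theorem w_zero (s t : ℝ) (h : t ≤ 0 ∨ 1 ≤ t) : C.w (s, t) = 0 := by
  unfold w
  simp only [Prod.swap_prod_mk]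
  rw [C.h0 t s h, zero_mul]

noncomputable def ws (p : ℝ × ℝ) : ℝ := C.al p * C.X p + C.be p * C.X p.swap

theorem contDiff_ws : ContDiff ℝ ∞ C.ws :=
  (C.contDiff_al.mul C.contDiff_X).add (C.contDiff_be.mul (C.contDiff_X.comp contDiff_swap))

theorem w_deriv (s t : ℝ) : HasDerivAt (fun s => C.w (s, t)) (C.ws (s, t)) s := by
  have h1 := (C.hd t s).mul (C.X_deriv t s)
  refine h1.congr_deriv ?_
  unfold ws al be
  have hD := C.D_pos (s, t)
  have hD2 : C.D (t, s) = C.D (s, t) := C.D_swap (s, t)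
  simp only [Prod.swap_prod_mk]
  rw [hD2]
  have hD3 : C.mu (s, t) * C.mu (t, s) = 1 - C.D (s, t) := by
    unfold D; simp only [Prod.swap_prod_mk]; ring
  field_simp
  linear_combination (C.mud (t, s) * C.X (t, s)) * hD3

noncomputable def x (p : ℝ × ℝ) : ℝ := p.1 + prim C.w p

theorem contDiff_x : ContDiff ℝ ∞ C.x := contDiff_fst.add (contDiff_prim C.contDiff_w)

theorem prim_ws (s t : ℝ) : 1 + prim C.ws (s, t) = C.X (s, t) := by
  have h : prim C.ws (s, t) = C.X (s, t) - C.X (s, 0) := by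
    unfold prim
    refine intervalIntegral.integral_eq_sub_of_hasDerivAt (f := fun t => C.X (s, t)) ?_ ?_
    · intro τ _
      exact C.X_deriv s τ
    · exact (C.contDiff_ws.continuous.comp
        (by fun_prop : Continuous fun τ : ℝ => (s, τ))).intervalIntegrable _ _
  rw [h, C.X_one s 0 le_rfl]
  ring

theorem x_fst (s t : ℝ) : HasDerivAt (fun s => C.x (s, t)) (C.X (s, t)) s := by
  have h := (hasDerivAt_id' s).add (hasDerivAt_prim_fst C.contDiff_w.continuous
    C.contDiff_ws.continuous C.w_deriv s t)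
  exact h.congr_deriv (C.prim_ws s t)

theorem x_snd (s t : ℝ) : HasDerivAt (fun t => C.x (s, t)) (C.w (s, t)) t :=
  (hasDerivAt_prim_snd C.contDiff_w.continuous s t).const_add s

theorem x_hasFDerivAt (p : ℝ × ℝ) : HasFDerivAt C.x (lin (C.X p) (C.w p)) p :=
  (hasStrictFDerivAt_of_partials C.contDiff_X.continuous C.contDiff_w.continuous C.x_fst
    C.x_snd p).hasFDerivAt

noncomputable def Phi (p : ℝ × ℝ) : ℝ × ℝ := (C.x p, C.x p.swap)

theorem contDiff_Phi : ContDiff ℝ ∞ C.Phi :=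
  C.contDiff_x.prodMk (C.contDiff_x.comp contDiff_swap)

noncomputable def dPhi (p : ℝ × ℝ) : (ℝ × ℝ) →L[ℝ] (ℝ × ℝ) :=
  (lin (C.X p) (C.w p)).prod (lin (C.w p.swap) (C.X p.swap))

theorem Phi_hasFDerivAt (p : ℝ × ℝ) : HasFDerivAt C.Phi (C.dPhi p) p := by
  have h1 := C.x_hasFDerivAt p
  have hs : HasFDerivAt (Prod.swap : ℝ × ℝ → ℝ × ℝ)
      ((ContinuousLinearMap.snd ℝ ℝ ℝ).prod (ContinuousLinearMap.fst ℝ ℝ ℝ)) p :=
    hasFDerivAt_snd.prodMk hasFDerivAt_fst
  have h2 := (C.x_hasFDerivAt p.swap).comp p hs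
  have h3 := h1.prodMk h2
  have e : C.dPhi p = (lin (C.X p) (C.w p)).prod ((lin (C.X p.swap) (C.w p.swap)).comp
      ((ContinuousLinearMap.snd ℝ ℝ ℝ).prod (ContinuousLinearMap.fst ℝ ℝ ℝ))) := by
    unfold dPhi
    ext <;> simp
  rw [e]
  exact h3

theorem dPhi_apply (p v : ℝ × ℝ) :
    C.dPhi p v = (C.X p * v.1 + C.w p * v.2, C.w p.swap * v.1 + C.X p.swap * v.2) := by
  unfold dPhi
  simp

theorem dPhi_sub (p : ℝ × ℝ) : ‖C.dPhi p - ContinuousLinearMap.id ℝ (ℝ × ℝ)‖ ≤ 1 / 4 := by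
  refine ContinuousLinearMap.opNorm_le_bound _ (by norm_num) fun v => ?_
  rw [sub_apply, dPhi_apply, ContinuousLinearMap.id_apply]
  have hv1 : |v.1| ≤ ‖v‖ := norm_fst_le v
  have hv2 : |v.2| ≤ ‖v‖ := norm_snd_le v
  have key : ∀ a b u1 u2 : ℝ, |a| ≤ 1 / 10 → |b| ≤ 11 / 100 → |u1| ≤ ‖v‖ → |u2| ≤ ‖v‖ →
      |a * u1 + b * u2| ≤ 1 / 4 * ‖v‖ := by
    intro a b u1 u2 ha hb h1 h2
    have e1 : |a * u1| ≤ 1 / 10 * ‖v‖ := by
      rw [abs_mul]; exact mul_le_mul ha h1 (abs_nonneg _) (by norm_num)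
    have e2 : |b * u2| ≤ 11 / 100 * ‖v‖ := by
      rw [abs_mul]; exact mul_le_mul hb h2 (abs_nonneg _) (by norm_num)
    have := norm_nonneg v
    exact (abs_add_le _ _).trans (by linarith)
  rw [Prod.norm_def]
  refine max_le ?_ ?_
  · have e : (((C.X p * v.1 + C.w p * v.2, C.w p.swap * v.1 + C.X p.swap * v.2) : ℝ × ℝ) - v).1
        = (C.X p - 1) * v.1 + C.w p * v.2 := by simp; ring
    rw [e, Real.norm_eq_abs]
    exact key _ _ _ _ (C.abs_X_sub p) (C.abs_w_le p) hv1 hv2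
  · have e : (((C.X p * v.1 + C.w p * v.2, C.w p.swap * v.1 + C.X p.swap * v.2) : ℝ × ℝ) - v).2
        = (C.X p.swap - 1) * v.2 + C.w p.swap * v.1 := by simp; ring
    rw [e, Real.norm_eq_abs]
    exact key _ _ _ _ (C.abs_X_sub _) (C.abs_w_le _) hv2 hv1

theorem approx : ApproximatesLinearOn C.Phi
    ((ContinuousLinearEquiv.refl ℝ (ℝ × ℝ) : (ℝ × ℝ) ≃L[ℝ] (ℝ × ℝ)) : (ℝ × ℝ) →L[ℝ] (ℝ × ℝ))
    univ (1 / 4) := by
  intro p _ q _
  have h := Convex.norm_image_sub_le_of_norm_hasFDerivWithin_le' (𝕜 := ℝ) (f := C.Phi)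
    (f' := C.dPhi) (φ := ContinuousLinearMap.id ℝ (ℝ × ℝ)) (C := 1 / 4) (s := univ)
    (x := q) (y := p) (fun z _ => (C.Phi_hasFDerivAt z).hasFDerivWithinAt)
    (fun z _ => C.dPhi_sub z) convex_univ (mem_univ _) (mem_univ _)
  simpa using h

noncomputable def hom : (ℝ × ℝ) ≃ₜ (ℝ × ℝ) :=
  C.approx.toHomeomorph C.Phi (Or.inr (by
    have h : ‖((ContinuousLinearEquiv.refl ℝ (ℝ × ℝ)).symm : (ℝ × ℝ) →L[ℝ] (ℝ × ℝ))‖₊ = 1 := by
      have : ((ContinuousLinearEquiv.refl ℝ (ℝ × ℝ)).symm : (ℝ × ℝ) →L[ℝ] (ℝ × ℝ)) =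
          ContinuousLinearMap.id ℝ (ℝ × ℝ) := rfl
      rw [this]
      exact ContinuousLinearMap.nnnorm_id
    rw [h, inv_one, ← NNReal.coe_lt_coe]
    push_cast
    norm_num))

theorem hom_apply (p : ℝ × ℝ) : C.hom p = C.Phi p := rfl

theorem w_mul (p : ℝ × ℝ) : C.w p * C.w p.swap = (1 - C.D p) * (C.X p * C.X p.swap) := by
  unfold w D
  rw [Prod.swap_swap]
  ring

noncomputable def dEq (p : ℝ × ℝ) : (ℝ × ℝ) ≃L[ℝ] (ℝ × ℝ) :=
  ContinuousLinearEquiv.equivOfInverse (C.dPhi p)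
    ((lin (C.X p.swap / (C.D p * (C.X p * C.X p.swap))) (-C.w p / (C.D p * (C.X p * C.X p.swap)))
      ).prod (lin (-C.w p.swap / (C.D p * (C.X p * C.X p.swap)))
        (C.X p / (C.D p * (C.X p * C.X p.swap)))))
    (fun v => by
      have h1 := C.D_pos p
      have h2 := C.X_pos p
      have h3 := C.X_pos p.swap
      have h4 := C.w_mul p
      rw [dPhi_apply]
      ext
      · simp only [ContinuousLinearMap.prod_apply, lin_apply]
        field_simp
        linear_combination (-v.1) * h4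
      · simp only [ContinuousLinearMap.prod_apply, lin_apply]
        field_simp
        linear_combination (-v.2) * h4)
    (fun v => by
      have h1 := C.D_pos p
      have h2 := C.X_pos p
      have h3 := C.X_pos p.swap
      have h4 := C.w_mul p
      rw [dPhi_apply]
      ext
      · simp only [ContinuousLinearMap.prod_apply, lin_apply]
        field_simp
        linear_combination (-v.1) * h4
      · simp only [ContinuousLinearMap.prod_apply, lin_apply]
        field_simp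
        linear_combination (-v.2) * h4)

theorem contDiff_symm : ContDiff ℝ ∞ C.hom.symm := by
  refine C.hom.contDiff_symm (f₀' := C.dEq) ?_ C.contDiff_Phi
  intro p
  exact C.Phi_hasFDerivAt p

end Cross

end Pool.Agent.TH309.Tor
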