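import Pool.Agent.TH309.Tor.Cr2

/-! The crossing of two waves in the plane. -/

set_option autoImplicit false

open Set Filter Topology MeasureTheory
open scoped ContDiff

namespace Pool.Agent.TH309.Tor

namespace Cross

variable (C : Cross)

theorem Phi_swap (p : ℝ × ℝ) : C.Phi p.swap = (C.Phi p).swap := by
  unfold Phi; rw [Prod.swap_swap]; rfl

theorem symm_swap (p : ℝ × ℝ) : C.hom.symm p.swap = (C.hom.symm p).swap := by
  rw [Homeomorph.symm_apply_eq, hom_apply, Phi_swap, ← hom_apply, Homeomorph.apply_symm_apply]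

theorem Phi_symm (p : ℝ × ℝ) : C.Phi (C.hom.symm p) = p := by
  rw [← hom_apply, Homeomorph.apply_symm_apply]

theorem abs_prim_w (p : ℝ × ℝ) : |prim C.w p| ≤ 11 / 100 := by
  have h := prim_cl C.contDiff_w.continuous p.1 p.2 (fun τ hτ => C.w_zero p.1 τ hτ)
  have h2 := abs_prim_cl_le (g := C.w) (C := 11 / 100) (by norm_num) C.abs_w_le p.1 p.2
  rw [h] at h2
  exact h2

/-- the slope function in the plane -/
noncomputable def m (p : ℝ × ℝ) : ℝ := C.mu (C.hom.symm p)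

theorem contDiff_m : ContDiff ℝ ∞ C.m := C.hmu.comp C.contDiff_symm

theorem m_Phi (p : ℝ × ℝ) : C.m (C.Phi p) = C.mu p := by
  unfold m; rw [← hom_apply, Homeomorph.symm_apply_apply]

theorem fst_left (p : ℝ × ℝ) (h : p.1 ≤ -1 / 2) : (C.hom.symm p).1 ≤ 0 := by
  have h1 := C.Phi_symm p
  have h2 : C.x (C.hom.symm p) = p.1 := congrArg Prod.fst h1
  have h3 := abs_le.1 (C.abs_prim_w (C.hom.symm p))
  unfold x at h2
  linarith

theorem fst_right (p : ℝ × ℝ) (h : 3 / 2 ≤ p.1) : 1 ≤ (C.hom.symm p).1 := by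
  have h1 := C.Phi_symm p
  have h2 : C.x (C.hom.symm p) = p.1 := congrArg Prod.fst h1
  have h3 := abs_le.1 (C.abs_prim_w (C.hom.symm p))
  unfold x at h2
  linarith

theorem m_zero (p : ℝ × ℝ) (h : p.1 ≤ -1 / 2 ∨ 3 / 2 ≤ p.1) : C.m p = 0 := by
  unfold m
  refine C.h0 (C.hom.symm p).1 (C.hom.symm p).2 ?_
  rcases h with h | h
  · exact Or.inl (C.fst_left p h)
  · exact Or.inr (C.fst_right p h)

theorem snd_left (p : ℝ × ℝ) (h : p.1 ≤ -1 / 2) : (C.hom.symm p).2 = p.2 := by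
  have h1 := C.Phi_symm p
  have h2 : C.x (C.hom.symm p).swap = p.2 := congrArg Prod.snd h1
  have h3 := C.fst_left p h
  unfold x at h2
  have h4 : prim C.w (C.hom.symm p).swap = 0 :=
    prim_eq_zero (C.hom.symm p).2 h3 fun τ hτ => C.w_zero _ τ (Or.inl hτ)
  rw [h4, add_zero] at h2
  exact h2

theorem w_const (s τ : ℝ) (hs : 1 ≤ s) : C.w (s, τ) = C.w (1, τ) := by
  have h : (∫ σ in (1 : ℝ)..s, C.ws (σ, τ)) = C.w (s, τ) - C.w (1, τ) := by
    refine intervalIntegral.integral_eq_sub_of_hasDerivAt (f := fun σ => C.w (σ, τ)) ?_ ?_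
    · intro σ _
      exact C.w_deriv σ τ
    · exact (C.contDiff_ws.continuous.comp
        (by fun_prop : Continuous fun σ : ℝ => (σ, τ))).intervalIntegrable _ _
  have h2 : (∫ σ in (1 : ℝ)..s, C.ws (σ, τ)) = 0 := by
    rw [intervalIntegral.integral_congr (g := fun _ => (0 : ℝ))]
    · simp
    · intro σ hσ
      rw [uIcc_of_le hs] at hσ
      simp only [ws]
      rw [C.al_zero' σ τ (Or.inr hσ.1), C.be_zero' σ τ (Or.inr hσ.1)]
      simp
  rw [h2] at h
  linarith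

theorem Phi_right (s t : ℝ) (hs : 1 ≤ s) :
    C.Phi (s, t) = (s + prim C.w (1, t), t + prim C.w (t, 1)) := by
  unfold Phi x
  have h1 : prim C.w (s, t) = prim C.w (1, t) := by
    unfold prim
    refine intervalIntegral.integral_congr fun τ _ => ?_
    exact C.w_const s τ hs
  have h2 : prim C.w (t, s) = prim C.w (t, 1) := by
    have e1 := prim_cl C.contDiff_w.continuous t s (fun τ hτ => C.w_zero t τ hτ)
    have e : cl s = 1 := by
      unfold cl; rw [min_eq_right hs]; exact max_eq_right (by norm_num)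
    rw [e] at e1
    exact e1.symm
  simp only [Prod.swap_prod_mk]
  rw [h1, h2]

theorem right_line (p : ℝ × ℝ) (h : 3 / 2 ≤ p.1) :
    ∃ s2 : ℝ, 1 ≤ s2 ∧ C.hom.symm (2, p.2) = (s2, (C.hom.symm p).2) := by
  have hs := C.fst_right p h
  have h1 := C.Phi_symm p
  have h2 := C.Phi_right (C.hom.symm p).1 (C.hom.symm p).2 hs
  have h2' : C.Phi (C.hom.symm p) = _ := h2
  rw [h1] at h2'
  have h3 : p.1 = (C.hom.symm p).1 + prim C.w (1, (C.hom.symm p).2) := congrArg Prod.fst h2'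
  have h4 : p.2 = (C.hom.symm p).2 + prim C.w ((C.hom.symm p).2, 1) := congrArg Prod.snd h2'
  have h5 := abs_le.1 (C.abs_prim_w (1, (C.hom.symm p).2))
  have h6 : 1 ≤ (C.hom.symm p).1 + 2 - p.1 := by linarith
  refine ⟨(C.hom.symm p).1 + 2 - p.1, h6, ?_⟩
  rw [Homeomorph.symm_apply_eq, hom_apply, C.Phi_right _ _ h6]
  ext
  · simp only; linarith
  · simp only; linarith

end Cross

/-- The result of the crossing analysis. -/
theorem crossing : ∃ (m : ℝ × ℝ → ℝ) (L R : ℝ → ℝ), ContDiff ℝ ∞ m ∧ ContDiff ℝ ∞ L ∧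
    ContDiff ℝ ∞ R ∧ (∀ p : ℝ × ℝ, Good (m p, m p.swap)) ∧
    (∀ p : ℝ × ℝ, fderiv ℝ (fun p : ℝ × ℝ => Q1 (m p) (m p.swap)) p (1, m p) = 0) ∧
    (∀ p : ℝ × ℝ, p.1 ≤ -1 / 2 ∨ 3 / 2 ≤ p.1 → m p = 0) ∧
    (∀ p : ℝ × ℝ, p.1 ≤ -1 / 2 → m p.swap = L p.2) ∧
    (∀ p : ℝ × ℝ, 3 / 2 ≤ p.1 → m p.swap = R p.2) ∧ L (1 / 2) ≠ 0 := by
  obtain ⟨δ, hδ, γ, hγC, hγ0, hγs, hγM, hγG⟩ := exists_state
  -- the bump
  let f : ContDiffBump (1 / 2 : ℝ) := ⟨1 / 8, 1 / 4, by norm_num, by norm_num⟩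
  have hfC : ContDiff ℝ ∞ (f : ℝ → ℝ) := f.contDiff
  have hf0 : ∀ t : ℝ, t < 1 / 5 ∨ 4 / 5 < t → f t = 0 := by
    intro t ht
    refine f.zero_of_le_dist ?_
    show (1 / 4 : ℝ) ≤ dist t (1 / 2)
    rw [Real.dist_eq]
    rcases ht with ht | ht
    · rw [abs_of_neg (by linarith)]; linarith
    · rw [abs_of_pos (by linarith)]; linarith
  have hfd0 : ∀ t : ℝ, t ≤ 0 ∨ 1 ≤ t → deriv f t = 0 := by
    intro t ht
    have : (f : ℝ → ℝ) =ᶠ[𝓝 t] fun _ => 0 := by
      rcases ht with ht | ht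
      · filter_upwards [Iio_mem_nhds (show t < 1 / 5 by linarith)] with x hx
        exact hf0 x (Or.inl hx)
      · filter_upwards [Ioi_mem_nhds (show 4 / 5 < t by linarith)] with x hx
        exact hf0 x (Or.inr hx)
    rw [this.deriv_eq]
    simp
  have hf1 : ∀ t : ℝ, |f t| ≤ 1 := by
    intro t
    rw [abs_of_nonneg f.nonneg]
    exact f.le_one
  have hfhalf : f (1 / 2) = 1 := f.one_of_mem_closedBall (by
    simp only [Metric.mem_closedBall, dist_self]
    show (0 : ℝ) ≤ 1 / 8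
    norm_num)
  obtain ⟨K0, hK0⟩ : ∃ K, ∀ t, ‖deriv f t‖ ≤ K :=
    (hfC.continuous_deriv (by simp)).bounded_above_of_compact_support f.hasCompactSupport.deriv
  set K := max K0 1 with hK
  have hKp : 0 < K := by positivity
  have hKb : ∀ t, |deriv f t| ≤ K := fun t => (hK0 t).trans (le_max_left _ _)
  -- first component of the state map
  set γ1 : ℝ × ℝ → ℝ := fun p => (γ p).1 with hγ1
  have hγ1C : ContDiffOn ℝ ∞ γ1 (Metric.ball 0 δ) := contDiff_fst.comp_contDiffOn hγC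
  have hγ1A : ∀ p ∈ Metric.ball (0 : ℝ × ℝ) δ, ContDiffAt ℝ ∞ γ1 p := fun p hp =>
    hγ1C.contDiffAt (Metric.isOpen_ball.mem_nhds hp)
  have h0b : (0 : ℝ × ℝ) ∈ Metric.ball (0 : ℝ × ℝ) δ := Metric.mem_ball_self hδ
  have hfdc : ContinuousAt (fun p => ‖fderiv ℝ γ1 p‖) 0 :=
    (((hγ1A 0 h0b).fderiv_right (m := 0) (by norm_num)).continuousAt).norm
  set B := ‖fderiv ℝ γ1 0‖ + 1 with hB
  have hBp : 0 < B := by positivity
  have hev : ∀ᶠ p in 𝓝 (0 : ℝ × ℝ), ‖fderiv ℝ γ1 p‖ < B :=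
    hfdc.eventually_lt continuousAt_const (by simp [hB])
  rw [Metric.eventually_nhds_iff_ball] at hev
  obtain ⟨δ1, hδ1, hδ1b⟩ := hev
  set ε := min (min (δ / 2) (δ1 / 2)) (1 / (200 * B * K)) with hε
  have hεp : 0 < ε := by positivity
  have hε1 : ε < δ := by
    have : ε ≤ δ / 2 := (min_le_left _ _).trans (min_le_left _ _)
    linarith
  have hε2 : ε < δ1 := by
    have : ε ≤ δ1 / 2 := (min_le_left _ _).trans (min_le_right _ _)
    linarith
  have hε3 : ε * (B * K) ≤ 1 / 200 := by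
    have : ε ≤ 1 / (200 * B * K) := min_le_right _ _
    calc ε * (B * K) ≤ 1 / (200 * B * K) * (B * K) :=
          mul_le_mul_of_nonneg_right this (by positivity)
      _ = 1 / 200 := by field_simp
  set ρ : ℝ → ℝ := fun t => ε * f t with hρ
  have hρC : ContDiff ℝ ∞ ρ := contDiff_const.mul hfC
  have hρb : ∀ t, |ρ t| ≤ ε := by
    intro t
    simp only [hρ]
    rw [abs_mul, abs_of_pos hεp]
    calc ε * |f t| ≤ ε * 1 := mul_le_mul_of_nonneg_left (hf1 t) hεp.le
      _ = ε := mul_one _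
  have hρδ : ∀ t, |ρ t| < δ := fun t => (hρb t).trans_lt hε1
  have hρd : ∀ t, HasDerivAt ρ (ε * deriv f t) t := fun t =>
    ((hfC.differentiable (by simp) t).hasDerivAt).const_mul ε
  have hρ0 : ∀ t, t ≤ 0 ∨ 1 ≤ t → ρ t = 0 := by
    intro t ht
    simp only [hρ]
    rw [hf0 t (by rcases ht with h | h; exact Or.inl (by linarith); exact Or.inr (by linarith)),
      mul_zero]
  set ι : ℝ × ℝ → ℝ × ℝ := fun p => (ρ p.1, ρ p.2) with hι
  have hιC : ContDiff ℝ ∞ ι := (hρC.comp contDiff_fst).prodMk (hρC.comp contDiff_snd)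
  have hball : ∀ (r : ℝ) (p : ℝ × ℝ), ε < r → ι p ∈ Metric.ball (0 : ℝ × ℝ) r := by
    intro r p hr
    rw [Metric.mem_ball, Prod.dist_eq, Real.dist_eq, Real.dist_eq]
    simp only [Prod.fst_zero, Prod.snd_zero, sub_zero, hι]
    exact max_lt ((hρb _).trans_lt hr) ((hρb _).trans_lt hr)
  set mu : ℝ × ℝ → ℝ := fun p => γ1 (ι p) with hmu
  have hmuC : ContDiff ℝ ∞ mu := by
    rw [contDiff_iff_contDiffAt]
    intro p
    exact ContDiffAt.comp (g := γ1) (f := ι) p (hγ1A _ (hball δ p hε1)) hιC.contDiffAt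
  have hγ0' : ∀ b, |b| < δ → γ (0, b) = (0, b) := by
    intro b hb
    rw [hγs b 0 hb (by simpa using hδ), hγ0 b hb]
    rfl
  have hder : ∀ s t, HasDerivAt (fun t => mu (s, t))
      (fderiv ℝ γ1 (ι (s, t)) (0, ε * deriv f t)) t := by
    intro s t
    have h1 : HasFDerivAt γ1 (fderiv ℝ γ1 (ι (s, t))) (ι (s, t)) :=
      ((hγ1A _ (hball δ (s, t) hε1)).differentiableAt (by simp)).hasFDerivAt
    have h2 : HasDerivAt (fun t => ι (s, t)) ((0 : ℝ), ε * deriv f t) t :=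
      (hasDerivAt_const t (ρ s)).prodMk (hρd t)
    exact HasFDerivAt.comp_hasDerivAt (l := γ1) (f := fun t => ι (s, t)) t h1 h2
  set mud : ℝ × ℝ → ℝ := fun p => fderiv ℝ mu p (0, 1) with hmud
  have hmudC : ContDiff ℝ ∞ mud :=
    (hmuC.fderiv_right (m := ∞) (by norm_num)).clm_apply contDiff_const
  have hmudd : ∀ s t, HasDerivAt (fun t => mu (s, t)) (mud (s, t)) t := by
    intro s t
    have h3 : HasFDerivAt mu (fderiv ℝ mu (s, t)) (s, t) :=
      (hmuC.differentiable (by simp) (s, t)).hasFDerivAt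
    have h4 : HasDerivAt (fun t : ℝ => (s, t)) ((0 : ℝ), (1 : ℝ)) t :=
      (hasDerivAt_const t s).prodMk (hasDerivAt_id t)
    exact HasFDerivAt.comp_hasDerivAt (l := mu) (f := fun t : ℝ => (s, t)) t h3 h4
  have hmudeq : ∀ s t, mud (s, t) = fderiv ℝ γ1 (ι (s, t)) (0, ε * deriv f t) := fun s t =>
    (hmudd s t).unique (hder s t)
  have hgood : ∀ p : ℝ × ℝ, Good (γ (ι p)) := fun p => hγG _ _ (hρδ _) (hρδ _)
  let C : Cross :=
    { mu := mu
      mud := mud
      hmu := hmuC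
      hmud := hmudC
      hd := hmudd
      hb := fun p => (hgood p).1.le
      h0 := by
        intro s t h
        show (γ (ρ s, ρ t)).1 = 0
        rw [hρ0 s h, hγ0' (ρ t) (hρδ t)]
      hbt := by
        intro p
        have e := hmudeq p.1 p.2
        rw [show ((p.1, p.2) : ℝ × ℝ) = p from rfl] at e
        rw [e]
        have h1 := (fderiv ℝ γ1 (ι p)).le_opNorm (0, ε * deriv f p.2)
        have h2 := (hδ1b _ (hball δ1 p hε2)).le
        have h3 : ‖((0 : ℝ), ε * deriv f p.2)‖ ≤ ε * K := by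
          rw [Prod.norm_def]
          refine max_le ?_ ?_
          · simp only [norm_zero]; positivity
          · simp only [Real.norm_eq_abs]
            rw [abs_mul, abs_of_pos hεp]
            exact mul_le_mul_of_nonneg_left (hKb _) hεp.le
        rw [Real.norm_eq_abs] at h1
        refine h1.trans ((mul_le_mul h2 h3 (norm_nonneg _) hBp.le).trans ?_)
        calc B * (ε * K) = ε * (B * K) := by ring
          _ ≤ 1 / 200 := hε3
      h1 := by
        intro s t h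
        rw [hmudeq, hfd0 t h, mul_zero]
        exact map_zero _ }
  have hCmu : ∀ s t, C.mu (s, t) = (γ (ρ s, ρ t)).1 := fun s t => rfl
  have hCmus : ∀ s t, C.mu (t, s) = (γ (ρ s, ρ t)).2 := by
    intro s t
    rw [hCmu, hγs _ _ (hρδ s) (hρδ t)]
    rfl
  have hpair : ∀ p : ℝ × ℝ, (C.m p, C.m p.swap) = γ (ι (C.hom.symm p)) := by
    intro p
    unfold Cross.m
    rw [C.symm_swap]
    have h1 := hCmu (C.hom.symm p).1 (C.hom.symm p).2
    have h2 := hCmus (C.hom.symm p).1 (C.hom.symm p).2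
    ext
    · exact h1
    · exact h2
  have hgood' : ∀ p : ℝ × ℝ, Good (C.m p, C.m p.swap) := by
    intro p; rw [hpair p]; exact hgood _
  have hsw : ∀ p, C.m (Prod.swap p) = C.mu (C.hom.symm p).swap := by
    intro p; unfold Cross.m; rw [C.symm_swap]
  refine ⟨C.m, ρ, fun y => C.m (y, 2), C.contDiff_m, hρC, ?_, hgood', ?_, C.m_zero, ?_, ?_, ?_⟩
  · exact C.contDiff_m.comp (contDiff_id.prodMk contDiff_const)
  · intro p
    set h : ℝ × ℝ → ℝ := fun p => Q1 (C.m p) (C.m p.swap) with hh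
    have hdiff : DifferentiableAt ℝ h p := by
      have e1 : ContDiffAt ℝ ∞ (fun q : ℝ × ℝ => Q1 q.1 q.2) (C.m p, C.m p.swap) :=
        contDiffAt_Q1 (hgood' p).one_sub.ne' (hgood' p).2.2.2.2
      have e2 : ContDiff ℝ ∞ (fun p : ℝ × ℝ => (C.m p, C.m p.swap)) :=
        C.contDiff_m.prodMk (C.contDiff_m.comp Cross.contDiff_swap)
      have e3 : ContDiffAt ℝ ∞ h p :=
        ContDiffAt.comp (g := fun q : ℝ × ℝ => Q1 q.1 q.2)
          (f := fun p : ℝ × ℝ => (C.m p, C.m p.swap)) p e1 e2.contDiffAt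
      exact e3.differentiableAt (by simp)
    have hhP : ∀ q : ℝ × ℝ, h (C.Phi q) = qq (ρ q.2) := by
      intro q
      have e1 := hpair (C.Phi q)
      have e2 : C.hom.symm (C.Phi q) = q := by
        rw [← C.hom_apply, Homeomorph.symm_apply_apply]
      rw [e2] at e1
      have e3 := hγM (ρ q.1) (ρ q.2) (hρδ _) (hρδ _)
      have e4 : mM (C.m (C.Phi q), C.m (C.Phi q).swap) = (qq (ρ q.2), qq (ρ q.1)) := by
        rw [e1]; exact e3
      exact congrArg Prod.fst e4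
    set q := C.hom.symm p with hq
    have hqp : C.Phi q = p := C.Phi_symm p
    have h1 : HasDerivAt (fun s => C.Phi (s, q.2)) (C.dPhi q (1, 0)) q.1 := by
      have e1 : HasFDerivAt C.Phi (C.dPhi q) (q.1, q.2) := C.Phi_hasFDerivAt q
      have e2 : HasDerivAt (fun s : ℝ => (s, q.2)) ((1 : ℝ), (0 : ℝ)) q.1 :=
        (hasDerivAt_id q.1).prodMk (hasDerivAt_const q.1 q.2)
      exact HasFDerivAt.comp_hasDerivAt (l := C.Phi) (f := fun s : ℝ => (s, q.2)) q.1 e1 e2
    have h2 : HasDerivAt (fun s => h (C.Phi (s, q.2))) (fderiv ℝ h p (C.dPhi q (1, 0))) q.1 := by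
      have e1 : HasFDerivAt h (fderiv ℝ h p) (C.Phi (q.1, q.2)) := by
        rw [show ((q.1, q.2) : ℝ × ℝ) = q from rfl, hqp]
        exact hdiff.hasFDerivAt
      exact HasFDerivAt.comp_hasDerivAt (l := h) (f := fun s : ℝ => C.Phi (s, q.2)) q.1 e1 h1
    have h3 : HasDerivAt (fun s => h (C.Phi (s, q.2))) 0 q.1 := by
      have e1 : (fun s => h (C.Phi (s, q.2))) = fun _ => qq (ρ q.2) := by
        funext s; exact hhP (s, q.2)
      rw [e1]
      exact hasDerivAt_const _ _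
    have h4 := h2.unique h3
    have h5 : C.dPhi q (1, 0) = C.X q • ((1 : ℝ), C.m p) := by
      rw [C.dPhi_apply]
      have e1 : C.m p = C.mu q := rfl
      rw [e1]
      unfold Cross.w
      rw [Prod.swap_swap]
      ext
      · simp
      · simp [mul_comm]
    rw [h5, map_smul, smul_eq_mul] at h4
    exact (mul_eq_zero.1 h4).resolve_left (C.X_pos q).ne'
  · intro p hp
    have h1 := C.fst_left p hp
    have h2 := C.snd_left p hp
    rw [hsw p]
    have h3 : C.mu (C.hom.symm p).swap = (γ (ρ (C.hom.symm p).1, ρ (C.hom.symm p).2)).2 :=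
      hCmus _ _
    rw [h3, hρ0 _ (Or.inl h1), hγ0' _ (hρδ _), h2]
  · intro p hp
    have h1 := C.fst_right p hp
    obtain ⟨s2, hs2, h2⟩ := C.right_line p hp
    rw [hsw p]
    have h3 : C.mu (C.hom.symm p).swap = (γ (ρ (C.hom.symm p).1, ρ (C.hom.symm p).2)).2 :=
      hCmus _ _
    have h4 : C.m (p.2, 2) = C.mu (C.hom.symm (2, p.2)).swap := hsw (2, p.2)
    show _ = C.m (p.2, 2)
    rw [h4, h2, h3, hρ0 _ (Or.inr h1), hγ0' _ (hρδ _)]
    have h5 : C.mu ((s2, (C.hom.symm p).2) : ℝ × ℝ).swap =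
        (γ (ρ s2, ρ (C.hom.symm p).2)).2 := hCmus _ _
    rw [h5, hρ0 _ (Or.inr hs2), hγ0' _ (hρδ _)]
  · show ε * f (1 / 2) ≠ 0
    rw [hfhalf, mul_one]
    exact hεp.ne'

end Pool.Agent.TH309.Tor
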