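import Pool.Agent.TH309.Tor.Pde2

/-! Gluing on the hexagonal torus. -/

set_option autoImplicit false

open Set Filter Topology
open scoped ContDiff

namespace Pool.Agent.TH309.Tor

abbrev E3 := ℝ × ℝ × ℝ

/-- rotation by 120 degrees acting on the coefficients `(σ - 1, A, B)` -/
def rho (w : E3) : E3 := (w.1, w.2.2, -w.2.1 - w.2.2)

theorem rho3 (w : E3) : rho (rho (rho w)) = w := by
  unfold rho; ext <;> simp <;> ring

theorem rho_add (w w' : E3) : rho (w + w') = rho w + rho w' := by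
  unfold rho; ext <;> simp; ring

theorem rho_sub (w w' : E3) : rho (w - w') = rho w - rho w' := by
  unfold rho; ext <;> simp; ring

theorem rho_zero : rho 0 = 0 := by unfold rho; ext <;> simp

def e1 (t : ℝ) : E3 := (t, -t, 0)
def e2 (t : ℝ) : E3 := (t, 0, t)
def e3 (t : ℝ) : E3 := (t, t, -t)

theorem rho_e1 (t : ℝ) : rho (e1 t) = e2 t := by unfold rho e1 e2; ext <;> simp
theorem rho_e2 (t : ℝ) : rho (e2 t) = e3 t := by unfold rho e2 e3; ext <;> simp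
theorem rho_e3 (t : ℝ) : rho (e3 t) = e1 t := by unfold rho e3 e1; ext <;> simp

theorem e1_zero : e1 0 = 0 := by unfold e1; ext <;> simp
theorem e2_zero : e2 0 = 0 := by unfold e2; ext <;> simp
theorem e3_zero : e3 0 = 0 := by unfold e3; ext <;> simp

/-- solution of the equations at a point -/
def Sol (Ψ : ℝ × ℝ → E3) (u : ℝ × ℝ) : Prop :=
  ContDiffAt ℝ ∞ Ψ u ∧
  PdeAt (fun p => 1 + (Ψ p).1) (fun p => (Ψ p).2.1) (fun p => (Ψ p).2.2) u ∧ 0 < 1 + (Ψ u).1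

theorem Sol.congr {Ψ Ψ' : ℝ × ℝ → E3} {u : ℝ × ℝ} (h : Sol Ψ' u) (he : Ψ =ᶠ[𝓝 u] Ψ') :
    Sol Ψ u := by
  obtain ⟨h1, h2, h3⟩ := h
  refine ⟨h1.congr_of_eventuallyEq he, ?_, ?_⟩
  · unfold PdeAt at *
    have k1 : (fun p => 1 + (Ψ p).1) =ᶠ[𝓝 u] fun p => 1 + (Ψ' p).1 := by
      filter_upwards [he] with p hp; rw [hp]
    have k2 : (fun p => (Ψ p).2.1) =ᶠ[𝓝 u] fun p => (Ψ' p).2.1 := by
      filter_upwards [he] with p hp; rw [hp]
    have k3 : (fun p => (Ψ p).2.2) =ᶠ[𝓝 u] fun p => (Ψ' p).2.2 := by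
      filter_upwards [he] with p hp; rw [hp]
    rw [k1.fderiv_eq, k2.fderiv_eq, k3.fderiv_eq]
    simp only
    rw [he.eq_of_nhds]
    exact h2
  · rw [he.eq_of_nhds]; exact h3

theorem sol_zero (u : ℝ × ℝ) : Sol (fun _ => 0) u := by
  refine ⟨contDiffAt_const, ?_, by simp⟩
  unfold PdeAt Pde
  simp

theorem Pde.rot {σ A B σ1 σ2 A1 A2 B1 B2 : ℝ} (h : Pde σ A B σ1 σ2 A1 A2 B1 B2) :
    Pde σ B (-A - B) (-σ1 + σ2) (-σ1) (-B1 + B2) (-B1) (A1 - A2 + B1 - B2) (A1 + B1) := by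
  obtain ⟨h1, h2, h3⟩ := h
  refine ⟨?_, ?_, ?_⟩
  · linear_combination h2
  · linear_combination h1 + h2 + h3
  · linear_combination (-2) * h2 - h3

/-- the inverse rotation -/
def rinv (u : ℝ × ℝ) : ℝ × ℝ := (-u.1 - u.2, u.1)

theorem contDiff_rinv : ContDiff ℝ ∞ rinv := by unfold rinv; fun_prop

theorem fderiv_rinv {f : ℝ × ℝ → ℝ} {u : ℝ × ℝ} (hf : DifferentiableAt ℝ f (rinv u)) :
    fderiv ℝ (fun p => f (rinv p)) u (1, 0) =
      -fderiv ℝ f (rinv u) (1, 0) + fderiv ℝ f (rinv u) (0, 1) ∧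
    fderiv ℝ (fun p => f (rinv p)) u (0, 1) = -fderiv ℝ f (rinv u) (1, 0) := by
  have h1 : HasFDerivAt rinv
      ((-(ContinuousLinearMap.fst ℝ ℝ ℝ) - ContinuousLinearMap.snd ℝ ℝ ℝ).prod
        (ContinuousLinearMap.fst ℝ ℝ ℝ)) u := by
    unfold rinv
    exact (hasFDerivAt_fst.neg.sub hasFDerivAt_snd).prodMk hasFDerivAt_fst
  have h2 := hf.hasFDerivAt.comp u h1
  have h3 : fderiv ℝ (fun p => f (rinv p)) u = _ := h2.fderiv
  rw [h3]
  constructor
  · simp only [ContinuousLinearMap.comp_apply]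
    rw [fderiv_dir f]
    simp
  · simp only [ContinuousLinearMap.comp_apply]
    rw [fderiv_dir f]
    simp

theorem Sol.rot {Ψ : ℝ × ℝ → E3} {u : ℝ × ℝ} (h : Sol Ψ (rinv u)) :
    Sol (fun p => rho (Ψ (rinv p))) u := by
  obtain ⟨h1, h2, h3⟩ := h
  have hd : DifferentiableAt ℝ Ψ (rinv u) := h1.differentiableAt (by simp)
  have d1 : DifferentiableAt ℝ (fun p => 1 + (Ψ p).1) (rinv u) := by fun_prop
  have d2 : DifferentiableAt ℝ (fun p => (Ψ p).2.1) (rinv u) := by fun_prop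
  have d3 : DifferentiableAt ℝ (fun p => (Ψ p).2.2) (rinv u) := by fun_prop
  have dr : DifferentiableAt ℝ rinv u := contDiff_rinv.differentiable (by simp) u
  refine ⟨?_, ?_, h3⟩
  · have hr : ContDiff ℝ ∞ rho := by unfold rho; fun_prop
    exact hr.contDiffAt.comp u (ContDiffAt.comp (g := Ψ) (f := rinv) u h1 contDiff_rinv.contDiffAt)
  · have k := h2.rot
    unfold PdeAt
    have a1 := fderiv_rinv d1
    have a2 := fderiv_rinv d2
    have a3 := fderiv_rinv d3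
    have b3 : ∀ v, fderiv ℝ (fun p => (rho (Ψ (rinv p))).2.2) u v =
        -fderiv ℝ (fun p => (Ψ (rinv p)).2.1) u v - fderiv ℝ (fun p => (Ψ (rinv p)).2.2) u v := by
      intro v
      have c2 : DifferentiableAt ℝ (fun p => (Ψ (rinv p)).2.1) u :=
        DifferentiableAt.comp (g := fun p => (Ψ p).2.1) (f := rinv) u d2 dr
      have c3 : DifferentiableAt ℝ (fun p => (Ψ (rinv p)).2.2) u :=
        DifferentiableAt.comp (g := fun p => (Ψ p).2.2) (f := rinv) u d3 dr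
      have e : (fun p => (rho (Ψ (rinv p))).2.2) =
          fun p => -(Ψ (rinv p)).2.1 - (Ψ (rinv p)).2.2 := rfl
      rw [e, fderiv_fun_sub c2.fun_neg c3, fderiv_fun_neg]
      rfl
    rw [b3, b3]
    have e1 : (fun p => 1 + (rho (Ψ (rinv p))).1) = fun p => 1 + (Ψ (rinv p)).1 := rfl
    have e2 : (fun p => (rho (Ψ (rinv p))).2.1) = fun p => (Ψ (rinv p)).2.2 := rfl
    rw [e1, e2, a1.1, a1.2, a2.1, a2.2, a3.1, a3.2]
    convert k using 1 <;> first | rfl | ring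

theorem fderiv_shift (f : ℝ × ℝ → ℝ) (u a : ℝ × ℝ) :
    fderiv ℝ (fun p => f (p - a)) u = fderiv ℝ f (u - a) := fderiv_comp_sub a

theorem Sol.shift {Ψ : ℝ × ℝ → E3} {u a : ℝ × ℝ} (h : Sol Ψ (u - a)) :
    Sol (fun p => Ψ (p - a)) u := by
  obtain ⟨h1, h2, h3⟩ := h
  refine ⟨?_, ?_, h3⟩
  · exact ContDiffAt.comp (g := Ψ) (f := fun p => p - a) u h1 (contDiffAt_id.sub contDiffAt_const)
  · unfold PdeAt at *
    rw [fderiv_shift (fun p => 1 + (Ψ p).1), fderiv_shift (fun p => (Ψ p).2.1),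
      fderiv_shift (fun p => (Ψ p).2.2)]
    exact h2

/-- simple waves in the first direction -/
theorem sol_e1 {t : ℝ → ℝ} (ht : ContDiff ℝ ∞ t) (u : ℝ × ℝ) (hp : 0 < 1 + t u.2) :
    Sol (fun p => e1 (t p.2)) u := by
  have h2 : HasFDerivAt (fun p : ℝ × ℝ => t p.2)
      (deriv t u.2 • ContinuousLinearMap.snd ℝ ℝ ℝ) u := by
    have h1 : HasDerivAt t (deriv t u.2) u.2 := (ht.differentiable (by simp) u.2).hasDerivAt
    exact h1.comp_hasFDerivAt u hasFDerivAt_snd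
  refine ⟨?_, ?_, hp⟩
  · have h3 : ContDiff ℝ ∞ e1 := by unfold e1; fun_prop
    exact (h3.comp (ht.comp contDiff_snd)).contDiffAt
  · unfold PdeAt
    have k1 : fderiv ℝ (fun p : ℝ × ℝ => 1 + (e1 (t p.2)).1) u =
        deriv t u.2 • ContinuousLinearMap.snd ℝ ℝ ℝ := (h2.const_add 1).fderiv
    have k2 : fderiv ℝ (fun p : ℝ × ℝ => (e1 (t p.2)).2.1) u =
        -(deriv t u.2 • ContinuousLinearMap.snd ℝ ℝ ℝ) := h2.neg.fderiv
    have k3 : fderiv ℝ (fun p : ℝ × ℝ => (e1 (t p.2)).2.2) u = 0 := by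
      have : (fun p : ℝ × ℝ => (e1 (t p.2)).2.2) = fun _ => 0 := rfl
      rw [this]; simp
    rw [k1, k2, k3]
    unfold Pde e1
    simp
    ring

end Pool.Agent.TH309.Tor
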