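import Pool.Agent.TH309.Tor.Glue

/-! The periodic arrangement of waves. -/

set_option autoImplicit false

open Set Filter Topology
open scoped ContDiff

namespace Pool.Agent.TH309.Tor

/-- representative modulo 60 in `[-30, 30)` -/
noncomputable def cc (x : ℝ) : ℝ := x - 60 * (⌊(x + 30) / 60⌋ : ℝ)

theorem cc_lower (x : ℝ) : -30 ≤ cc x := by
  unfold cc
  have := Int.floor_le ((x + 30) / 60)
  linarith

theorem cc_upper (x : ℝ) : cc x < 30 := by
  unfold cc
  have := Int.lt_floor_add_one ((x + 30) / 60)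
  linarith

theorem cc_add (x : ℝ) (k : ℤ) : cc (x + 60 * k) = cc x := by
  unfold cc
  have e : (x + 60 * (k : ℝ) + 30) / 60 = (x + 30) / 60 + k := by ring
  rw [e, Int.floor_add_intCast]
  push_cast
  ring

theorem cc_of_mem {y : ℝ} (h1 : -30 ≤ y) (h2 : y < 30) : cc y = y := by
  unfold cc
  have e : ⌊(y + 30) / 60⌋ = 0 := by
    rw [Int.floor_eq_iff]
    push_cast
    constructor <;> linarith
  rw [e]
  push_cast
  ring

theorem cc_near (x h : ℝ) (h1 : -30 ≤ cc x + h) (h2 : cc x + h < 30) : cc (x + h) = cc x + h := by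
  have e : x + h = (cc x + h) + 60 * (⌊(x + 30) / 60⌋ : ℤ) := by unfold cc; ring
  rw [e, cc_add, cc_of_mem h1 h2]

theorem cc_near' (x y : ℝ) (h1 : -30 ≤ cc x + (y - x)) (h2 : cc x + (y - x) < 30) :
    cc y = cc x + (y - x) := by
  have := cc_near x (y - x) h1 h2
  rwa [add_sub_cancel] at this

theorem cc_sum (a b : ℝ) : ∃ j : ℤ, cc a + cc b + cc (-b - a) = 60 * j := by
  refine ⟨-⌊(a + 30) / 60⌋ - ⌊(b + 30) / 60⌋ - ⌊(-b - a + 30) / 60⌋, ?_⟩
  unfold cc
  push_cast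
  ring

/-- Local ingredients: a crossing solution with straight incoming and outgoing waves. -/
structure Pack where
  K : ℝ × ℝ → E3
  tL : ℝ → ℝ
  tR : ℝ → ℝ
  hL : ContDiff ℝ ∞ tL
  hR : ContDiff ℝ ∞ tR
  pL : ∀ y, 0 < 1 + tL y
  pR : ∀ y, 0 < 1 + tR y
  zL : ∀ y, y ≤ 9 ∨ 11 ≤ y → tL y = 0
  zR : ∀ y, y ≤ 9 ∨ 11 ≤ y → tR y = 0
  sol : ∀ u, Sol K u
  k1 : ∀ u : ℝ × ℝ, u.1 ≤ 9 → K u = e1 (tL u.2)
  k2 : ∀ u : ℝ × ℝ, 11 ≤ u.1 → K u = e1 (tR u.2)
  k3 : ∀ u : ℝ × ℝ, u.2 ≤ 9 → K u = e2 (tL u.1)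
  k4 : ∀ u : ℝ × ℝ, 11 ≤ u.2 → K u = e2 (tR u.1)
  nz : tL 10 ≠ 0

namespace Pack

variable (P : Pack)

noncomputable def Th (a b : ℝ) : E3 :=
  P.K (b, a) - e1 (if b < 10 then P.tL a else P.tR a) - e2 (if a < 10 then P.tL b else P.tR b)

theorem Th_zero_right (a b : ℝ) (h : ¬ (9 < b ∧ b < 11)) : P.Th a b = 0 := by
  unfold Th
  rcases le_or_gt b 9 with hb | hb
  · rw [P.k1 (b, a) hb, if_pos (by linarith), P.zL b (Or.inl hb), P.zR b (Or.inl hb), ite_self,
      e2_zero]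
    simp
  · have hb' : 11 ≤ b := by
      by_contra hc
      exact h ⟨hb, not_le.1 hc⟩
    rw [P.k2 (b, a) hb', if_neg (by linarith), P.zL b (Or.inr hb'), P.zR b (Or.inr hb'), ite_self,
      e2_zero]
    simp

theorem Th_zero_left (a b : ℝ) (h : ¬ (9 < a ∧ a < 11)) : P.Th a b = 0 := by
  unfold Th
  rcases le_or_gt a 9 with hb | hb
  · rw [P.k3 (b, a) hb, if_pos (show a < 10 by linarith), P.zL a (Or.inl hb), P.zR a (Or.inl hb),
      ite_self, e1_zero]
    simp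
  · have hb' : 11 ≤ a := by
      by_contra hc
      exact h ⟨hb, not_le.1 hc⟩
    rw [P.k4 (b, a) hb', if_neg (show ¬ a < 10 by linarith), P.zL a (Or.inr hb'),
      P.zR a (Or.inr hb'), ite_self, e1_zero]
    simp

noncomputable def ts (a b c : ℝ) : ℝ := if b < 10 ∧ c < 10 then P.tL a else P.tR a

theorem ts_zero (a b c : ℝ) (h : ¬ (9 < a ∧ a < 11)) : P.ts a b c = 0 := by
  unfold ts
  have h' : a ≤ 9 ∨ 11 ≤ a := by
    rcases le_or_gt a 9 with hb | hb
    · exact Or.inl hb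
    · right
      by_contra hc
      exact h ⟨hb, not_le.1 hc⟩
  rw [P.zL a h', P.zR a h', ite_self]

noncomputable def Psi3 (a b c : ℝ) : E3 :=
  e1 (P.ts a b c) + e2 (P.ts b c a) + e3 (P.ts c a b) + P.Th a b + rho (P.Th b c) +
    rho (rho (P.Th c a))

theorem cyc (a b c : ℝ) : P.Psi3 a b c = rho (P.Psi3 b c a) := by
  unfold Psi3
  simp only [rho_add, rho_e1, rho_e2, rho_e3, rho3]
  abel

theorem pw12 {a b c : ℝ} (ha1 : 8 < a) (ha2 : a < 12) (hb1 : 8 < b) (hb2 : b < 12)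
    (hc1 : -30 ≤ c) (hc2 : c < 30) (j : ℤ) (hj : a + b + c = 60 * j) :
    P.Psi3 a b c = P.K (b, a) := by
  have hj0 : j = 0 := by
    have h1 : (j : ℝ) < 1 := by linarith
    have h2 : (-1 : ℝ) < j := by linarith
    have h1' : j < 1 := by exact_mod_cast h1
    have h2' : -1 < j := by exact_mod_cast h2
    omega
  rw [hj0] at hj
  push_cast at hj
  have hc : c < 8 := by linarith
  unfold Psi3
  rw [P.Th_zero_right b c (by intro h; linarith [h.1]),
    P.Th_zero_left c a (by intro h; linarith [h.1]), P.ts_zero c a b (by intro h; linarith [h.1]),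
    rho_zero, rho_zero, e3_zero]
  unfold ts Th
  have e1' : (b < 10 ∧ c < 10) = (b < 10) := by
    simp only [eq_iff_iff, and_iff_left_iff_imp]; intro _; linarith
  have e2' : (c < 10 ∧ a < 10) = (a < 10) := by
    simp only [eq_iff_iff, and_iff_right_iff_imp]; intro _; linarith
  simp only [e1', e2']
  abel

theorem pw1 {a b c : ℝ} (hb : ¬ (9 < b ∧ b < 11)) (hc : ¬ (9 < c ∧ c < 11)) :
    P.Psi3 a b c = e1 (P.ts a b c) := by
  unfold Psi3
  rw [P.Th_zero_right a b hb, P.Th_zero_left b c hb, P.Th_zero_left c a hc, P.ts_zero b c a hb,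
    P.ts_zero c a b hc, rho_zero, rho_zero, e2_zero, e3_zero]
  simp

theorem pw0 {a b c : ℝ} (ha : ¬ (9 < a ∧ a < 11)) (hb : ¬ (9 < b ∧ b < 11))
    (hc : ¬ (9 < c ∧ c < 11)) : P.Psi3 a b c = 0 := by
  rw [P.pw1 hb hc, P.ts_zero a b c ha, e1_zero]

/-- the global solution -/
noncomputable def Psi (u : ℝ × ℝ) : E3 := P.Psi3 (cc u.2) (cc u.1) (cc (-u.1 - u.2))

theorem Psi_periodic (u : ℝ × ℝ) (k l : ℤ) : P.Psi (u.1 + 60 * k, u.2 + 60 * l) = P.Psi u := by
  unfold Psi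
  simp only
  have e : -(u.1 + 60 * (k : ℝ)) - (u.2 + 60 * (l : ℝ)) = (-u.1 - u.2) + 60 * ((-k - l : ℤ) : ℝ) := by
    push_cast; ring
  rw [cc_add, cc_add, e, cc_add]

theorem Psi_rot (u : ℝ × ℝ) : P.Psi u = rho (P.Psi (rinv u)) := by
  unfold Psi rinv
  simp only
  have e : -(-u.1 - u.2) - u.1 = u.2 := by ring
  rw [e]
  exact P.cyc _ _ _

theorem sol_step {u : ℝ × ℝ} (h : Sol P.Psi (rinv u)) : Sol P.Psi u := by
  have h1 := h.rot
  have e : (fun p => rho (P.Psi (rinv p))) = P.Psi := by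
    funext p; exact (P.Psi_rot p).symm
  rwa [e] at h1

theorem sol12 (u : ℝ × ℝ) (ha1 : 8 < cc u.2) (ha2 : cc u.2 < 12) (hb1 : 8 < cc u.1)
    (hb2 : cc u.1 < 12) : Sol P.Psi u := by
  have h1 : Sol (fun p => P.K (p - (u.1 - cc u.1, u.2 - cc u.2))) u := (P.sol _).shift
  refine h1.congr ?_
  have c1 : Continuous fun v : ℝ × ℝ => cc u.1 + (v.1 - u.1) := by fun_prop
  have c2 : Continuous fun v : ℝ × ℝ => cc u.2 + (v.2 - u.2) := by fun_prop
  have n1 : ∀ᶠ v : ℝ × ℝ in 𝓝 u, 8 < cc u.1 + (v.1 - u.1) :=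
    continuousAt_const.eventually_lt c1.continuousAt (by simpa using hb1)
  have n2 : ∀ᶠ v : ℝ × ℝ in 𝓝 u, cc u.1 + (v.1 - u.1) < 12 :=
    c1.continuousAt.eventually_lt continuousAt_const (by simpa using hb2)
  have n3 : ∀ᶠ v : ℝ × ℝ in 𝓝 u, 8 < cc u.2 + (v.2 - u.2) :=
    continuousAt_const.eventually_lt c2.continuousAt (by simpa using ha1)
  have n4 : ∀ᶠ v : ℝ × ℝ in 𝓝 u, cc u.2 + (v.2 - u.2) < 12 :=
    c2.continuousAt.eventually_lt continuousAt_const (by simpa using ha2)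
  filter_upwards [n1, n2, n3, n4] with v k1 k2 k3 k4
  have q1 := cc_near' u.1 v.1 (by linarith) (by linarith)
  have q2 := cc_near' u.2 v.2 (by linarith) (by linarith)
  obtain ⟨j, hj⟩ := cc_sum v.2 v.1
  unfold Psi
  rw [P.pw12 (by rw [q2]; exact k3) (by rw [q2]; exact k4) (by rw [q1]; exact k1)
    (by rw [q1]; exact k2) (cc_lower _) (cc_upper _) j hj, q1, q2]
  congr 1
  ext
  · simp only [Prod.fst_sub]; ring
  · simp only [Prod.snd_sub]; ring

theorem near_band {x y : ℝ} (h : |y - x| < 3 / 4) (hx : ¬ (8 < cc x ∧ cc x < 12)) :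
    ¬ (9 < cc y ∧ cc y < 11) := by
  rintro ⟨h1, h2⟩
  have h3 := abs_lt.1 h
  have q := cc_near' y x (by linarith) (by linarith)
  exact hx ⟨by linarith, by linarith⟩

theorem ev_close (u : ℝ × ℝ) (r : ℝ) (hr : 0 < r) :
    ∀ᶠ v : ℝ × ℝ in 𝓝 u, |v.1 - u.1| < r ∧ |v.2 - u.2| < r := by
  have c1 : Continuous fun v : ℝ × ℝ => |v.1 - u.1| := by fun_prop
  have c2 : Continuous fun v : ℝ × ℝ => |v.2 - u.2| := by fun_prop
  have n1 : ∀ᶠ v : ℝ × ℝ in 𝓝 u, |v.1 - u.1| < r :=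
    c1.continuousAt.eventually_lt continuousAt_const (by simpa using hr)
  have n2 : ∀ᶠ v : ℝ × ℝ in 𝓝 u, |v.2 - u.2| < r :=
    c2.continuousAt.eventually_lt continuousAt_const (by simpa using hr)
  exact n1.and n2

theorem sol0 (u : ℝ × ℝ) (ha : ¬ (8 < cc u.2 ∧ cc u.2 < 12)) (hb : ¬ (8 < cc u.1 ∧ cc u.1 < 12))
    (hc : ¬ (8 < cc (-u.1 - u.2) ∧ cc (-u.1 - u.2) < 12)) : Sol P.Psi u := by
  refine (sol_zero u).congr ?_
  filter_upwards [ev_close u (1 / 4) (by norm_num)] with v hv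
  obtain ⟨h1, h2⟩ := hv
  have h1' := abs_lt.1 h1
  have h2' := abs_lt.1 h2
  refine P.pw0 (near_band ?_ ha) (near_band ?_ hb) (near_band ?_ hc)
  · rw [abs_lt]; constructor <;> linarith
  · rw [abs_lt]; constructor <;> linarith
  · rw [abs_lt]; constructor <;> linarith

theorem sol1 (u : ℝ × ℝ) (ha1 : 8 < cc u.2) (ha2 : cc u.2 < 12)
    (hb : ¬ (8 < cc u.1 ∧ cc u.1 < 12))
    (hc : ¬ (8 < cc (-u.1 - u.2) ∧ cc (-u.1 - u.2) < 12)) : Sol P.Psi u := by
  obtain ⟨j, hj⟩ := cc_sum u.2 u.1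
  -- the selection is locally constant
  have hsel : ∃ t : ℝ → ℝ, ContDiff ℝ ∞ t ∧ (∀ y, 0 < 1 + t y) ∧ ∀ᶠ v : ℝ × ℝ in 𝓝 u,
      P.ts (cc v.2) (cc v.1) (cc (-v.1 - v.2)) = t (cc v.2) := by
    by_cases hs : cc u.1 < 10 ∧ cc (-u.1 - u.2) < 10
    · refine ⟨P.tL, P.hL, P.pL, ?_⟩
      obtain ⟨hs1, hs2⟩ := hs
      have hb8 : cc u.1 ≤ 8 := by
        by_contra hcon
        exact hb ⟨not_le.1 hcon, by linarith⟩
      have hc8 : cc (-u.1 - u.2) ≤ 8 := by
        by_contra hcon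
        exact hc ⟨not_le.1 hcon, by linarith⟩
      have l1 := cc_lower u.1
      have l2 := cc_lower (-u.1 - u.2)
      have hj0 : j = 0 := by
        have h1 : (j : ℝ) < 1 := by linarith
        have h2 : (-1 : ℝ) < j := by linarith
        have h1' : j < 1 := by exact_mod_cast h1
        have h2' : -1 < j := by exact_mod_cast h2
        omega
      rw [hj0] at hj
      push_cast at hj
      filter_upwards [ev_close u (1 / 4) (by norm_num)] with v hv
      obtain ⟨k1, k2⟩ := hv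
      have k1' := abs_lt.1 k1
      have k2' := abs_lt.1 k2
      have q1 := cc_near' u.1 v.1 (by linarith) (by linarith)
      have q3 := cc_near' (-u.1 - u.2) (-v.1 - v.2) (by linarith) (by linarith)
      unfold ts
      rw [if_pos ⟨by linarith, by linarith⟩]
    · refine ⟨P.tR, P.hR, P.pR, ?_⟩
      filter_upwards [ev_close u (1 / 4) (by norm_num)] with v hv
      obtain ⟨k1, k2⟩ := hv
      have k1' := abs_lt.1 k1
      have k2' := abs_lt.1 k2
      have q2 := cc_near' u.2 v.2 (by linarith) (by linarith)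
      unfold ts
      rw [if_neg]
      rintro ⟨m1, m2⟩
      obtain ⟨i, hi⟩ := cc_sum v.2 v.1
      have l1 := cc_lower v.1
      have l2 := cc_lower (-v.1 - v.2)
      have hi0 : i = 0 := by
        have h1 : (i : ℝ) < 1 := by linarith
        have h2 : (-1 : ℝ) < i := by linarith
        have h1' : i < 1 := by exact_mod_cast h1
        have h2' : -1 < i := by exact_mod_cast h2
        omega
      rw [hi0] at hi
      push_cast at hi
      have r1 := cc_near' v.1 u.1 (by linarith) (by linarith)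
      have r3 := cc_near' (-v.1 - v.2) (-u.1 - u.2) (by linarith) (by linarith)
      refine hs ⟨?_, ?_⟩
      · by_contra hcon
        exact hb ⟨by linarith, by linarith⟩
      · by_contra hcon
        exact hc ⟨by linarith, by linarith⟩
  obtain ⟨t, htC, htp, ht⟩ := hsel
  have h1 : Sol (fun p => (fun q : ℝ × ℝ => e1 (t q.2)) (p - (0, u.2 - cc u.2))) u :=
    (sol_e1 htC _ (htp _)).shift
  refine h1.congr ?_
  have c2 : Continuous fun v : ℝ × ℝ => cc u.2 + (v.2 - u.2) := by fun_prop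
  have n3 : ∀ᶠ v : ℝ × ℝ in 𝓝 u, 8 < cc u.2 + (v.2 - u.2) :=
    continuousAt_const.eventually_lt c2.continuousAt (by simpa using ha1)
  have n4 : ∀ᶠ v : ℝ × ℝ in 𝓝 u, cc u.2 + (v.2 - u.2) < 12 :=
    c2.continuousAt.eventually_lt continuousAt_const (by simpa using ha2)
  filter_upwards [ev_close u (1 / 4) (by norm_num), ht, n3, n4] with v hv hv2 k3 k4
  obtain ⟨g1, g2⟩ := hv
  have g1' := abs_lt.1 g1
  have g2' := abs_lt.1 g2
  have q2 := cc_near' u.2 v.2 (by linarith) (by linarith)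
  unfold Psi
  rw [P.pw1 (near_band ?_ hb) (near_band ?_ hc), hv2, q2]
  · have e : cc u.2 + (v.2 - u.2) = (v - (0, u.2 - cc u.2)).2 := by
      simp only [Prod.snd_sub]; ring
    rw [e]
  · rw [abs_lt]; constructor <;> linarith
  · rw [abs_lt]; constructor <;> linarith

theorem cc_rinv_snd (u : ℝ × ℝ) : cc (rinv u).2 = cc u.1 := rfl
theorem cc_rinv_fst (u : ℝ × ℝ) : cc (rinv u).1 = cc (-u.1 - u.2) := rfl
theorem cc_rinv_thd (u : ℝ × ℝ) : cc (-(rinv u).1 - (rinv u).2) = cc u.2 := by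
  unfold rinv; simp only; congr 1; ring

theorem sol_Psi (u : ℝ × ℝ) : Sol P.Psi u := by
  by_cases ha : 8 < cc u.2 ∧ cc u.2 < 12
  · by_cases hb : 8 < cc u.1 ∧ cc u.1 < 12
    · exact P.sol12 u ha.1 ha.2 hb.1 hb.2
    · by_cases hc : 8 < cc (-u.1 - u.2) ∧ cc (-u.1 - u.2) < 12
      · -- third and first
        apply P.sol_step
        apply P.sol_step
        apply P.sol12
        · rw [cc_rinv_snd, cc_rinv_fst]; exact hc.1
        · rw [cc_rinv_snd, cc_rinv_fst]; exact hc.2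
        · rw [cc_rinv_fst, cc_rinv_thd]; exact ha.1
        · rw [cc_rinv_fst, cc_rinv_thd]; exact ha.2
      · exact P.sol1 u ha.1 ha.2 hb hc
  · by_cases hb : 8 < cc u.1 ∧ cc u.1 < 12
    · by_cases hc : 8 < cc (-u.1 - u.2) ∧ cc (-u.1 - u.2) < 12
      · apply P.sol_step
        apply P.sol12
        · rw [cc_rinv_snd]; exact hb.1
        · rw [cc_rinv_snd]; exact hb.2
        · rw [cc_rinv_fst]; exact hc.1
        · rw [cc_rinv_fst]; exact hc.2
      · apply P.sol_step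
        apply P.sol1
        · rw [cc_rinv_snd]; exact hb.1
        · rw [cc_rinv_snd]; exact hb.2
        · rw [cc_rinv_fst]; exact hc
        · rw [cc_rinv_thd]; exact ha
    · by_cases hc : 8 < cc (-u.1 - u.2) ∧ cc (-u.1 - u.2) < 12
      · apply P.sol_step
        apply P.sol_step
        apply P.sol1
        · rw [cc_rinv_snd, cc_rinv_fst]; exact hc.1
        · rw [cc_rinv_snd, cc_rinv_fst]; exact hc.2
        · rw [cc_rinv_fst, cc_rinv_thd]; exact ha
        · rw [cc_rinv_thd, cc_rinv_snd]; exact hb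
      · exact P.sol0 u ha hb hc

end Pack

end Pool.Agent.TH309.Tor
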