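import Pool.Agent.TH309.Tor.Par

/-! A symmetric linear Goursat problem with smooth coefficients. -/

set_option autoImplicit false

open MeasureTheory Set Filter Topology
open scoped ContDiff BoundedContinuousFunction NNReal

namespace Pool.Agent.TH309.Tor

/-- clamp to the unit interval -/
noncomputable def cl (t : ℝ) : ℝ := max 0 (min t 1)

theorem cl_nonneg (t : ℝ) : 0 ≤ cl t := le_max_left _ _

theorem cl_le (t : ℝ) : cl t ≤ 1 := max_le (by norm_num) (min_le_right _ _)

theorem continuous_cl : Continuous cl := by unfold cl; fun_prop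

theorem prim_eq_zero {g : ℝ × ℝ → ℝ} (s : ℝ) {t : ℝ} (ht : t ≤ 0)
    (hs : ∀ τ, τ ≤ 0 → g (s, τ) = 0) : prim g (s, t) = 0 := by
  unfold prim
  rw [intervalIntegral.integral_congr (g := fun _ => (0 : ℝ))]
  · simp
  · intro τ hτ
    rw [uIcc_of_ge ht] at hτ
    exact hs τ hτ.2

theorem prim_cl {g : ℝ × ℝ → ℝ} (hg : Continuous g) (s t : ℝ)
    (hs : ∀ τ, τ ≤ 0 ∨ 1 ≤ τ → g (s, τ) = 0) : prim g (s, cl t) = prim g (s, t) := by
  rcases le_total t 0 with h | h
  · have e : cl t = 0 := by
      unfold cl; rw [min_eq_left (by linarith)]; exact max_eq_left h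
    rw [prim_eq_zero s h fun τ hτ => hs τ (Or.inl hτ), e,
      prim_eq_zero s le_rfl fun τ hτ => hs τ (Or.inl hτ)]
  · rcases le_total t 1 with h1 | h1
    · have e : cl t = t := by
        unfold cl; rw [min_eq_left h1]; exact max_eq_right h
      rw [e]
    · have e : cl t = 1 := by
        unfold cl; rw [min_eq_right h1]; exact max_eq_right (by norm_num)
      rw [e]
      have hc : Continuous fun τ => g (s, τ) := hg.comp (by fun_prop)
      have h2 : (∫ τ in (1 : ℝ)..t, g (s, τ)) = 0 := by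
        rw [intervalIntegral.integral_congr (g := fun _ => (0 : ℝ))]
        · simp
        · intro τ hτ
          rw [uIcc_of_le h1] at hτ
          exact hs τ (Or.inr hτ.1)
      have h3 := intervalIntegral.integral_add_adjacent_intervals (μ := volume) (a := 0) (b := 1)
        (c := t) (hc.intervalIntegrable _ _) (hc.intervalIntegrable _ _)
      rw [h2, add_zero] at h3
      exact h3

theorem abs_prim_cl_le {g : ℝ × ℝ → ℝ} {C : ℝ} (hC : 0 ≤ C) (hg : ∀ p, |g p| ≤ C) (s t : ℝ) :
    |prim g (s, cl t)| ≤ C := by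
  have h := intervalIntegral.norm_integral_le_of_norm_le_const (a := 0) (b := cl t) (C := C)
    (f := fun τ => g (s, τ)) (fun τ _ => by rw [Real.norm_eq_abs]; exact hg _)
  rw [Real.norm_eq_abs, sub_zero, abs_of_nonneg (cl_nonneg t)] at h
  unfold prim
  refine h.trans ?_
  calc C * cl t ≤ C * 1 := mul_le_mul_of_nonneg_left (cl_le t) hC
    _ = C := mul_one C

/-- the kernel -/
noncomputable def ker (b : ℝ × ℝ → ℝ) (X : ℝ × ℝ → ℝ) : ℝ × ℝ → ℝ :=
  fun p => b p * X (p.2, p.1)

theorem continuous_ker {b X : ℝ × ℝ → ℝ} (hb : Continuous b) (hX : Continuous X) :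
    Continuous (ker b X) := by
  unfold ker
  exact hb.mul (hX.comp (by fun_prop))

/-- the operator -/
noncomputable def opT (b : ℝ × ℝ → ℝ) (hb : Continuous b) (c : ℝ) (hbd : ∀ p, |b p| ≤ c)
    (X : ℝ × ℝ →ᵇ ℝ) : ℝ × ℝ →ᵇ ℝ :=
  BoundedContinuousFunction.ofNormedAddCommGroup
    (fun p => 1 + prim (ker b X) (p.1, cl p.2))
    (by
      refine continuous_const.add ((continuous_prim (continuous_ker hb X.continuous)).comp ?_)
      exact continuous_fst.prodMk (continuous_cl.comp continuous_snd))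
    (1 + c * ‖X‖)
    (by
      intro p
      have hc : 0 ≤ c := (abs_nonneg _).trans (hbd (0, 0))
      have h := abs_prim_cl_le (g := ker b X) (C := c * ‖X‖) (by positivity) (fun q => by
        unfold ker
        rw [abs_mul]
        refine mul_le_mul (hbd q) ?_ (abs_nonneg _) hc
        exact X.norm_coe_le_norm _) p.1 p.2
      rw [Real.norm_eq_abs]
      exact (abs_add_le _ _).trans (by rw [abs_one]; linarith))

theorem opT_apply (b : ℝ × ℝ → ℝ) (hb : Continuous b) (c : ℝ) (hbd : ∀ p, |b p| ≤ c)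
    (X : ℝ × ℝ →ᵇ ℝ) (p : ℝ × ℝ) :
    opT b hb c hbd X p = 1 + prim (ker b X) (p.1, cl p.2) := rfl

theorem prim_sub {g g' : ℝ × ℝ → ℝ} (hg : Continuous g) (hg' : Continuous g') (p : ℝ × ℝ) :
    prim g p - prim g' p = prim (fun q => g q - g' q) p := by
  unfold prim
  rw [intervalIntegral.integral_sub]
  · exact (hg.comp (by fun_prop : Continuous fun τ : ℝ => (p.1, τ))).intervalIntegrable _ _
  · exact (hg'.comp (by fun_prop : Continuous fun τ : ℝ => (p.1, τ))).intervalIntegrable _ _

theorem exists_fix (b : ℝ × ℝ → ℝ) (hb : Continuous b) (c : ℝ) (hc : c ≤ 1 / 4)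
    (hbd : ∀ p, |b p| ≤ c) :
    ∃ X : ℝ × ℝ →ᵇ ℝ, opT b hb c hbd X = X := by
  have hc0 : 0 ≤ c := (abs_nonneg _).trans (hbd (0, 0))
  have hcon : ContractingWith (Real.toNNReal c) (opT b hb c hbd) := by
    refine ⟨?_, ?_⟩
    · rw [Real.toNNReal_lt_one]
      linarith
    · refine LipschitzWith.of_dist_le_mul fun X X' => ?_
      rw [Real.coe_toNNReal c hc0, BoundedContinuousFunction.dist_le (by positivity)]
      intro p
      rw [Real.dist_eq, opT_apply, opT_apply, add_sub_add_left_eq_sub,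
        prim_sub (continuous_ker hb X.continuous) (continuous_ker hb X'.continuous)]
      refine abs_prim_cl_le (by positivity) (fun q => ?_) p.1 p.2
      unfold ker
      rw [← mul_sub, abs_mul]
      refine mul_le_mul (hbd q) ?_ (abs_nonneg _) hc0
      rw [← Real.dist_eq]
      exact BoundedContinuousFunction.dist_coe_le_dist _
  exact ⟨hcon.fixedPoint _, hcon.fixedPoint_isFixedPt⟩

theorem exists_goursat (b : ℝ × ℝ → ℝ) (hb : ContDiff ℝ ∞ b) (c : ℝ) (hc : c ≤ 1 / 4)
    (hbd : ∀ p, |b p| ≤ c) (hs : ∀ s t, t ≤ 0 ∨ 1 ≤ t → b (s, t) = 0) :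
    ∃ X : ℝ × ℝ → ℝ, ContDiff ℝ ∞ X ∧
      (∀ s t, HasDerivAt (fun t => X (s, t)) (b (s, t) * X (t, s)) t) ∧
      (∀ s t, t ≤ 0 → X (s, t) = 1) ∧ (∀ p, |X p - 1| ≤ 2 * c) := by
  have hc0 : 0 ≤ c := (abs_nonneg _).trans (hbd (0, 0))
  obtain ⟨X, hX⟩ := exists_fix b hb.continuous c hc hbd
  have hXc : Continuous X := X.continuous
  have hkc : Continuous (ker b X) := continuous_ker hb.continuous hXc
  have hk0 : ∀ s τ, τ ≤ 0 ∨ 1 ≤ τ → ker b X (s, τ) = 0 := by
    intro s τ h
    unfold ker
    rw [hs s τ h, zero_mul]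
  have h1 : ∀ p, X p = 1 + prim (ker b X) (p.1, cl p.2) := by
    intro p
    rw [← opT_apply b hb.continuous c hbd X p, hX]
  have h2 : ∀ p, X p = 1 + prim (ker b X) p := by
    intro p
    rw [h1 p, prim_cl hkc p.1 p.2 (hk0 p.1)]
  have hder : ∀ s t, HasDerivAt (fun t => X (s, t)) (b (s, t) * X (t, s)) t := by
    intro s t
    have e : (fun t => X (s, t)) = fun t => 1 + prim (ker b X) (s, t) := by
      funext t; exact h2 (s, t)
    rw [e]
    exact (hasDerivAt_prim_snd hkc s t).const_add 1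
  refine ⟨X, ?_, hder, ?_, ?_⟩
  · rw [contDiff_infty]
    intro n
    induction n with
    | zero => exact_mod_cast contDiff_zero.2 hXc
    | succ n ih =>
      set bs : ℝ × ℝ → ℝ := fun p => fderiv ℝ b p (1, 0) with hbs
      have hbsC : ContDiff ℝ ∞ bs :=
        (hb.fderiv_right (m := ∞) (by norm_num)).clm_apply contDiff_const
      have hbsd : ∀ s t, HasDerivAt (fun s => b (s, t)) (bs (s, t)) s := by
        intro s t
        have h3 : HasFDerivAt b (fderiv ℝ b (s, t)) (s, t) :=
          (hb.differentiable (by simp) (s, t)).hasFDerivAt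
        have h4 : HasDerivAt (fun s : ℝ => (s, t)) ((1 : ℝ), (0 : ℝ)) s :=
          (hasDerivAt_id s).prodMk (hasDerivAt_const s t)
        exact h3.comp_hasDerivAt s h4
      set gs : ℝ × ℝ → ℝ := fun p => bs p * X (p.2, p.1) + b p * (b (p.2, p.1) * X p) with hgs
      have hgsC : ContDiff ℝ n gs := by
        have hb' : ContDiff ℝ n b := contDiff_infty.1 hb n
        have hbs' : ContDiff ℝ n bs := contDiff_infty.1 hbsC n
        have sw : ContDiff ℝ n (fun p : ℝ × ℝ => (p.2, p.1)) := contDiff_snd.prodMk contDiff_fst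
        exact (hbs'.mul (ih.comp sw)).add (hb'.mul ((hb'.comp sw).mul ih))
      have hkC : ContDiff ℝ n (ker b X) := by
        have hb' : ContDiff ℝ n b := contDiff_infty.1 hb n
        have sw : ContDiff ℝ n (fun p : ℝ × ℝ => (p.2, p.1)) := contDiff_snd.prodMk contDiff_fst
        exact hb'.mul (ih.comp sw)
      have hkd : ∀ s t, HasDerivAt (fun s => ker b X (s, t)) (gs (s, t)) s := by
        intro s t
        exact (hbsd s t).mul (hder t s)
      have hpart : ∀ s t, HasDerivAt (fun s => X (s, t)) (prim gs (s, t)) s := by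
        intro s t
        have e : (fun s => X (s, t)) = fun s => 1 + prim (ker b X) (s, t) := by
          funext s; exact h2 (s, t)
        rw [e]
        exact (hasDerivAt_prim_fst hkc hgsC.continuous hkd s t).const_add 1
      exact contDiff_succ_of_partials (f1 := prim gs) (f2 := ker b X) (contDiff_prim_nat hgsC)
        hkC hpart hder
  · intro s t ht
    rw [h2, prim_eq_zero s ht fun τ hτ => hk0 s τ (Or.inl hτ), add_zero]
  · have hN : ‖X‖ ≤ 4 / 3 := by
      have h3 : ‖X‖ ≤ 1 + c * ‖X‖ := by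
        rw [BoundedContinuousFunction.norm_le (by positivity)]
        intro p
        rw [h1 p, Real.norm_eq_abs]
        have h := abs_prim_cl_le (g := ker b X) (C := c * ‖X‖) (by positivity) (fun q => by
          unfold ker
          rw [abs_mul]
          exact mul_le_mul (hbd q) (X.norm_coe_le_norm _) (abs_nonneg _) hc0) p.1 p.2
        exact (abs_add_le _ _).trans (by rw [abs_one]; linarith)
      have h4 : c * ‖X‖ ≤ 1 / 4 * ‖X‖ := mul_le_mul_of_nonneg_right hc (norm_nonneg _)
      linarith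
    intro p
    rw [h1 p, add_sub_cancel_left]
    refine (abs_prim_cl_le (g := ker b X) (C := c * ‖X‖) (by positivity) (fun q => by
      unfold ker
      rw [abs_mul]
      exact mul_le_mul (hbd q) (X.norm_coe_le_norm _) (abs_nonneg _) hc0) p.1 p.2).trans ?_
    have h5 : c * ‖X‖ ≤ c * (4 / 3) := mul_le_mul_of_nonneg_left hN hc0
    linarith

end Pool.Agent.TH309.Tor
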