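import Pool.Agent.TH309.Tor.Glue2

/-! Existence of the local ingredients. -/

set_option autoImplicit false

open Set Filter Topology
open scoped ContDiff

namespace Pool.Agent.TH309.Tor

theorem ss_pos {x : ℝ} (hx : |x| < 1 / 10) : 0 < ss x := by
  have h := abs_lt.1 hx
  have h1 : 1 + 2 * x ≠ 0 := by intro h2; linarith
  have h2 := den_pos x
  unfold ss
  positivity

theorem one_add_ff_pos {x : ℝ} (hx : |x| < 1 / 10) : 0 < 1 + ff x := by
  rw [← ss_eq]; exact ss_pos hx

theorem ff_ne {x : ℝ} (hx : |x| < 1 / 10) (h0 : x ≠ 0) : ff x ≠ 0 := by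
  have h := abs_lt.1 hx
  have h1 : 1 + x ≠ 0 := by intro h2; linarith
  have h2 := (den_pos x).ne'
  unfold ff
  exact div_ne_zero (mul_ne_zero (mul_ne_zero (by norm_num) h0) h1) h2

theorem cube_root {x : ℝ} (hx : 0 < x) : (27 / 4 * (4 / 27 * x ^ 3)) ^ (1 / 3 : ℝ) = x := by
  have e : (27 / 4 * (4 / 27 * x ^ 3)) = x ^ 3 := by ring
  rw [e, ← Real.rpow_natCast x 3, ← Real.rpow_mul hx.le]
  norm_num

theorem exists_pack : Nonempty Pack := by
  obtain ⟨m, L, R, hm, hL, hR, hG, hH, hz, h1, h2, hnz⟩ := crossing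
  have bL : ∀ y, |L y| < 1 / 10 := by
    intro y
    have := h1 (-1, y) (by norm_num)
    have g := (hG (-1, y)).2.1
    rw [this] at g
    exact g
  have bR : ∀ y, |R y| < 1 / 10 := by
    intro y
    have := h2 (2, y) (by norm_num)
    have g := (hG (2, y)).2.1
    rw [this] at g
    exact g
  have zL : ∀ y, y ≤ -1 / 2 ∨ 3 / 2 ≤ y → L y = 0 := by
    intro y hy
    have := h1 (-1, y) (by norm_num)
    rw [← this]
    exact hz (y, -1) hy
  have zR : ∀ y, y ≤ -1 / 2 ∨ 3 / 2 ≤ y → R y = 0 := by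
    intro y hy
    have := h2 (2, y) (by norm_num)
    rw [← this]
    exact hz (y, 2) hy
  set κ : ℝ × ℝ := (19 / 2, 19 / 2) with hκ
  set K0 : ℝ × ℝ → E3 := fun p => (fS m p - 1, fA m p, fB m p) with hK0
  have hsol : ∀ u, Sol K0 u := by
    intro u
    refine ⟨?_, ?_, ?_⟩
    · exact (((contDiff_fS hm hG).sub contDiff_const).prodMk
        ((contDiff_fA hm hG).prodMk (contDiff_fB hm hG))).contDiffAt
    · have e : (fun p => 1 + (K0 p).1) = fS m := by funext p; simp [hK0]
      have k := pde_cross hm hG hH u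
      rw [e]
      exact k
    · have := fS_pos hm hG u
      simp only [hK0]
      linarith
  -- values in the simple wave regions
  have v1 : ∀ (p : ℝ × ℝ) (x : ℝ), m p = 0 → m p.swap = x → |x| < 1 / 10 → K0 p = e1 (ff x) := by
    intro p x hp hx hb
    simp only [hK0, fS, fA, fB]
    rw [hp, hx, g3_zero_left, cube_root (ss_pos hb), sA_zero_left, sB_zero_left, ss_eq]
    unfold e1
    simp
  have v2 : ∀ (p : ℝ × ℝ) (x : ℝ), m p.swap = 0 → m p = x → |x| < 1 / 10 → K0 p = e2 (ff x) := by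
    intro p x hp hx hb
    simp only [hK0, fS, fA, fB]
    rw [hp, hx, g3_swap, g3_zero_left, cube_root (ss_pos hb), sA_zero_right, sB_zero_right, ss_eq]
    unfold e2
    simp
  refine ⟨{
    K := fun u => K0 (u - κ)
    tL := fun y => ff (L (y - 19 / 2))
    tR := fun y => ff (R (y - 19 / 2))
    hL := contDiff_ff.comp (hL.comp (contDiff_id.sub contDiff_const))
    hR := contDiff_ff.comp (hR.comp (contDiff_id.sub contDiff_const))
    pL := fun y => one_add_ff_pos (bL _)
    pR := fun y => one_add_ff_pos (bR _)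
    zL := ?_
    zR := ?_
    sol := fun u => (hsol _).shift
    k1 := ?_
    k2 := ?_
    k3 := ?_
    k4 := ?_
    nz := ?_ }⟩
  · intro y hy
    rw [zL _ (by rcases hy with h | h; exact Or.inl (by linarith); exact Or.inr (by linarith)),
      ff_zero]
  · intro y hy
    rw [zR _ (by rcases hy with h | h; exact Or.inl (by linarith); exact Or.inr (by linarith)),
      ff_zero]
  · intro u hu
    have hp : (u - κ).1 ≤ -1 / 2 := by simp only [hκ, Prod.fst_sub]; linarith
    exact v1 (u - κ) _ (hz _ (Or.inl hp)) (h1 _ hp) (bL _)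
  · intro u hu
    have hp : 3 / 2 ≤ (u - κ).1 := by simp only [hκ, Prod.fst_sub]; linarith
    exact v1 (u - κ) _ (hz _ (Or.inr hp)) (h2 _ hp) (bR _)
  · intro u hu
    have hp : (u - κ).swap.1 ≤ -1 / 2 := by
      simp only [hκ, Prod.fst_swap, Prod.snd_sub]; linarith
    have e := h1 _ hp
    rw [Prod.swap_swap] at e
    exact v2 (u - κ) _ (hz _ (Or.inl hp)) e (bL _)
  · intro u hu
    have hp : 3 / 2 ≤ (u - κ).swap.1 := by
      simp only [hκ, Prod.fst_swap, Prod.snd_sub]; linarith
    have e := h2 _ hp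
    rw [Prod.swap_swap] at e
    exact v2 (u - κ) _ (hz _ (Or.inr hp)) e (bR _)
  · have e : (10 : ℝ) - 19 / 2 = 1 / 2 := by norm_num
    rw [e]
    exact ff_ne (bL _) hnz

end Pool.Agent.TH309.Tor
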