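import Pool.Agent.W585.Param

/-! Analysis lemmas: primitives with parameter, functions with smooth partial derivatives. -/

set_option autoImplicit false

open MeasureTheory Set Filter Topology
open scoped ContDiff

namespace Pool.Agent.TH309.Tor

/-- The primitive in the second variable. -/
noncomputable def prim (g : ℝ × ℝ → ℝ) : ℝ × ℝ → ℝ := fun p => ∫ τ in (0 : ℝ)..p.2, g (p.1, τ)

theorem prim_eq (g : ℝ × ℝ → ℝ) (p : ℝ × ℝ) :
    prim g p = p.2 * ∫ τ in (0 : ℝ)..1, g (p.1, p.2 * τ) := by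
  have h := intervalIntegral.smul_integral_comp_mul_left (f := fun x => g (p.1, x)) (a := 0)
    (b := 1) p.2
  simp only [smul_eq_mul, mul_zero, mul_one] at h
  rw [prim, ← h]

theorem contDiff_prim_nat {g : ℝ × ℝ → ℝ} {n : ℕ} (hg : ContDiff ℝ n g) :
    ContDiff ℝ n (prim g) := by
  have h1 : ContDiff ℝ n (fun p : ℝ × ℝ => ∫ τ in (0 : ℝ)..1, g (p.1, p.2 * τ)) := by
    refine Pool.Agent.W585.contDiff_param_nat (E := ℝ × ℝ) 0 1 n ℝ
      (fun p τ => g (p.1, p.2 * τ)) ?_
    refine hg.comp ?_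
    fun_prop
  have h2 : prim g = fun p : ℝ × ℝ => p.2 * ∫ τ in (0 : ℝ)..1, g (p.1, p.2 * τ) := by
    funext p; exact prim_eq g p
  rw [h2]
  exact contDiff_snd.mul h1

theorem contDiff_prim {g : ℝ × ℝ → ℝ} (hg : ContDiff ℝ ∞ g) : ContDiff ℝ ∞ (prim g) :=
  contDiff_infty.2 fun n => contDiff_prim_nat (contDiff_infty.1 hg n)

theorem continuous_prim {g : ℝ × ℝ → ℝ} (hg : Continuous g) : Continuous (prim g) := by
  have := contDiff_prim_nat (n := 0) (g := g) (by exact_mod_cast contDiff_zero.2 hg)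
  exact this.continuous

theorem hasDerivAt_prim_snd {g : ℝ × ℝ → ℝ} (hg : Continuous g) (s t : ℝ) :
    HasDerivAt (fun t => prim g (s, t)) (g (s, t)) t := by
  have h : Continuous fun τ => g (s, τ) := hg.comp (by fun_prop)
  exact intervalIntegral.integral_hasDerivAt_right (h.intervalIntegrable _ _)
    h.stronglyMeasurable.stronglyMeasurableAtFilter h.continuousAt

theorem hasDerivAt_prim_fst {g gs : ℝ × ℝ → ℝ} (hg : Continuous g) (hgs : Continuous gs)
    (hd : ∀ s t, HasDerivAt (fun s => g (s, t)) (gs (s, t)) s) (s t : ℝ) :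
    HasDerivAt (fun s => prim g (s, t)) (prim gs (s, t)) s := by
  obtain ⟨C, hC⟩ := ((isCompact_closedBall s 1).prod (isCompact_uIcc (a := (0 : ℝ)) (b := t))
    ).exists_bound_of_continuousOn hgs.continuousOn
  have h := intervalIntegral.hasDerivAt_integral_of_dominated_loc_of_deriv_le (μ := volume)
    (s := Metric.closedBall s 1) (F := fun s τ => g (s, τ)) (F' := fun s τ => gs (s, τ))
    (x₀ := s) (a := 0) (b := t) (bound := fun _ => C)
    (Metric.closedBall_mem_nhds s one_pos) ?_ ?_ ?_ ?_ ?_ ?_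
  · exact h.2
  · refine Eventually.of_forall fun y => ?_
    exact (hg.comp (by fun_prop : Continuous fun τ : ℝ => (y, τ))).aestronglyMeasurable
  · exact (hg.comp (by fun_prop : Continuous fun τ : ℝ => (s, τ))).intervalIntegrable _ _
  · exact (hgs.comp (by fun_prop : Continuous fun τ : ℝ => (s, τ))).aestronglyMeasurable
  · refine Eventually.of_forall fun τ hτ y hy => ?_
    exact hC (y, τ) ⟨hy, uIoc_subset_uIcc hτ⟩
  · exact intervalIntegrable_const
  · exact Eventually.of_forall fun τ _ y _ => hd y τ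

/-- The linear form with given partial derivatives. -/
noncomputable def lin (a b : ℝ) : ℝ × ℝ →L[ℝ] ℝ :=
  a • ContinuousLinearMap.fst ℝ ℝ ℝ + b • ContinuousLinearMap.snd ℝ ℝ ℝ

@[simp] theorem lin_apply (a b : ℝ) (v : ℝ × ℝ) : lin a b v = a * v.1 + b * v.2 := by
  simp [lin]

theorem hasStrictFDerivAt_of_partials {f f1 f2 : ℝ × ℝ → ℝ} (h1 : Continuous f1)
    (h2 : Continuous f2) (d1 : ∀ s t, HasDerivAt (fun s => f (s, t)) (f1 (s, t)) s)
    (d2 : ∀ s t, HasDerivAt (fun t => f (s, t)) (f2 (s, t)) t) (p : ℝ × ℝ) :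
    HasStrictFDerivAt f (lin (f1 p) (f2 p)) p := by
  have h := hasStrictFDerivAt_uncurry_coprod (𝕜 := ℝ) (u := p) (f := fun s t => f (s, t))
    (f₁ := fun s t => ContinuousLinearMap.toSpanSingleton ℝ (f1 (s, t)))
    (f₂ := fun s t => ContinuousLinearMap.toSpanSingleton ℝ (f2 (s, t)))
    (Eventually.of_forall fun v => (d1 v.1 v.2).hasFDerivAt)
    (Eventually.of_forall fun v => (d2 v.1 v.2).hasFDerivAt)
    (by
      have : Continuous fun v : ℝ × ℝ => ContinuousLinearMap.toSpanSingleton ℝ (f1 v) :=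
        (ContinuousLinearMap.toSpanSingletonCLE (𝕜 := ℝ) (E := ℝ)).continuous.comp h1
      exact this.continuousAt)
    (by
      have : Continuous fun v : ℝ × ℝ => ContinuousLinearMap.toSpanSingleton ℝ (f2 v) :=
        (ContinuousLinearMap.toSpanSingletonCLE (𝕜 := ℝ) (E := ℝ)).continuous.comp h2
      exact this.continuousAt)
  have e : lin (f1 p) (f2 p) = (ContinuousLinearMap.toSpanSingleton ℝ (f1 p)).coprod
      (ContinuousLinearMap.toSpanSingleton ℝ (f2 p)) := by
    ext <;> simp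
  rw [e]
  exact h

theorem contDiff_succ_of_partials {f f1 f2 : ℝ × ℝ → ℝ} {n : ℕ} (h1 : ContDiff ℝ n f1)
    (h2 : ContDiff ℝ n f2) (d1 : ∀ s t, HasDerivAt (fun s => f (s, t)) (f1 (s, t)) s)
    (d2 : ∀ s t, HasDerivAt (fun t => f (s, t)) (f2 (s, t)) t) :
    ContDiff ℝ (n + 1 : ℕ) f := by
  have key : ContDiff ℝ ((n : WithTop ℕ∞) + 1) f := by
    rw [contDiff_succ_iff_hasFDerivAt]
    refine ⟨fun p => lin (f1 p) (f2 p), ?_, fun p =>
      (hasStrictFDerivAt_of_partials h1.continuous h2.continuous d1 d2 p).hasFDerivAt⟩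
    unfold lin
    exact (h1.smul contDiff_const).add (h2.smul contDiff_const)
  exact_mod_cast key

end Pool.Agent.TH309.Tor
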