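import Pool.Agent.TH309.Tor.Cr3

/-! The cubic integral equations for two-wave states. -/

set_option autoImplicit false

open Set Filter Topology
open scoped ContDiff

namespace Pool.Agent.TH309.Tor

/-- The three equations expressing that `F = pq(p-q) + T (A p + B q)` Poisson-commutes with
`σ T`, `T = p² - pq + q²`; subscripts are partial derivatives. -/
def Pde (σ A B σ1 σ2 A1 A2 B1 B2 : ℝ) : Prop :=
  σ * (2 * A1 - A2) = 3 * A * σ1 + (1 + B - A) * σ2 ∧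
  σ * (2 * B2 - B1) = -(1 + B - A) * σ1 + 3 * B * σ2 ∧
  σ * (2 * B1 - A1 + 2 * A2 - B2) = 2 * (1 + B - A) * σ1 - 2 * (1 + B - A) * σ2

def Crit (A B p q : ℝ) : Prop :=
  qT p q * (A * (2 * q - p) - B * (2 * p - q)) - (p + q) * (2 * p - q) * (p - 2 * q) = 0

/-- partial derivatives of `F` -/
def Fp (A B p q : ℝ) : ℝ := 2 * p * q - q ^ 2 + (2 * p - q) * (A * p + B * q) + qT p q * A
def Fq (A B p q : ℝ) : ℝ := p ^ 2 - 2 * p * q + (2 * q - p) * (A * p + B * q) + qT p q * B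

theorem Fp_crit {A B p q : ℝ} (h : Crit A B p q) :
    2 * qT p q * Fp A B p q = 3 * qF A B p q * (2 * p - q) := by
  unfold Crit at h
  unfold Fp qF
  unfold qT at *
  linear_combination q * h

theorem Fq_crit {A B p q : ℝ} (h : Crit A B p q) :
    2 * qT p q * Fq A B p q = 3 * qF A B p q * (2 * q - p) := by
  unfold Crit at h
  unfold Fq qF
  unfold qT at *
  linear_combination (-p) * h

theorem hasDerivAt_qT {p q : ℝ → ℝ} {p' q' t : ℝ} (hp : HasDerivAt p p' t)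
    (hq : HasDerivAt q q' t) :
    HasDerivAt (fun τ => qT (p τ) (q τ)) ((2 * p t - q t) * p' + (2 * q t - p t) * q') t := by
  unfold qT
  refine (((hp.fun_pow 2).fun_sub (hp.fun_mul hq)).fun_add (hq.fun_pow 2)).congr_deriv ?_
  push_cast
  ring

theorem hasDerivAt_qF {A B p q : ℝ → ℝ} {A' B' p' q' t : ℝ} (hA : HasDerivAt A A' t)
    (hB : HasDerivAt B B' t) (hp : HasDerivAt p p' t) (hq : HasDerivAt q q' t) :
    HasDerivAt (fun τ => qF (A τ) (B τ) (p τ) (q τ))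
      (Fp (A t) (B t) (p t) (q t) * p' + Fq (A t) (B t) (p t) (q t) * q' +
        qT (p t) (q t) * (p t * A' + q t * B')) t := by
  unfold qF
  refine (((hp.fun_mul hq).fun_mul (hp.fun_sub hq)).fun_add
    ((hasDerivAt_qT hp hq).fun_mul ((hA.fun_mul hp).fun_add (hB.fun_mul hq)))).congr_deriv ?_
  unfold Fp Fq
  ring

theorem crit_deriv {A B p q : ℝ → ℝ} {A' B' p' q' t : ℝ} (hA : HasDerivAt A A' t)
    (hB : HasDerivAt B B' t) (hp : HasDerivAt p p' t) (hq : HasDerivAt q q' t)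
    (hc : Crit (A t) (B t) (p t) (q t)) (hT : 0 < qT (p t) (q t)) :
    HasDerivAt (fun τ => qF (A τ) (B τ) (p τ) (q τ) ^ 2 / qT (p τ) (q τ) ^ 3)
      (2 * qF (A t) (B t) (p t) (q t) / qT (p t) (q t) ^ 2 * (p t * A' + q t * B')) t := by
  have h1 := hasDerivAt_qF hA hB hp hq
  have h2 := hasDerivAt_qT hp hq
  refine ((h1.fun_pow 2).fun_div (h2.fun_pow 3) (pow_pos hT 3).ne').congr_deriv ?_
  have e1 := Fp_crit hc
  have e2 := Fq_crit hc
  set T := qT (p t) (q t)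
  set F := qF (A t) (B t) (p t) (q t)
  set a := Fp (A t) (B t) (p t) (q t)
  set b := Fq (A t) (B t) (p t) (q t)
  field_simp
  push_cast
  linear_combination (p' * T ^ 2 * F) * e1 + (q' * T ^ 2 * F) * e2

/-- the relation coming from a Riemann invariant which is constant in the direction -/
theorem rel_of {F T g g' G G' σ σ' k : ℝ} (hF : F ≠ 0) (hT : 0 < T) (hσ : 0 < σ)
    (hg : g = F ^ 2 / T ^ 3) (hg' : g' = 2 * F / T ^ 2 * k)
    (hG : σ ^ 3 = 27 / 4 * G) (hG' : 3 * σ ^ 2 * σ' = 27 / 4 * G')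
    (h : g' * G = g * G') : 2 * T * σ * k = 3 * F * σ' := by
  have h1 : g' * σ ^ 3 = g * (3 * σ ^ 2 * σ') := by
    rw [hG, hG']; linear_combination (27 / 4) * h
  rw [hg, hg'] at h1
  have h2 : 2 * F / T ^ 2 * k * σ ^ 3 - F ^ 2 / T ^ 3 * (3 * σ ^ 2 * σ') =
      F * σ ^ 2 / T ^ 3 * (2 * T * σ * k - 3 * F * σ') := by
    field_simp
  have h3 : F * σ ^ 2 / T ^ 3 * (2 * T * σ * k - 3 * F * σ') = 0 := by
    rw [← h2, h1]; ring
  have h4 : F * σ ^ 2 / T ^ 3 ≠ 0 := by positivity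
  have := (mul_eq_zero.1 h3).resolve_left h4
  linarith

/-- the bracket as a quadratic form -/
def Ebr (σ A B σ1 σ2 A1 A2 B1 B2 p q : ℝ) : ℝ :=
  σ * ((2 * p - q) * (A1 * p + B1 * q) + (2 * q - p) * (A2 * p + B2 * q)) -
    σ1 * Fp A B p q - σ2 * Fq A B p q

theorem Ebr_zero {σ A B σ1 σ2 A1 A2 B1 B2 p q : ℝ} (hc : Crit A B p q) (hT : 0 < qT p q)
    (h : 2 * qT p q * σ * (p * ((2 * p - q) * A1 + (2 * q - p) * A2) +
      q * ((2 * p - q) * B1 + (2 * q - p) * B2)) =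
      3 * qF A B p q * ((2 * p - q) * σ1 + (2 * q - p) * σ2)) :
    Ebr σ A B σ1 σ2 A1 A2 B1 B2 p q = 0 := by
  have e1 := Fp_crit hc
  have e2 := Fq_crit hc
  have h1 : 2 * qT p q * Ebr σ A B σ1 σ2 A1 A2 B1 B2 p q = 0 := by
    unfold Ebr
    linear_combination h - σ1 * e1 - σ2 * e2
  exact (mul_eq_zero.1 h1).resolve_left (by positivity)

theorem pde_of_three {σ A B σ1 σ2 A1 A2 B1 B2 a1 b1 a2 b2 a3 b3 : ℝ}
    (h1 : Ebr σ A B σ1 σ2 A1 A2 B1 B2 a1 b1 = 0) (h2 : Ebr σ A B σ1 σ2 A1 A2 B1 B2 a2 b2 = 0)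
    (h3 : Ebr σ A B σ1 σ2 A1 A2 B1 B2 a3 b3 = 0) (d12 : a1 * b2 - a2 * b1 ≠ 0)
    (d13 : a1 * b3 - a3 * b1 ≠ 0) (d23 : a2 * b3 - a3 * b2 ≠ 0) :
    Pde σ A B σ1 σ2 A1 A2 B1 B2 := by
  set E0 := σ * (2 * A1 - A2) - (3 * A * σ1 + (1 + B - A) * σ2) with hE0
  set E2 := σ * (2 * B2 - B1) - (-(1 + B - A) * σ1 + 3 * B * σ2) with hE2
  set E1 := σ * (2 * B1 - A1 + 2 * A2 - B2) -
    (2 * (1 + B - A) * σ1 - 2 * (1 + B - A) * σ2) with hE1
  have key : ∀ p q, Ebr σ A B σ1 σ2 A1 A2 B1 B2 p q = E0 * p ^ 2 + E1 * (p * q) + E2 * q ^ 2 := by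
    intro p q
    simp only [hE0, hE1, hE2]
    unfold Ebr Fp Fq qT
    ring
  rw [key] at h1 h2 h3
  have hd : (a1 * b2 - a2 * b1) * (a1 * b3 - a3 * b1) * (a2 * b3 - a3 * b2) ≠ 0 :=
    mul_ne_zero (mul_ne_zero d12 d13) d23
  have k0 : (a1 * b2 - a2 * b1) * (a1 * b3 - a3 * b1) * (a2 * b3 - a3 * b2) * E0 = 0 := by
    linear_combination (b2 * b3 * (a2 * b3 - a3 * b2)) * h1 -
      (b1 * b3 * (a1 * b3 - a3 * b1)) * h2 + (b1 * b2 * (a1 * b2 - a2 * b1)) * h3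
  have k2 : (a1 * b2 - a2 * b1) * (a1 * b3 - a3 * b1) * (a2 * b3 - a3 * b2) * E2 = 0 := by
    linear_combination (a2 * a3 * (a2 * b3 - a3 * b2)) * h1 -
      (a1 * a3 * (a1 * b3 - a3 * b1)) * h2 + (a1 * a2 * (a1 * b2 - a2 * b1)) * h3
  have k1 : (a1 * b2 - a2 * b1) * (a1 * b3 - a3 * b1) * (a2 * b3 - a3 * b2) * E1 = 0 := by
    linear_combination (-(a2 * b3 + a3 * b2) * (a2 * b3 - a3 * b2)) * h1 +
      ((a1 * b3 + a3 * b1) * (a1 * b3 - a3 * b1)) * h2 -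
      ((a1 * b2 + a2 * b1) * (a1 * b2 - a2 * b1)) * h3
  have z0 := (mul_eq_zero.1 k0).resolve_left hd
  have z1 := (mul_eq_zero.1 k1).resolve_left hd
  have z2 := (mul_eq_zero.1 k2).resolve_left hd
  exact ⟨by linarith, by linarith, by linarith⟩

theorem sA_mul {m n : ℝ} (h : 1 - m * n ≠ 0) : sA m n * (1 - m * n) = n * ff m - ff n := by
  unfold sA; exact div_mul_cancel₀ _ h

theorem sB_mul {m n : ℝ} (h : 1 - m * n ≠ 0) : sB m n * (1 - m * n) = ff m - m * ff n := by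
  unfold sB; exact div_mul_cancel₀ _ h

theorem rel1 {m n : ℝ} (h : 1 - m * n ≠ 0) : m * sA m n - sB m n = -ff m := by
  have hA := sA_mul h
  have hB := sB_mul h
  have k : (1 - m * n) * (m * sA m n - sB m n + ff m) = 0 := by
    linear_combination m * hA - hB
  have := (mul_eq_zero.1 k).resolve_left h
  linarith

theorem rel2 {m n : ℝ} (h : 1 - m * n ≠ 0) : sA m n - n * sB m n = -ff n := by
  have hA := sA_mul h
  have hB := sB_mul h
  have k : (1 - m * n) * (sA m n - n * sB m n + ff n) = 0 := by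
    linear_combination hA - n * hB
  have := (mul_eq_zero.1 k).resolve_left h
  linarith

theorem crit1 {m n : ℝ} (h : 1 - m * n ≠ 0) : Crit (sA m n) (sB m n) (p1 m) (q1 m) := by
  have e := rel1 h
  have hd := (den_pos m).ne'
  have e2 : ff m * (1 + m + m ^ 2) = 3 * m * (1 + m) := by unfold ff; field_simp
  unfold Crit
  have e3 : qT (p1 m) (q1 m) = 3 * (1 + m + m ^ 2) := by unfold qT p1 q1; ring
  rw [e3]
  unfold p1 q1
  linear_combination (9 * (1 + m + m ^ 2)) * e - 9 * e2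

theorem crit2 {m n : ℝ} (h : 1 - m * n ≠ 0) : Crit (sA m n) (sB m n) (q1 n) (p1 n) := by
  have e := rel2 h
  have hd := (den_pos n).ne'
  have e2 : ff n * (1 + n + n ^ 2) = 3 * n * (1 + n) := by unfold ff; field_simp
  unfold Crit
  have e3 : qT (q1 n) (p1 n) = 3 * (1 + n + n ^ 2) := by unfold qT p1 q1; ring
  rw [e3]
  unfold p1 q1
  linear_combination (9 * (1 + n + n ^ 2)) * e - 9 * e2

theorem crit3 {m n : ℝ} (h : 1 - m * n ≠ 0) : Crit (sA m n) (sB m n) (p3 m n) (q3 m n) := by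
  have e := rel1 h
  have hd := (den_pos m).ne'
  have hd' := (den_pos n).ne'
  have e2 : ff m * (1 + m + m ^ 2) = 3 * m * (1 + m) := by unfold ff; field_simp
  have e2' : ff n * (1 + n + n ^ 2) = 3 * n * (1 + n) := by unfold ff; field_simp
  have e3 : qT (p3 m n) (q3 m n) = 3 * ((1 + n + m * n) ^ 2 - (1 + n + m * n) * (1 + m + m * n) +
      (1 + m + m * n) ^ 2) := by unfold qT p3 q3; ring
  have k1 : 2 * p3 m n - q3 m n = 3 * (1 + n + m * n) := by unfold p3 q3; ring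
  have k2 : 2 * q3 m n - p3 m n = -(3 * (1 + m + m * n)) := by unfold p3 q3; ring
  have k3 : p3 m n + q3 m n = 3 * (n - m) := by unfold p3 q3; ring
  have k4 : p3 m n - 2 * q3 m n = 3 * (1 + m + m * n) := by unfold p3 q3; ring
  unfold Crit
  rw [e3, k1, k2, k3, k4]
  have hA := sA_mul h
  have hB := sB_mul h
  have hmul : (1 - m * n) * ((1 + m + m ^ 2) * (1 + n + n ^ 2)) ≠ 0 :=
    mul_ne_zero h (mul_ne_zero hd hd')
  refine (mul_eq_zero.1 (?_ : (1 - m * n) * ((1 + m + m ^ 2) * (1 + n + n ^ 2)) * _ = 0)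
    ).resolve_left hmul
  have hA' : sA m n * ((1 - m * n) * ((1 + m + m ^ 2) * (1 + n + n ^ 2))) =
      n * (3 * m * (1 + m)) * (1 + n + n ^ 2) - (3 * n * (1 + n)) * (1 + m + m ^ 2) := by
    linear_combination ((1 + m + m ^ 2) * (1 + n + n ^ 2)) * hA + n * (1 + n + n ^ 2) * e2 -
      (1 + m + m ^ 2) * e2'
  have hB' : sB m n * ((1 - m * n) * ((1 + m + m ^ 2) * (1 + n + n ^ 2))) =
      (3 * m * (1 + m)) * (1 + n + n ^ 2) - m * (3 * n * (1 + n)) * (1 + m + m ^ 2) := by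
    linear_combination ((1 + m + m ^ 2) * (1 + n + n ^ 2)) * hB + (1 + n + n ^ 2) * e2 -
      m * (1 + m + m ^ 2) * e2'
  linear_combination
    (3 * ((1 + n + m * n) ^ 2 - (1 + n + m * n) * (1 + m + m * n) +
      (1 + m + m * n) ^ 2) * (-(3 * (1 + m + m * n)))) * hA' -
    (3 * ((1 + n + m * n) ^ 2 - (1 + n + m * n) * (1 + m + m * n) +
      (1 + m + m * n) ^ 2) * (3 * (1 + n + m * n))) * hB'

end Pool.Agent.TH309.Tor
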