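import Pool.Agent.TH309.Tor.Pde

/-! The crossing solution satisfies the equations. -/

set_option autoImplicit false

open Set Filter Topology
open scoped ContDiff

namespace Pool.Agent.TH309.Tor

noncomputable def fA (m : ℝ × ℝ → ℝ) (u : ℝ × ℝ) : ℝ := sA (m u) (m u.swap)
noncomputable def fB (m : ℝ × ℝ → ℝ) (u : ℝ × ℝ) : ℝ := sB (m u) (m u.swap)
noncomputable def fS (m : ℝ × ℝ → ℝ) (u : ℝ × ℝ) : ℝ :=
  (27 / 4 * g3 (m u) (m u.swap)) ^ (1 / 3 : ℝ)

def PdeAt (S A B : ℝ × ℝ → ℝ) (u : ℝ × ℝ) : Prop :=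
  Pde (S u) (A u) (B u) (fderiv ℝ S u (1, 0)) (fderiv ℝ S u (0, 1)) (fderiv ℝ A u (1, 0))
    (fderiv ℝ A u (0, 1)) (fderiv ℝ B u (1, 0)) (fderiv ℝ B u (0, 1))

theorem fderiv_dir (f : ℝ × ℝ → ℝ) (u v : ℝ × ℝ) :
    fderiv ℝ f u v = v.1 * fderiv ℝ f u (1, 0) + v.2 * fderiv ℝ f u (0, 1) := by
  have e : v = v.1 • ((1 : ℝ), (0 : ℝ)) + v.2 • ((0 : ℝ), (1 : ℝ)) := by
    ext <;> simp
  conv_lhs => rw [e]
  rw [map_add, map_smul, map_smul, smul_eq_mul, smul_eq_mul]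

theorem hasDerivAt_line {f : ℝ × ℝ → ℝ} {u : ℝ × ℝ} (hf : DifferentiableAt ℝ f u) (v : ℝ × ℝ) :
    HasDerivAt (fun τ : ℝ => f (u + τ • v)) (fderiv ℝ f u v) 0 := by
  have h1 : HasDerivAt (fun τ : ℝ => u + τ • v) v 0 := by
    have := ((hasDerivAt_id (0 : ℝ)).smul_const v).const_add u
    simpa using this
  have h2 : HasFDerivAt f (fderiv ℝ f u) (u + (0 : ℝ) • v) := by
    simpa using hf.hasFDerivAt
  exact HasFDerivAt.comp_hasDerivAt (l := f) (f := fun τ : ℝ => u + τ • v) 0 h2 h1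

section

variable {m : ℝ × ℝ → ℝ} (hm : ContDiff ℝ ∞ m) (hG : ∀ p : ℝ × ℝ, Good (m p, m p.swap))

include hm

theorem contDiff_pair : ContDiff ℝ ∞ (fun p : ℝ × ℝ => (m p, m p.swap)) :=
  hm.prodMk (hm.comp Cross.contDiff_swap)

include hG

theorem contDiff_fA : ContDiff ℝ ∞ (fA m) := by
  rw [contDiff_iff_contDiffAt]
  intro p
  exact ContDiffAt.comp (g := fun q : ℝ × ℝ => sA q.1 q.2)
    (f := fun p : ℝ × ℝ => (m p, m p.swap)) p (contDiffAt_sA (hG p).one_sub.ne')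
    (contDiff_pair hm).contDiffAt

theorem contDiff_fB : ContDiff ℝ ∞ (fB m) := by
  rw [contDiff_iff_contDiffAt]
  intro p
  exact ContDiffAt.comp (g := fun q : ℝ × ℝ => sB q.1 q.2)
    (f := fun p : ℝ × ℝ => (m p, m p.swap)) p (contDiffAt_sB (hG p).one_sub.ne')
    (contDiff_pair hm).contDiffAt

theorem contDiff_fg3 : ContDiff ℝ ∞ (fun p : ℝ × ℝ => g3 (m p) (m p.swap)) := by
  rw [contDiff_iff_contDiffAt]
  intro p
  exact ContDiffAt.comp (g := fun q : ℝ × ℝ => g3 q.1 q.2)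
    (f := fun p : ℝ × ℝ => (m p, m p.swap)) p (contDiffAt_g3 (hG p).one_sub.ne')
    (contDiff_pair hm).contDiffAt

theorem fg3_pos (p : ℝ × ℝ) : 0 < g3 (m p) (m p.swap) :=
  g3_pos (p := (m p, m p.swap)) (hG p).2.2.2.2

theorem fS_pos (p : ℝ × ℝ) : 0 < fS m p := by
  have := fg3_pos hm hG p
  unfold fS
  exact Real.rpow_pos_of_pos (by positivity) _

theorem fS_cube (p : ℝ × ℝ) : fS m p ^ 3 = 27 / 4 * g3 (m p) (m p.swap) := by
  have h := fg3_pos hm hG p
  unfold fS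
  rw [← Real.rpow_natCast, ← Real.rpow_mul (by positivity)]
  norm_num

theorem contDiff_fS : ContDiff ℝ ∞ (fS m) := by
  unfold fS
  refine ContDiff.rpow_const_of_ne (contDiff_const.mul (contDiff_fg3 hm hG)) fun p => ?_
  have := fg3_pos hm hG p
  positivity

theorem pde_cross
    (H : ∀ p : ℝ × ℝ, fderiv ℝ (fun p : ℝ × ℝ => Q1 (m p) (m p.swap)) p (1, m p) = 0)
    (u : ℝ × ℝ) : PdeAt (fS m) (fA m) (fB m) u := by
  have hgood := hG u
  obtain ⟨hb1, hb2, hF1, hF2, hF3⟩ := hgood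
  have hmn := (hG u).one_sub
  simp only at hb1 hb2 hmn
  set mu := m u with hmu
  set nu := m u.swap with hnu
  -- differentiability
  have dm : DifferentiableAt ℝ m u := hm.differentiable (by simp) u
  have dn : DifferentiableAt ℝ (fun p : ℝ × ℝ => m p.swap) u :=
    (hm.comp Cross.contDiff_swap).differentiable (by simp) u
  have dA : DifferentiableAt ℝ (fA m) u := (contDiff_fA hm hG).differentiable (by simp) u
  have dB : DifferentiableAt ℝ (fB m) u := (contDiff_fB hm hG).differentiable (by simp) u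
  have dS : DifferentiableAt ℝ (fS m) u := (contDiff_fS hm hG).differentiable (by simp) u
  have dg : DifferentiableAt ℝ (fun p : ℝ × ℝ => g3 (m p) (m p.swap)) u :=
    (contDiff_fg3 hm hG).differentiable (by simp) u
  have hSp := fS_pos hm hG u
  -- the cube relation
  have hcube : ∀ v : ℝ × ℝ, 3 * fS m u ^ 2 * fderiv ℝ (fS m) u v =
      27 / 4 * fderiv ℝ (fun p : ℝ × ℝ => g3 (m p) (m p.swap)) u v := by
    intro v
    have h1 := (hasDerivAt_line dS v).fun_pow 3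
    have h2 := (hasDerivAt_line dg v).const_mul (27 / 4)
    have h3 : (fun τ : ℝ => fS m (u + τ • v) ^ 3) =
        fun τ : ℝ => 27 / 4 * g3 (m (u + τ • v)) (m (u + τ • v).swap) := by
      funext τ; exact fS_cube hm hG _
    rw [h3] at h1
    have h4 := h1.unique h2
    rw [← h4]
    simp
  -- derivatives of the critical values
  have key1 : ∀ v : ℝ × ℝ, HasDerivAt
      (fun τ : ℝ => g1 (m (u + τ • v)) (m (u + τ • v).swap))
      (2 * qF (fA m u) (fB m u) (p1 mu) (q1 mu) / qT (p1 mu) (q1 mu) ^ 2 *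
        (p1 mu * fderiv ℝ (fA m) u v + q1 mu * fderiv ℝ (fB m) u v)) 0 := by
    intro v
    have h1 := hasDerivAt_line dA v
    have h2 := hasDerivAt_line dB v
    have h3 : HasDerivAt (fun τ : ℝ => p1 (m (u + τ • v))) (fderiv ℝ m u v) 0 :=
      (hasDerivAt_line dm v).const_add 2
    have h4 : HasDerivAt (fun τ : ℝ => q1 (m (u + τ • v))) (2 * fderiv ℝ m u v) 0 :=
      ((hasDerivAt_line dm v).const_mul 2).const_add 1
    have e0 : u + (0 : ℝ) • v = u := by simp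
    have h5 := crit_deriv h1 h2 h3 h4 (by
      rw [e0]; exact crit1 hmn.ne') (by rw [e0]; exact qT1_pos _)
    rw [e0] at h5
    exact h5
  have key2 : ∀ v : ℝ × ℝ, HasDerivAt
      (fun τ : ℝ => g2 (m (u + τ • v)) (m (u + τ • v).swap))
      (2 * qF (fA m u) (fB m u) (q1 nu) (p1 nu) / qT (q1 nu) (p1 nu) ^ 2 *
        (q1 nu * fderiv ℝ (fA m) u v + p1 nu * fderiv ℝ (fB m) u v)) 0 := by
    intro v
    have h1 := hasDerivAt_line dA v
    have h2 := hasDerivAt_line dB v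
    have h3 : HasDerivAt (fun τ : ℝ => p1 (m (u + τ • v).swap))
        (fderiv ℝ (fun p : ℝ × ℝ => m p.swap) u v) 0 :=
      (hasDerivAt_line dn v).const_add 2
    have h4 : HasDerivAt (fun τ : ℝ => q1 (m (u + τ • v).swap))
        (2 * fderiv ℝ (fun p : ℝ × ℝ => m p.swap) u v) 0 :=
      ((hasDerivAt_line dn v).const_mul 2).const_add 1
    have e0 : u + (0 : ℝ) • v = u := by simp
    have h5 := crit_deriv h1 h2 h4 h3 (by
      rw [e0]; exact crit2 hmn.ne') (by rw [e0, qT_swap]; exact qT1_pos _)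
    rw [e0] at h5
    exact h5
  have key3 : ∀ v : ℝ × ℝ, HasDerivAt
      (fun τ : ℝ => g3 (m (u + τ • v)) (m (u + τ • v).swap))
      (2 * qF (fA m u) (fB m u) (p3 mu nu) (q3 mu nu) / qT (p3 mu nu) (q3 mu nu) ^ 2 *
        (p3 mu nu * fderiv ℝ (fA m) u v + q3 mu nu * fderiv ℝ (fB m) u v)) 0 := by
    intro v
    have h1 := hasDerivAt_line dA v
    have h2 := hasDerivAt_line dB v
    have hm1 := hasDerivAt_line dm v
    have hn1 := hasDerivAt_line dn v
    have h3 := (((hn1.const_mul 2).const_add 1).fun_sub hm1).fun_add (hm1.fun_mul hn1)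
    have h4 := (((hn1.const_add (-1)).fun_sub (hm1.const_mul 2))).fun_sub (hm1.fun_mul hn1)
    have e0 : u + (0 : ℝ) • v = u := by simp
    have h5 := crit_deriv (p := fun τ => p3 (m (u + τ • v)) (m (u + τ • v).swap))
      (q := fun τ => q3 (m (u + τ • v)) (m (u + τ • v).swap)) h1 h2 h3 h4 (by
      rw [e0]; exact crit3 hmn.ne') (by rw [e0]; exact qT3_pos _ _)
    rw [e0] at h5
    exact h5
  have hF1' : qF (fA m u) (fB m u) (p1 mu) (q1 mu) ≠ 0 := hF1
  have hF3' : qF (fA m u) (fB m u) (p3 mu nu) (q3 mu nu) ≠ 0 := hF3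
  have hF2' : qF (fA m u) (fB m u) (q1 nu) (p1 nu) ≠ 0 := by
    have e : qF (fA m u) (fB m u) (q1 nu) (p1 nu) = - f1 ((mu, nu) : ℝ × ℝ).swap := by
      unfold f1 fA fB
      simp only [Prod.swap_prod_mk]
      rw [qF_swap, sA_swap mu nu, sB_swap mu nu]
    rw [e]
    exact neg_ne_zero.2 hF2
  -- the third relation holds in all directions
  have rel3 : ∀ v : ℝ × ℝ, 2 * qT (p3 mu nu) (q3 mu nu) * fS m u *
      (p3 mu nu * fderiv ℝ (fA m) u v + q3 mu nu * fderiv ℝ (fB m) u v) =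
      3 * qF (fA m u) (fB m u) (p3 mu nu) (q3 mu nu) * fderiv ℝ (fS m) u v := by
    intro v
    have h1 := (hasDerivAt_line dg v).unique (key3 v)
    exact rel_of hF3' (qT3_pos _ _) hSp (g := g3 mu nu) rfl (g' := _) rfl
      (fS_cube hm hG u) (hcube v) (by rw [← h1]; ring)
  have rel1 : 2 * qT (p1 mu) (q1 mu) * fS m u *
      (p1 mu * fderiv ℝ (fA m) u (1, mu) + q1 mu * fderiv ℝ (fB m) u (1, mu)) =
      3 * qF (fA m u) (fB m u) (p1 mu) (q1 mu) * fderiv ℝ (fS m) u (1, mu) := by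
    have h1 := key1 (1, mu)
    have h2 := hasDerivAt_line dg (1, mu)
    have e0 : u + (0 : ℝ) • ((1 : ℝ), mu) = u := by simp
    have hne : g3 (m (u + (0 : ℝ) • ((1 : ℝ), mu))) (m (u + (0 : ℝ) • ((1 : ℝ), mu)).swap) ≠ 0 :=
      (fg3_pos hm hG _).ne'
    have h3 := h1.fun_div h2 hne
    have hQd : DifferentiableAt ℝ (fun p : ℝ × ℝ => Q1 (m p) (m p.swap)) u := by
      have e1 : ContDiffAt ℝ ∞ (fun q : ℝ × ℝ => Q1 q.1 q.2) (m u, m u.swap) :=
        contDiffAt_Q1 (hG u).one_sub.ne' (hG u).2.2.2.2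
      have e3 : ContDiffAt ℝ ∞ (fun p : ℝ × ℝ => Q1 (m p) (m p.swap)) u :=
        ContDiffAt.comp (g := fun q : ℝ × ℝ => Q1 q.1 q.2)
          (f := fun p : ℝ × ℝ => (m p, m p.swap)) u e1 (contDiff_pair hm).contDiffAt
      exact e3.differentiableAt (by simp)
    have h4 := hasDerivAt_line hQd (1, mu)
    have h5 := h3.unique h4
    rw [H u] at h5
    rw [e0] at h5 hne
    rw [div_eq_zero_iff] at h5
    have h6 := h5.resolve_right (pow_ne_zero 2 hne)
    exact rel_of hF1' (qT1_pos _) hSp (g := g1 mu nu) rfl (g' := _) rfl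
      (fS_cube hm hG u) (hcube (1, mu)) (by linarith)
  have rel2 : 2 * qT (q1 nu) (p1 nu) * fS m u *
      (q1 nu * fderiv ℝ (fA m) u (nu, 1) + p1 nu * fderiv ℝ (fB m) u (nu, 1)) =
      3 * qF (fA m u) (fB m u) (q1 nu) (p1 nu) * fderiv ℝ (fS m) u (nu, 1) := by
    have h1 := key2 (nu, 1)
    have h2 := hasDerivAt_line dg (nu, 1)
    have e0 : u + (0 : ℝ) • (nu, (1 : ℝ)) = u := by simp
    have hne : g3 (m (u + (0 : ℝ) • (nu, (1 : ℝ)))) (m (u + (0 : ℝ) • (nu, (1 : ℝ))).swap) ≠ 0 :=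
      (fg3_pos hm hG _).ne'
    have h3 := h1.fun_div h2 hne
    -- derivative of `Q1` at the swapped point
    have hQd : DifferentiableAt ℝ (fun p : ℝ × ℝ => Q1 (m p) (m p.swap)) u.swap := by
      have e1 : ContDiffAt ℝ ∞ (fun q : ℝ × ℝ => Q1 q.1 q.2) (m u.swap, m u.swap.swap) :=
        contDiffAt_Q1 (hG u.swap).one_sub.ne' (hG u.swap).2.2.2.2
      have e3 : ContDiffAt ℝ ∞ (fun p : ℝ × ℝ => Q1 (m p) (m p.swap)) u.swap :=
        ContDiffAt.comp (g := fun q : ℝ × ℝ => Q1 q.1 q.2)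
          (f := fun p : ℝ × ℝ => (m p, m p.swap)) u.swap e1 (contDiff_pair hm).contDiffAt
      exact e3.differentiableAt (by simp)
    have h4 := hasDerivAt_line hQd (1, nu)
    have h4' : HasDerivAt (fun τ : ℝ => g2 (m (u + τ • (nu, (1 : ℝ)))) (m (u + τ • (nu, (1 : ℝ))).swap) /
        g3 (m (u + τ • (nu, (1 : ℝ)))) (m (u + τ • (nu, (1 : ℝ))).swap))
        (fderiv ℝ (fun p : ℝ × ℝ => Q1 (m p) (m p.swap)) u.swap (1, nu)) 0 := by
      have e : (fun τ : ℝ => g2 (m (u + τ • (nu, (1 : ℝ)))) (m (u + τ • (nu, (1 : ℝ))).swap) /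
          g3 (m (u + τ • (nu, (1 : ℝ)))) (m (u + τ • (nu, (1 : ℝ))).swap)) =
          fun τ : ℝ => Q1 (m (u.swap + τ • ((1 : ℝ), nu))) (m (u.swap + τ • ((1 : ℝ), nu)).swap) := by
        funext τ
        have e1 : u.swap + τ • ((1 : ℝ), nu) = (u + τ • (nu, (1 : ℝ))).swap := by
          ext <;> simp
        rw [e1, Prod.swap_swap]
        exact Q2_eq _ _
      rw [e]
      exact h4
    have h5 := h3.unique h4'
    rw [hnu, H u.swap] at h5
    rw [← hnu] at h5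
    rw [e0] at h5 hne
    rw [div_eq_zero_iff] at h5
    have h6 := h5.resolve_right (pow_ne_zero 2 hne)
    exact rel_of hF2' (by rw [qT_swap]; exact qT1_pos _) hSp (g := g2 mu nu) rfl (g' := _) rfl
      (fS_cube hm hG u) (hcube (nu, 1)) (by linarith)
  -- the quadratic form vanishes at three directions
  refine pde_of_three (a1 := p1 mu) (b1 := q1 mu) (a2 := q1 nu) (b2 := p1 nu)
    (a3 := p3 mu nu) (b3 := q3 mu nu) ?_ ?_ ?_ ?_ ?_ ?_
  · refine Ebr_zero (crit1 hmn.ne') (qT1_pos _) ?_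
    rw [fderiv_dir (fA m), fderiv_dir (fB m), fderiv_dir (fS m)] at rel1
    have k1 : 2 * p1 mu - q1 mu = 3 := by unfold p1 q1; ring
    have k2 : 2 * q1 mu - p1 mu = 3 * mu := by unfold p1 q1; ring
    rw [k1, k2]
    simp only [one_mul] at rel1
    linear_combination 3 * rel1
  · refine Ebr_zero (crit2 hmn.ne') (by rw [qT_swap]; exact qT1_pos _) ?_
    rw [fderiv_dir (fA m), fderiv_dir (fB m), fderiv_dir (fS m)] at rel2
    have k1 : 2 * q1 nu - p1 nu = 3 * nu := by unfold p1 q1; ring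
    have k2 : 2 * p1 nu - q1 nu = 3 := by unfold p1 q1; ring
    rw [k1, k2]
    simp only [one_mul] at rel2
    linear_combination 3 * rel2
  · refine Ebr_zero (crit3 hmn.ne') (qT3_pos _ _) ?_
    have r := rel3 (2 * p3 mu nu - q3 mu nu, 2 * q3 mu nu - p3 mu nu)
    rw [fderiv_dir (fA m), fderiv_dir (fB m), fderiv_dir (fS m)] at r
    exact r
  · have e : p1 mu * p1 nu - q1 nu * q1 mu = 3 * (1 - mu * nu) := by unfold p1 q1; ring
    rw [e]; positivity
  · have e : p1 mu * q3 mu nu - p3 mu nu * q1 mu =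
        -(3 * (1 + 2 * mu + 2 * (mu * nu) + mu * (mu * nu))) := by unfold p1 q1 p3 q3; ring
    rw [e]
    have h1 := abs_lt.1 hb1
    have h2 : |mu * nu| ≤ 1 / 10 * (1 / 10) := by
      rw [abs_mul]; exact mul_le_mul hb1.le hb2.le (abs_nonneg _) (by norm_num)
    have h3 : |mu * (mu * nu)| ≤ 1 / 10 * (1 / 10 * (1 / 10)) := by
      rw [abs_mul]; exact mul_le_mul hb1.le h2 (abs_nonneg _) (by norm_num)
    have h2' := abs_le.1 h2
    have h3' := abs_le.1 h3
    intro h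
    linarith
  · have e : q1 nu * q3 mu nu - p3 mu nu * p1 nu =
        -(3 * (1 + 2 * nu + 2 * (mu * nu) + nu * (mu * nu))) := by unfold p1 q1 p3 q3; ring
    rw [e]
    have h1 := abs_lt.1 hb2
    have h2 : |mu * nu| ≤ 1 / 10 * (1 / 10) := by
      rw [abs_mul]; exact mul_le_mul hb1.le hb2.le (abs_nonneg _) (by norm_num)
    have h3 : |nu * (mu * nu)| ≤ 1 / 10 * (1 / 10 * (1 / 10)) := by
      rw [abs_mul]; exact mul_le_mul hb2.le h2 (abs_nonneg _) (by norm_num)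
    have h2' := abs_le.1 h2
    have h3' := abs_le.1 h3
    intro h
    linarith

end

end Pool.Agent.TH309.Tor
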