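import Pool.Agent.TH309.Tor.Gour

/-! The algebra of the two-wave states. -/

set_option autoImplicit false

open Set Filter Topology
open scoped ContDiff

namespace Pool.Agent.TH309.Tor

noncomputable def ff (x : ℝ) : ℝ := 3 * x * (1 + x) / (1 + x + x ^ 2)

noncomputable def sA (m n : ℝ) : ℝ := (n * ff m - ff n) / (1 - m * n)

noncomputable def sB (m n : ℝ) : ℝ := (ff m - m * ff n) / (1 - m * n)

def qT (p q : ℝ) : ℝ := p ^ 2 - p * q + q ^ 2

def qF (A B p q : ℝ) : ℝ := p * q * (p - q) + qT p q * (A * p + B * q)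

/-- critical directions -/
def p1 (m : ℝ) : ℝ := 2 + m
def q1 (m : ℝ) : ℝ := 1 + 2 * m
def p3 (m n : ℝ) : ℝ := 1 + 2 * n - m + m * n
def q3 (m n : ℝ) : ℝ := -1 + n - 2 * m - m * n

noncomputable def g1 (m n : ℝ) : ℝ := qF (sA m n) (sB m n) (p1 m) (q1 m) ^ 2 / qT (p1 m) (q1 m) ^ 3
noncomputable def g2 (m n : ℝ) : ℝ := qF (sA m n) (sB m n) (q1 n) (p1 n) ^ 2 / qT (q1 n) (p1 n) ^ 3
noncomputable def g3 (m n : ℝ) : ℝ :=
  qF (sA m n) (sB m n) (p3 m n) (q3 m n) ^ 2 / qT (p3 m n) (q3 m n) ^ 3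

theorem den_pos (x : ℝ) : 0 < 1 + x + x ^ 2 := by nlinarith [sq_nonneg (x + 1 / 2)]

theorem qT_pos {p q : ℝ} (h : p ≠ 0 ∨ q ≠ 0) : 0 < qT p q := by
  unfold qT
  rcases h with h | h
  · have := sq_pos_of_ne_zero h
    nlinarith [sq_nonneg (q - p / 2)]
  · have := sq_pos_of_ne_zero h
    nlinarith [sq_nonneg (p - q / 2)]

theorem sA_swap (m n : ℝ) : sA n m = -sB m n := by
  unfold sA sB; rw [mul_comm n m]; ring

theorem sB_swap (m n : ℝ) : sB n m = -sA m n := by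
  unfold sA sB; rw [mul_comm n m]; ring

theorem qT_swap (p q : ℝ) : qT q p = qT p q := by unfold qT; ring

theorem qT_neg (p q : ℝ) : qT (-p) (-q) = qT p q := by unfold qT; ring

theorem qF_swap (A B p q : ℝ) : qF A B q p = -qF (-B) (-A) p q := by unfold qF qT; ring

theorem qF_neg (A B p q : ℝ) : qF A B (-p) (-q) = -qF A B p q := by unfold qF qT; ring

theorem g2_eq (m n : ℝ) : g2 m n = g1 n m := by
  unfold g2 g1
  rw [sA_swap m n, sB_swap m n, qT_swap, qF_swap, neg_sq]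

theorem g3_swap (m n : ℝ) : g3 n m = g3 m n := by
  unfold g3
  have e1 : p3 n m = -q3 m n := by unfold p3 q3; ring
  have e2 : q3 n m = -p3 m n := by unfold p3 q3; ring
  rw [sA_swap m n, sB_swap m n, e1, e2, qT_neg, qT_swap, qF_neg, qF_swap, neg_neg, neg_neg,
    neg_neg]

noncomputable def Q1 (m n : ℝ) : ℝ := g1 m n / g3 m n
noncomputable def Q2 (m n : ℝ) : ℝ := g2 m n / g3 m n

theorem Q2_eq (m n : ℝ) : Q2 m n = Q1 n m := by
  unfold Q1 Q2; rw [g2_eq, g3_swap]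

noncomputable def ss (x : ℝ) : ℝ := (1 + 2 * x) ^ 2 / (1 + x + x ^ 2)

noncomputable def qq (x : ℝ) : ℝ := (4 - 3 * ss x) ^ 2 / ss x ^ 3

theorem ff_zero : ff 0 = 0 := by simp [ff]

theorem sA_zero_left (n : ℝ) : sA 0 n = - ff n := by unfold sA; rw [ff_zero]; ring

theorem sB_zero_left (n : ℝ) : sB 0 n = 0 := by unfold sB; rw [ff_zero]; ring

theorem sA_zero_right (m : ℝ) : sA m 0 = 0 := by unfold sA; rw [ff_zero]; ring

theorem sB_zero_right (m : ℝ) : sB m 0 = ff m := by unfold sB; rw [ff_zero]; ring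

theorem ss_eq (x : ℝ) : ss x = 1 + ff x := by
  unfold ss ff
  have := (den_pos x).ne'
  field_simp
  ring

theorem g3_zero_left (n : ℝ) : g3 0 n = 4 / 27 * ss n ^ 3 := by
  unfold g3
  rw [sA_zero_left, sB_zero_left]
  have h := (den_pos n).ne'
  have e1 : qT (p3 0 n) (q3 0 n) = 3 * (1 + n + n ^ 2) := by unfold qT p3 q3; ring
  have e2 : qF (-ff n) 0 (p3 0 n) (q3 0 n) = -2 * (1 + 2 * n) ^ 3 := by
    unfold qF
    rw [e1]
    unfold ff p3 q3
    field_simp
    ring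
  rw [e1, e2]
  unfold ss
  field_simp
  ring

theorem g1_zero_left (n : ℝ) : g1 0 n = 4 / 27 * (4 - 3 * ss n) ^ 2 := by
  unfold g1
  rw [sA_zero_left, sB_zero_left, ss_eq]
  unfold qF qT p1 q1
  ring

theorem g1_zero_right (m : ℝ) : g1 m 0 = 4 / 27 * ss m ^ 3 := by
  unfold g1
  rw [sA_zero_right, sB_zero_right]
  have h := (den_pos m).ne'
  have e1 : qT (p1 m) (q1 m) = 3 * (1 + m + m ^ 2) := by unfold qT p1 q1; ring
  have e2 : qF 0 (ff m) (p1 m) (q1 m) = 2 * (1 + 2 * m) ^ 3 := by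
    unfold qF
    rw [e1]
    unfold ff p1 q1
    field_simp
    ring
  rw [e1, e2]
  unfold ss
  field_simp
  ring

theorem Q1_zero_left {n : ℝ} (hn : 1 + 2 * n ≠ 0) : Q1 0 n = qq n := by
  unfold Q1 qq
  rw [g1_zero_left, g3_zero_left]
  have h : ss n ≠ 0 := by
    unfold ss
    have := (den_pos n).ne'
    positivity
  field_simp

theorem Q1_zero_right {m : ℝ} (hm : 1 + 2 * m ≠ 0) : Q1 m 0 = 1 := by
  unfold Q1
  have e := g3_zero_left m
  rw [g3_swap] at e
  rw [g1_zero_right, e]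
  have h : ss m ≠ 0 := by
    unfold ss
    have := (den_pos m).ne'
    positivity
  field_simp

theorem qq_zero : qq 0 = 1 := by unfold qq ss; norm_num

theorem hasDerivAt_ss : HasDerivAt ss 3 0 := by
  have h1 : HasDerivAt (fun x : ℝ => (1 + 2 * x) ^ 2) 4 0 := by
    refine ((((hasDerivAt_id' (0 : ℝ)).const_mul 2).const_add 1).fun_pow 2).congr_deriv ?_
    norm_num
  have h2 : HasDerivAt (fun x : ℝ => 1 + x + x ^ 2) 1 0 := by
    refine (((hasDerivAt_id' (0 : ℝ)).const_add 1).fun_add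
      ((hasDerivAt_id' (0 : ℝ)).fun_pow 2)).congr_deriv ?_
    norm_num
  refine (h1.fun_div h2 (by norm_num)).congr_deriv ?_
  norm_num

theorem hasDerivAt_qq : HasDerivAt qq (-27) 0 := by
  have h0 : ss 0 = 1 := by unfold ss; norm_num
  have h1 := ((hasDerivAt_ss.const_mul 3).const_sub 4).fun_pow 2
  have h2 := hasDerivAt_ss.fun_pow 3
  refine (h1.fun_div h2 (by rw [h0]; norm_num)).congr_deriv ?_
  rw [h0]
  norm_num

end Pool.Agent.TH309.Tor
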