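import Pool.Agent.TH309.Tor.St

/-! The two-wave states as a smooth function of the two wave amplitudes. -/

set_option autoImplicit false

open Set Filter Topology
open scoped ContDiff

namespace Pool.Agent.TH309.Tor

noncomputable def mM (p : ℝ × ℝ) : ℝ × ℝ := (Q1 p.1 p.2, Q2 p.1 p.2)

noncomputable def f1 (p : ℝ × ℝ) : ℝ := qF (sA p.1 p.2) (sB p.1 p.2) (p1 p.1) (q1 p.1)
noncomputable def f3 (p : ℝ × ℝ) : ℝ :=
  qF (sA p.1 p.2) (sB p.1 p.2) (p3 p.1 p.2) (q3 p.1 p.2)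

theorem qT1_pos (m : ℝ) : 0 < qT (p1 m) (q1 m) := by
  have e1 : qT (p1 m) (q1 m) = 3 * (1 + m + m ^ 2) := by unfold qT p1 q1; ring
  rw [e1]; have := den_pos m; positivity

theorem qT3_pos (m n : ℝ) : 0 < qT (p3 m n) (q3 m n) := by
  refine qT_pos ?_
  by_contra h
  push Not at h
  obtain ⟨h1, h2⟩ := h
  unfold p3 at h1
  unfold q3 at h2
  have e : n = m := by linarith
  subst e
  have := den_pos n
  nlinarith

theorem contDiff_ff : ContDiff ℝ ∞ ff := by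
  unfold ff
  exact ContDiff.div (by fun_prop) (by fun_prop) fun x => (den_pos x).ne'

theorem contDiffAt_sA {p : ℝ × ℝ} (h : 1 - p.1 * p.2 ≠ 0) :
    ContDiffAt ℝ ∞ (fun p : ℝ × ℝ => sA p.1 p.2) p := by
  have hf := contDiff_ff
  unfold sA
  refine ContDiffAt.div ?_ (by fun_prop) h
  have h1 : ContDiff ℝ ∞ fun p : ℝ × ℝ => ff p.1 := hf.comp contDiff_fst
  have h2 : ContDiff ℝ ∞ fun p : ℝ × ℝ => ff p.2 := hf.comp contDiff_snd
  fun_prop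

theorem contDiffAt_sB {p : ℝ × ℝ} (h : 1 - p.1 * p.2 ≠ 0) :
    ContDiffAt ℝ ∞ (fun p : ℝ × ℝ => sB p.1 p.2) p := by
  have hf := contDiff_ff
  unfold sB
  refine ContDiffAt.div ?_ (by fun_prop) h
  have h1 : ContDiff ℝ ∞ fun p : ℝ × ℝ => ff p.1 := hf.comp contDiff_fst
  have h2 : ContDiff ℝ ∞ fun p : ℝ × ℝ => ff p.2 := hf.comp contDiff_snd
  fun_prop

theorem contDiffAt_f1 {p : ℝ × ℝ} (h : 1 - p.1 * p.2 ≠ 0) : ContDiffAt ℝ ∞ f1 p := by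
  unfold f1 qF qT p1 q1
  have hA := contDiffAt_sA h
  have hB := contDiffAt_sB h
  fun_prop

theorem contDiffAt_f3 {p : ℝ × ℝ} (h : 1 - p.1 * p.2 ≠ 0) : ContDiffAt ℝ ∞ f3 p := by
  unfold f3 qF qT p3 q3
  have hA := contDiffAt_sA h
  have hB := contDiffAt_sB h
  fun_prop

theorem contDiffAt_g1 {p : ℝ × ℝ} (h : 1 - p.1 * p.2 ≠ 0) :
    ContDiffAt ℝ ∞ (fun p : ℝ × ℝ => g1 p.1 p.2) p := by
  have h1 := contDiffAt_f1 h
  have e : (fun p : ℝ × ℝ => g1 p.1 p.2) = fun p => f1 p ^ 2 / qT (p1 p.1) (q1 p.1) ^ 3 := rfl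
  rw [e]
  refine ContDiffAt.div (h1.pow 2) ?_ (pow_pos (qT1_pos _) 3).ne'
  unfold qT p1 q1
  fun_prop

theorem contDiffAt_g3 {p : ℝ × ℝ} (h : 1 - p.1 * p.2 ≠ 0) :
    ContDiffAt ℝ ∞ (fun p : ℝ × ℝ => g3 p.1 p.2) p := by
  have h1 := contDiffAt_f3 h
  have e : (fun p : ℝ × ℝ => g3 p.1 p.2) =
    fun p => f3 p ^ 2 / qT (p3 p.1 p.2) (q3 p.1 p.2) ^ 3 := rfl
  rw [e]
  refine ContDiffAt.div (h1.pow 2) ?_ (pow_pos (qT3_pos _ _) 3).ne'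
  unfold qT p3 q3
  fun_prop

theorem g3_pos {p : ℝ × ℝ} (h : f3 p ≠ 0) : 0 < g3 p.1 p.2 := by
  have h1 := qT3_pos p.1 p.2
  have e : g3 p.1 p.2 = f3 p ^ 2 / qT (p3 p.1 p.2) (q3 p.1 p.2) ^ 3 := rfl
  rw [e]
  positivity

theorem contDiffAt_Q1 {p : ℝ × ℝ} (h : 1 - p.1 * p.2 ≠ 0) (h3 : f3 p ≠ 0) :
    ContDiffAt ℝ ∞ (fun p : ℝ × ℝ => Q1 p.1 p.2) p :=
  (contDiffAt_g1 h).div (contDiffAt_g3 h) (g3_pos h3).ne'

theorem f3_swap (p : ℝ × ℝ) : f3 p.swap = f3 p := by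
  unfold f3
  have e1 : p3 p.2 p.1 = -q3 p.1 p.2 := by unfold p3 q3; ring
  have e2 : q3 p.2 p.1 = -p3 p.1 p.2 := by unfold p3 q3; ring
  simp only [Prod.fst_swap, Prod.snd_swap]
  rw [sA_swap p.1 p.2, sB_swap p.1 p.2, e1, e2, qF_neg, qF_swap]
  simp only [neg_neg]

theorem mM_swap (p : ℝ × ℝ) : mM p.swap = (mM p).swap := by
  unfold mM
  simp only [Prod.fst_swap, Prod.snd_swap, Prod.swap_prod_mk, Q2_eq]

theorem contDiffAt_mM {p : ℝ × ℝ} (h : 1 - p.1 * p.2 ≠ 0) (h3 : f3 p ≠ 0) :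
    ContDiffAt ℝ ∞ mM p := by
  have h1 := contDiffAt_Q1 h h3
  have h2 : ContDiffAt ℝ ∞ (fun p : ℝ × ℝ => Q2 p.1 p.2) p := by
    have e : (fun p : ℝ × ℝ => Q2 p.1 p.2) = (fun p : ℝ × ℝ => Q1 p.1 p.2) ∘ Prod.swap := by
      funext p; exact Q2_eq _ _
    rw [e]
    refine ContDiffAt.comp p (contDiffAt_Q1 ?_ ?_) ?_
    · simpa [mul_comm] using h
    · rwa [f3_swap]
    · exact (contDiff_snd.prodMk contDiff_fst).contDiffAt
  exact h1.prodMk h2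

theorem f3_zero : f3 (0, 0) = -2 := by
  unfold f3
  simp only
  rw [sA_zero_left, sB_zero_left, ff_zero]
  unfold qF qT p3 q3
  norm_num

theorem f1_zero : f1 (0, 0) = 2 := by
  unfold f1
  simp only
  rw [sA_zero_left, sB_zero_left, ff_zero]
  unfold qF qT p1 q1
  norm_num

/-- the good states -/
def Good (p : ℝ × ℝ) : Prop :=
  |p.1| < 1 / 10 ∧ |p.2| < 1 / 10 ∧ f1 p ≠ 0 ∧ f1 p.swap ≠ 0 ∧ f3 p ≠ 0

theorem Good.swap {p : ℝ × ℝ} (h : Good p) : Good p.swap := by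
  obtain ⟨h1, h2, h3, h4, h5⟩ := h
  exact ⟨h2, h1, h4, by simpa using h3, by rwa [f3_swap]⟩

theorem Good.one_sub {p : ℝ × ℝ} (h : Good p) : 0 < 1 - p.1 * p.2 := by
  obtain ⟨h1, h2, -⟩ := h
  have : |p.1 * p.2| ≤ 1 / 10 * (1 / 10) := by
    rw [abs_mul]; exact mul_le_mul h1.le h2.le (abs_nonneg _) (by norm_num)
  have := (abs_le.1 this).2
  linarith

theorem eventually_good : ∀ᶠ p in 𝓝 ((0 : ℝ), (0 : ℝ)), Good p := by
  have h0 : (1 : ℝ) - ((0 : ℝ), (0 : ℝ)).1 * ((0 : ℝ), (0 : ℝ)).2 ≠ 0 := by norm_num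
  have c1 := (contDiffAt_f1 h0).continuousAt
  have c3 := (contDiffAt_f3 h0).continuousAt
  have sw : ContinuousAt (Prod.swap : ℝ × ℝ → ℝ × ℝ) ((0 : ℝ), (0 : ℝ)) :=
    continuous_swap.continuousAt
  have c2 : ContinuousAt (fun p : ℝ × ℝ => f1 p.swap) ((0 : ℝ), (0 : ℝ)) :=
    ContinuousAt.comp (g := f1) c1 sw
  have e1 : ∀ᶠ p : ℝ × ℝ in 𝓝 ((0 : ℝ), (0 : ℝ)), |p.1| < 1 / 10 := by
    have : ContinuousAt (fun p : ℝ × ℝ => |p.1|) ((0 : ℝ), (0 : ℝ)) := by fun_prop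
    exact this.eventually_lt continuousAt_const (by norm_num)
  have e2 : ∀ᶠ p : ℝ × ℝ in 𝓝 ((0 : ℝ), (0 : ℝ)), |p.2| < 1 / 10 := by
    have : ContinuousAt (fun p : ℝ × ℝ => |p.2|) ((0 : ℝ), (0 : ℝ)) := by fun_prop
    exact this.eventually_lt continuousAt_const (by norm_num)
  have e3 := c1.eventually_ne (y := 0) (by rw [f1_zero]; norm_num)
  have e4 := c2.eventually_ne (y := 0) (by
    simp only [Prod.swap_prod_mk]; rw [f1_zero]; norm_num)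
  have e5 := c3.eventually_ne (y := 0) (by rw [f3_zero]; norm_num)
  filter_upwards [e1, e2, e3, e4, e5] with p a b c d e
  exact ⟨a, b, c, d, e⟩

/-- the derivative at the origin -/
noncomputable def mM' : (ℝ × ℝ) ≃L[ℝ] (ℝ × ℝ) :=
  ContinuousLinearEquiv.equivOfInverse
    ((-27 : ℝ) • ((ContinuousLinearMap.snd ℝ ℝ ℝ).prod (ContinuousLinearMap.fst ℝ ℝ ℝ)))
    ((-1 / 27 : ℝ) • ((ContinuousLinearMap.snd ℝ ℝ ℝ).prod (ContinuousLinearMap.fst ℝ ℝ ℝ)))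
    (fun v => by ext <;> simp <;> ring) (fun v => by ext <;> simp <;> ring)

theorem mM'_apply (v : ℝ × ℝ) : mM' v = (-27 * v.2, -27 * v.1) := by
  simp [mM']

theorem hasStrict : HasStrictFDerivAt mM (mM' : (ℝ × ℝ) →L[ℝ] (ℝ × ℝ)) (0, 0) := by
  have h0 : (1 : ℝ) - ((0 : ℝ), (0 : ℝ)).1 * ((0 : ℝ), (0 : ℝ)).2 ≠ 0 := by norm_num
  have hc := contDiffAt_mM h0 (by rw [f3_zero]; norm_num)
  have hs := hc.hasStrictFDerivAt (by simp)
  have hd := hs.hasFDerivAt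
  have hne : ∀ᶠ x in 𝓝 (0 : ℝ), 1 + 2 * x ≠ 0 := by
    have : ContinuousAt (fun x : ℝ => 1 + 2 * x) 0 := by fun_prop
    exact this.eventually_ne (by norm_num)
  have k1 : fderiv ℝ mM (0, 0) (1, 0) = (0, -27) := by
    have h1 : HasDerivAt (fun x : ℝ => ((x, 0) : ℝ × ℝ)) ((1 : ℝ), (0 : ℝ)) 0 :=
      (hasDerivAt_id (0 : ℝ)).prodMk (hasDerivAt_const (0 : ℝ) (0 : ℝ))
    have h2 : HasDerivAt (fun x : ℝ => mM (x, 0)) (fderiv ℝ mM (0, 0) (1, 0)) 0 :=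
      HasFDerivAt.comp_hasDerivAt (l := mM) (f := fun x : ℝ => ((x, 0) : ℝ × ℝ)) (0 : ℝ) hd h1
    have h3 : HasDerivAt (fun x : ℝ => ((1 : ℝ), qq x)) ((0 : ℝ), (-27 : ℝ)) 0 :=
      (hasDerivAt_const (0 : ℝ) (1 : ℝ)).prodMk hasDerivAt_qq
    have h4 : (fun x : ℝ => mM (x, 0)) =ᶠ[𝓝 0] fun x : ℝ => ((1 : ℝ), qq x) := by
      filter_upwards [hne] with x hx
      unfold mM
      simp only
      rw [Q1_zero_right hx, Q2_eq, Q1_zero_left hx]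
    exact h2.unique (h3.congr_of_eventuallyEq h4)
  have k2 : fderiv ℝ mM (0, 0) (0, 1) = (-27, 0) := by
    have h1 : HasDerivAt (fun x : ℝ => ((0, x) : ℝ × ℝ)) ((0 : ℝ), (1 : ℝ)) 0 :=
      (hasDerivAt_const (0 : ℝ) (0 : ℝ)).prodMk (hasDerivAt_id (0 : ℝ))
    have h2 : HasDerivAt (fun x : ℝ => mM (0, x)) (fderiv ℝ mM (0, 0) (0, 1)) 0 :=
      HasFDerivAt.comp_hasDerivAt (l := mM) (f := fun x : ℝ => ((0, x) : ℝ × ℝ)) (0 : ℝ) hd h1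
    have h3 : HasDerivAt (fun x : ℝ => (qq x, (1 : ℝ))) ((-27 : ℝ), (0 : ℝ)) 0 :=
      hasDerivAt_qq.prodMk (hasDerivAt_const (0 : ℝ) (1 : ℝ))
    have h4 : (fun x : ℝ => mM (0, x)) =ᶠ[𝓝 0] fun x : ℝ => (qq x, (1 : ℝ)) := by
      filter_upwards [hne] with x hx
      unfold mM
      simp only
      rw [Q1_zero_left hx, Q2_eq, Q1_zero_right hx]
    exact h2.unique (h3.congr_of_eventuallyEq h4)
  have k3 : fderiv ℝ mM (0, 0) = (mM' : (ℝ × ℝ) →L[ℝ] (ℝ × ℝ)) := by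
    ext
    · simp [k1, mM'_apply]
    · simp [k1, mM'_apply]
    · simp [k2, mM'_apply]
    · simp [k2, mM'_apply]
  rw [← k3]
  exact hs

theorem exists_state : ∃ δ : ℝ, 0 < δ ∧ ∃ γ : ℝ × ℝ → ℝ × ℝ,
    ContDiffOn ℝ ∞ γ (Metric.ball 0 δ) ∧
    (∀ a, |a| < δ → γ (a, 0) = (a, 0)) ∧
    (∀ a b, |a| < δ → |b| < δ → γ (b, a) = (γ (a, b)).swap) ∧
    (∀ a b, |a| < δ → |b| < δ → mM (γ (a, b)) = (qq b, qq a)) ∧
    (∀ a b, |a| < δ → |b| < δ → Good (γ (a, b))) := by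
  set e := hasStrict.toOpenPartialHomeomorph mM with he
  have hef : ∀ p, e p = mM p := fun p => rfl
  have h0 : ((0 : ℝ), (0 : ℝ)) ∈ e.source := hasStrict.mem_toOpenPartialHomeomorph_source
  have hn0 : (1 : ℝ) - ((0 : ℝ), (0 : ℝ)).1 * ((0 : ℝ), (0 : ℝ)).2 ≠ 0 := by norm_num
  have hc := contDiffAt_mM hn0 (by rw [f3_zero]; norm_num)
  -- the good neighbourhood
  have hW1 : ∀ᶠ p in 𝓝 ((0 : ℝ), (0 : ℝ)), p ∈ e.source := e.open_source.mem_nhds h0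
  have hsw : Tendsto (Prod.swap : ℝ × ℝ → ℝ × ℝ) (𝓝 ((0 : ℝ), (0 : ℝ))) (𝓝 ((0 : ℝ), (0 : ℝ))) :=
    continuous_swap.tendsto ((0 : ℝ), (0 : ℝ))
  have hW2 : ∀ᶠ p : ℝ × ℝ in 𝓝 ((0 : ℝ), (0 : ℝ)), p.swap ∈ e.source := hsw.eventually hW1
  have hfd : ContinuousAt (fderiv ℝ mM) (0, 0) :=
    (hc.fderiv_right (m := 0) (by norm_num)).continuousAt
  have hW3 : ∀ᶠ p in 𝓝 ((0 : ℝ), (0 : ℝ)), fderiv ℝ mM p ∈
      range ((↑) : ((ℝ × ℝ) ≃L[ℝ] (ℝ × ℝ)) → (ℝ × ℝ) →L[ℝ] (ℝ × ℝ)) := by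
    apply hfd
    rw [hasStrict.hasFDerivAt.fderiv]
    exact ContinuousLinearEquiv.nhds mM'
  have hW : ∀ᶠ p in 𝓝 ((0 : ℝ), (0 : ℝ)), p ∈ e.source ∧ p.swap ∈ e.source ∧
      fderiv ℝ mM p ∈ range ((↑) : ((ℝ × ℝ) ≃L[ℝ] (ℝ × ℝ)) → (ℝ × ℝ) →L[ℝ] (ℝ × ℝ)) ∧
      Good p := by
    filter_upwards [hW1, hW2, hW3, eventually_good] with p a b c d
    exact ⟨a, b, c, d⟩
  have hM0 : mM (0, 0) = (1, 1) := by
    unfold mM
    simp only
    rw [Q2_eq, Q1_zero_left (by norm_num), qq_zero]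
  have ht0 : ((1 : ℝ), (1 : ℝ)) ∈ e.target := by
    rw [← hM0]; exact e.map_source h0
  have hsymm0 : e.symm (1, 1) = (0, 0) := by
    rw [← hM0, ← hef, e.left_inv h0]
  have hcont : Tendsto e.symm (𝓝 ((1 : ℝ), (1 : ℝ))) (𝓝 ((0 : ℝ), (0 : ℝ))) := by
    rw [← hsymm0]
    exact e.continuousAt_symm ht0
  have hT : ∀ᶠ b in 𝓝 ((1 : ℝ), (1 : ℝ)), b ∈ e.target := e.open_target.mem_nhds ht0
  have hV : ∀ᶠ b in 𝓝 ((1 : ℝ), (1 : ℝ)), b ∈ e.target ∧ (e.symm b ∈ e.source ∧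
      (e.symm b).swap ∈ e.source ∧ fderiv ℝ mM (e.symm b) ∈ range
        ((↑) : ((ℝ × ℝ) ≃L[ℝ] (ℝ × ℝ)) → (ℝ × ℝ) →L[ℝ] (ℝ × ℝ)) ∧ Good (e.symm b)) :=
    hT.and (hcont.eventually hW)
  have hss : ContDiff ℝ ∞ ss := by
    unfold ss
    exact ContDiff.div (by fun_prop) (by fun_prop) fun x => (den_pos x).ne'
  have hqat : ∀ x : ℝ, 1 + 2 * x ≠ 0 → ContDiffAt ℝ ∞ qq x := by
    intro x hx
    unfold qq
    have hs : ss x ≠ 0 := by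
      unfold ss
      have := (den_pos x).ne'
      positivity
    refine ContDiffAt.div ?_ (hss.contDiffAt.pow 3) (pow_ne_zero 3 hs)
    have := hss.contDiffAt (x := x)
    fun_prop
  -- the map into the target
  set κ : ℝ × ℝ → ℝ × ℝ := fun p => (qq p.2, qq p.1) with hκ
  have hκ0 : κ (0, 0) = (1, 1) := by simp only [hκ, qq_zero]
  have hκc : ContinuousAt κ (0, 0) := by
    have h1 : ContinuousAt qq 0 := (hqat 0 (by norm_num)).continuousAt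
    have h2 : ContinuousAt (fun p : ℝ × ℝ => qq p.2) ((0 : ℝ), (0 : ℝ)) :=
      ContinuousAt.comp (g := qq) (f := fun p : ℝ × ℝ => p.2) h1 continuousAt_snd
    have h3 : ContinuousAt (fun p : ℝ × ℝ => qq p.1) ((0 : ℝ), (0 : ℝ)) :=
      ContinuousAt.comp (g := qq) (f := fun p : ℝ × ℝ => p.1) h1 continuousAt_fst
    exact h2.prodMk h3
  have hκt : Tendsto κ (𝓝 ((0 : ℝ), (0 : ℝ))) (𝓝 ((1 : ℝ), (1 : ℝ))) := by
    rw [← hκ0]; exact hκc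
  have hall := (hκt.eventually hV).and hW
  rw [Metric.eventually_nhds_iff_ball] at hall
  obtain ⟨δ0, hδ0, hb⟩ := hall
  set δ := min δ0 (1 / 4) with hδ
  have hδp : 0 < δ := by positivity
  have hball : ∀ a b : ℝ, |a| < δ → |b| < δ → ((a, b) : ℝ × ℝ) ∈ Metric.ball ((0 : ℝ), (0 : ℝ)) δ0 := by
    intro a b ha hb
    rw [Metric.mem_ball, Prod.dist_eq, Real.dist_eq, Real.dist_eq, sub_zero, sub_zero]
    exact max_lt (ha.trans_le (min_le_left _ _)) (hb.trans_le (min_le_left _ _))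
  have h12 : ∀ a : ℝ, |a| < δ → 1 + 2 * a ≠ 0 := by
    intro a ha
    have := (abs_lt.1 (ha.trans_le (min_le_right _ _))).1
    intro h; linarith
  refine ⟨δ, hδp, fun p => e.symm (κ p), ?_, ?_, ?_, ?_, ?_⟩
  · intro p hp
    have hp' : |p.1| < δ ∧ |p.2| < δ := by
      have : dist p 0 < δ := hp
      rw [Prod.dist_eq, Real.dist_eq, Real.dist_eq] at this
      simp only [Prod.fst_zero, Prod.snd_zero, sub_zero] at this
      exact max_lt_iff.1 this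
    have h1 := (hb (p.1, p.2) (hball _ _ hp'.1 hp'.2)).1
    obtain ⟨ht, hs1, hs2, ⟨E, hE⟩, hg⟩ := h1
    have hg' := hg
    obtain ⟨-, -, -, -, hf3⟩ := hg'
    have hcd : ContDiffAt ℝ ∞ mM (e.symm (κ (p.1, p.2))) := contDiffAt_mM hg.one_sub.ne' hf3
    have hder : HasFDerivAt e (E : (ℝ × ℝ) →L[ℝ] (ℝ × ℝ)) (e.symm (κ (p.1, p.2))) := by
      rw [hE]
      exact (hcd.differentiableAt (by simp)).hasFDerivAt
    have h2 : ContDiffAt ℝ ∞ e.symm (κ p) := e.contDiffAt_symm ht hder hcd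
    have h3 : ContDiffAt ℝ ∞ κ p := by
      have h4 : ContDiffAt ℝ ∞ (fun p : ℝ × ℝ => qq p.2) p :=
        ContDiffAt.comp (g := qq) (f := fun p : ℝ × ℝ => p.2) p (hqat p.2 (h12 _ hp'.2))
          contDiffAt_snd
      have h5 : ContDiffAt ℝ ∞ (fun p : ℝ × ℝ => qq p.1) p :=
        ContDiffAt.comp (g := qq) (f := fun p : ℝ × ℝ => p.1) p (hqat p.1 (h12 _ hp'.1))
          contDiffAt_fst
      exact h4.prodMk h5
    exact (ContDiffAt.comp (g := e.symm) (f := κ) p h2 h3).contDiffWithinAt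
  · intro a ha
    have h1 := (hb (a, 0) (hball a 0 ha (by simpa using hδp))).2
    have h2 : κ (a, 0) = mM (a, 0) := by
      simp only [hκ, mM]
      rw [Q1_zero_right (h12 a ha), Q2_eq, Q1_zero_left (h12 a ha), qq_zero]
    simp only [h2]
    rw [← hef, e.left_inv h1.1]
  · intro a b ha hb'
    have h1 := (hb (a, b) (hball a b ha hb')).1
    have h2 := (hb (b, a) (hball b a hb' ha)).1
    refine e.injOn h2.2.1 h1.2.2.1 ?_
    rw [e.right_inv h2.1, hef, mM_swap, ← hef, e.right_inv h1.1]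
    rfl
  · intro a b ha hb'
    have h1 := (hb (a, b) (hball a b ha hb')).1
    show mM (e.symm (κ (a, b))) = _
    rw [← hef, e.right_inv h1.1]
  · intro a b ha hb'
    exact (hb (a, b) (hball a b ha hb')).1.2.2.2.2

end Pool.Agent.TH309.Tor
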